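import Pool.Agent.Lib.PolyTime.Matching

/-!
# More closure properties, and forms of the matching theorem
-/

namespace Pool.Agent.PolyTime

variable {α β γ : Type} [Enc α] [Enc β] [Enc γ]

/-! ### Ranges -/

theorem cons_length_iterate (n : ℕ) :
    (fun l : List ℕ => l.length :: l)^[n] [] = (List.range n).reverse := by
  induction n with
  | zero => rfl
  | succ n ih =>
    rw [Function.iterate_succ_apply', ih, List.range_succ]
    simp

theorem PolyFn.range {n : γ → ℕ} (hn : PolyFn n) : PolyFn (fun c => List.range (n c)) := by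
  have key : PolyFn (fun n : ℕ => (fun l : List ℕ => l.length :: l)^[n] []) := by
    refine PolyFn.iterate (γ := ℕ) (step := fun _ l => l.length :: l) (init := fun _ => [])
      (cnt := fun n => n) (PolyFn.cons (PolyFn.length PolyFn.snd) PolyFn.snd) (PolyFn.const [])
      PolyFn.id ⟨fun m => m * (2 * m + 1 + 1) + 1,
        (PB.id.mul ((((PB.const 2).mul PB.id).add (PB.const 1)).add (PB.const 1))).add
          (PB.const 1), ?_⟩
    intro c i hi
    rw [cons_length_iterate]
    have h2 : size (List.range i).reverse ≤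
        (List.range i).reverse.length * (2 * i + 1 + 1) + 1 := by
      apply size_list_le
      intro a ha
      rw [List.mem_reverse, List.mem_range] at ha
      rw [size_nat]
      omega
    rw [List.length_reverse, List.length_range] at h2
    have h3 : i ≤ size c := by rw [size_nat]; omega
    nlinarith
  refine ((PolyFn.reverse key).comp hn).of_eq fun c => ?_
  rw [cons_length_iterate, List.reverse_reverse]

/-! ### Flattening -/

theorem foldl_append_flatten (l : List (List α)) (acc : List α) :
    l.foldl (fun acc a => acc ++ a) acc = acc ++ l.flatten := by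
  induction l generalizing acc with
  | nil => simp
  | cons a l ih => rw [List.foldl_cons, ih, List.flatten_cons, List.append_assoc]

theorem size_flatten_le (l : List (List α)) : size l.flatten ≤ size l := by
  induction l with
  | nil => simp
  | cons a l ih =>
    have := size_append a l.flatten
    simp only [List.flatten_cons, size_list_cons]
    omega

theorem PolyFn.flatten {l : γ → List (List α)} (hl : PolyFn l) :
    PolyFn (fun c => (l c).flatten) := by
  have key : PolyFn (fun l : List (List α) => l.foldl (fun acc a => acc ++ a) []) := by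
    refine PolyFn.foldl (γ := List (List α)) (step := fun _ acc a => acc ++ a)
      (init := fun _ => []) (l := fun l => l)
      (PolyFn.append (PolyFn.fst.comp PolyFn.snd) (PolyFn.snd.comp PolyFn.snd))
      (PolyFn.const []) PolyFn.id ⟨fun m => m, PB.id, ?_⟩
    intro l i _
    rw [foldl_append_flatten, List.nil_append]
    exact (size_flatten_le _).trans (size_take_le l i)
  refine (key.comp hl).of_eq fun c => ?_
  rw [foldl_append_flatten, List.nil_append]

theorem PolyFn.flatMap {f : γ → α → List β} {l : γ → List α}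
    (hf : PolyFn fun p : γ × α => f p.1 p.2) (hl : PolyFn l) :
    PolyFn (fun c => (l c).flatMap (f c)) :=
  (PolyFn.flatten (PolyFn.map hf hl)).of_eq fun c => by rw [List.flatMap_def]

/-- Membership of a natural number in a list. -/
theorem PolyFn.decide_mem {l : γ → List ℕ} {x : γ → ℕ} (hl : PolyFn l) (hx : PolyFn x) :
    PolyFn (fun c => decide (x c ∈ l c)) := by
  refine (PolyFn.any (p := fun c y => decide (y = x c))
    (PolyFn.decide_eq_nat PolyFn.snd (hx.comp PolyFn.fst)) hl).of_eq fun c => ?_
  rw [Bool.eq_iff_iff, List.any_eq_true, decide_eq_true_eq]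
  constructor
  · rintro ⟨y, hy, h⟩
    rw [decide_eq_true_eq] at h
    exact h ▸ hy
  · intro h
    exact ⟨x c, h, by simp⟩

/-! ### Forms of the matching theorem -/

omit [Enc α] [Enc β] [Enc γ] in
theorem forall₂_ofFn {N : ℕ} {A : List (List ℕ)} (hN : A.length = N) (f : Fin A.length → ℕ)
    (hf : ∀ i, f i ∈ A.get i) : List.Forall₂ (fun x a => x ∈ a) (List.ofFn f) A := by
  subst hN
  rw [List.forall₂_iff_get]
  refine ⟨by simp, fun i h1 h2 => ?_⟩
  have := hf ⟨i, h2⟩
  simpa using this

theorem sdr_iff_list {U : List ℕ} {A : List (List ℕ)} (hU : ∀ a ∈ A, ∀ x ∈ a, x ∈ U) :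
    sdr U A = true ↔ ∃ L : List ℕ, L.Nodup ∧ List.Forall₂ (fun x a => x ∈ a) L A := by
  rw [sdr_iff hU]
  constructor
  · rintro ⟨f, hf, hfA⟩
    exact ⟨List.ofFn f, List.nodup_ofFn.2 hf, forall₂_ofFn rfl f hfA⟩
  · rintro ⟨L, hL, hLA⟩
    have hlen := hLA.length_eq
    refine ⟨fun i => L.get ⟨i.val, by rw [hlen]; exact i.isLt⟩, ?_, ?_⟩
    · intro i j hij
      have := List.nodup_iff_injective_get.1 hL hij
      simp only [Fin.mk.injEq] at this
      exact Fin.ext this
    · intro i
      exact (List.forall₂_iff_get.1 hLA).2 i.val _ i.isLt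

omit [Enc α] [Enc β] [Enc γ] in
theorem exists_fun_iff {ι : Type*} [DecidableEq ι] {l : List ι} (hl : l.Nodup) (a : ι → List ℕ) :
    (∃ L : List ℕ, L.Nodup ∧ List.Forall₂ (fun x a => x ∈ a) L (l.map a)) ↔
      ∃ f : ι → ℕ, (∀ x ∈ l, f x ∈ a x) ∧ ∀ x ∈ l, ∀ y ∈ l, f x = f y → x = y := by
  constructor
  · rintro ⟨L, hL, hLA⟩
    have hlen := hLA.length_eq
    rw [List.length_map] at hlen
    refine ⟨fun x => L.getD (l.idxOf x) 0, ?_, ?_⟩
    · intro x hx
      have h1 := List.idxOf_lt_length_of_mem hx
      dsimp only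
      rw [List.getD_eq_getElem _ _ (by omega)]
      have := (List.forall₂_iff_get.1 hLA).2 (l.idxOf x) (by omega) (by rw [List.length_map]; exact h1)
      simpa using this
    · intro x hx y hy hxy
      have h1 := List.idxOf_lt_length_of_mem hx
      have h2 := List.idxOf_lt_length_of_mem hy
      dsimp only at hxy
      rw [List.getD_eq_getElem _ _ (by omega), List.getD_eq_getElem _ _ (by omega)] at hxy
      have h3 := (List.Nodup.getElem_inj_iff hL).1 hxy
      have h4 : l[l.idxOf x]'h1 = l[l.idxOf y]'h2 := by simp only [h3]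
      rwa [List.getElem_idxOf, List.getElem_idxOf] at h4
  · rintro ⟨f, hf, hinj⟩
    refine ⟨l.map f, ?_, ?_⟩
    · exact List.Nodup.map_on (fun x hx y hy h => hinj x hx y hy h) hl
    · rw [List.forall₂_map_left_iff, List.forall₂_map_right_iff, List.forall₂_same]
      exact hf

theorem sdr_map_iff {ι : Type*} [DecidableEq ι] {U : List ℕ} {l : List ι} (hl : l.Nodup)
    (a : ι → List ℕ) (hU : ∀ i ∈ l, ∀ x ∈ a i, x ∈ U) :
    sdr U (l.map a) = true ↔
      ∃ f : ι → ℕ, (∀ x ∈ l, f x ∈ a x) ∧ ∀ x ∈ l, ∀ y ∈ l, f x = f y → x = y := by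
  rw [sdr_iff_list, exists_fun_iff hl]
  intro b hb
  obtain ⟨i, hi, rfl⟩ := List.mem_map.1 hb
  exact hU i hi

omit [Enc α] [Enc β] [Enc γ] in
/-- Hall's theorem for the indices in a list. -/
theorem exists_fun_of_hall {ι : Type*} [DecidableEq ι] {l : List ι} (a : ι → List ℕ)
    (h : ∀ S : Finset ι, (∀ x ∈ S, x ∈ l) → S.card ≤ (S.biUnion fun x => (a x).toFinset).card) :
    ∃ f : ι → ℕ, (∀ x ∈ l, f x ∈ a x) ∧ ∀ x ∈ l, ∀ y ∈ l, f x = f y → x = y := by
  classical
  have h1 := (Finset.all_card_le_biUnion_card_iff_exists_injective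
    (fun x : {x // x ∈ l} => (a x.1).toFinset)).1 (by
      intro S
      have h2 := h (S.map (Function.Embedding.subtype _)) (by
        intro x hx
        obtain ⟨y, _, rfl⟩ := Finset.mem_map.1 hx
        exact y.2)
      rw [Finset.card_map] at h2
      refine h2.trans (Finset.card_le_card ?_)
      intro x hx
      rw [Finset.mem_biUnion] at hx ⊢
      obtain ⟨y, hy, hxy⟩ := hx
      obtain ⟨z, hz, rfl⟩ := Finset.mem_map.1 hy
      exact ⟨z, hz, hxy⟩)
  obtain ⟨g, hg, hga⟩ := h1
  refine ⟨fun x => if hx : x ∈ l then g ⟨x, hx⟩ else 0, ?_, ?_⟩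
  · intro x hx
    dsimp only
    rw [dif_pos hx]
    exact List.mem_toFinset.1 (hga ⟨x, hx⟩)
  · intro x hx y hy hxy
    dsimp only at hxy
    rw [dif_pos hx, dif_pos hy] at hxy
    have := hg hxy
    simpa using this

end Pool.Agent.PolyTime
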