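import Pool.Agent.Lib.PolyTime.Data

/-!
# More polynomial-time functions: arithmetic (unary) and list operations
-/

namespace Pool.Agent.PolyTime

variable {α β γ δ : Type} [Enc α] [Enc β] [Enc γ] [Enc δ]

/-! ### Arithmetic -/

theorem PolyFn.add {f g : γ → ℕ} (hf : PolyFn f) (hg : PolyFn g) : PolyFn (fun c => f c + g c) := by
  obtain ⟨f', hf', hfs⟩ := hf.size_le
  obtain ⟨g', hg', hgs⟩ := hg.size_le
  have key : ∀ (i n : ℕ), (fun x => x + 1)^[i] n = n + i := by
    intro i
    induction i with
    | zero => intro n; rfl
    | succ i ih => intro n; rw [Function.iterate_succ_apply, ih]; omega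
  refine (PolyFn.iterate (step := fun (_ : γ) (n : ℕ) => n + 1) (init := f) (cnt := g)
    (PolyFn.succ PolyFn.snd) hf hg ⟨fun n => f' n + g' n, hf'.add hg', fun c i hi => ?_⟩).of_eq
    fun c => key _ _
  rw [key]
  have h1 := hfs c
  have h2 := hgs c
  simp only [size_nat] at h1 h2 ⊢
  omega

theorem PolyFn.sub {f g : γ → ℕ} (hf : PolyFn f) (hg : PolyFn g) : PolyFn (fun c => f c - g c) := by
  obtain ⟨f', hf', hfs⟩ := hf.size_le
  have key : ∀ (i n : ℕ), (fun x => x - 1)^[i] n = n - i := by
    intro i
    induction i with
    | zero => intro n; rfl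
    | succ i ih => intro n; rw [Function.iterate_succ_apply, ih]; omega
  refine (PolyFn.iterate (step := fun (_ : γ) (n : ℕ) => n - 1) (init := f) (cnt := g)
    (PolyFn.pred PolyFn.snd) hf hg ⟨fun n => f' n, hf', fun c i hi => ?_⟩).of_eq
    fun c => key _ _
  rw [key]
  have h1 := hfs c
  simp only [size_nat] at h1 ⊢
  omega

theorem PolyFn.mul {f g : γ → ℕ} (hf : PolyFn f) (hg : PolyFn g) : PolyFn (fun c => f c * g c) := by
  obtain ⟨f', hf', hfs⟩ := hf.size_le
  obtain ⟨g', hg', hgs⟩ := hg.size_le
  have key : ∀ (m i n : ℕ), (fun x => x + m)^[i] n = n + m * i := by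
    intro m i
    induction i with
    | zero => intro n; rfl
    | succ i ih => intro n; rw [Function.iterate_succ_apply, ih]; ring
  refine (PolyFn.iterate (step := fun (c : γ) (n : ℕ) => n + f c) (init := fun _ => 0) (cnt := g)
    (PolyFn.add PolyFn.snd (hf.comp PolyFn.fst)) (PolyFn.const 0) hg
    ⟨fun n => 2 * (f' n * g' n) + 1, ((PB.const 2).mul (hf'.mul hg')).add (PB.const 1),
    fun c i hi => ?_⟩).of_eq
    fun c => by rw [key]; omega
  rw [key]
  have h1 := hfs c
  have h2 := hgs c
  simp only [size_nat] at h1 h2 ⊢
  have h3 : f c ≤ f' (size c) := by omega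
  have h4 : i ≤ g' (size c) := by omega
  have := Nat.mul_le_mul h3 h4
  omega

theorem PolyFn.pow {f : γ → ℕ} (hf : PolyFn f) (k : ℕ) : PolyFn (fun c => f c ^ k) := by
  induction k with
  | zero => exact (PolyFn.const 1).of_eq fun _ => by simp
  | succ k ih => exact (ih.mul hf).of_eq fun _ => by simp [pow_succ]

theorem PolyFn.decide_le {f g : γ → ℕ} (hf : PolyFn f) (hg : PolyFn g) :
    PolyFn (fun c => decide (f c ≤ g c)) :=
  (hf.sub hg).eq_zero.of_eq fun c => by simp [Nat.sub_eq_zero_iff_le]

theorem PolyFn.decide_lt {f g : γ → ℕ} (hf : PolyFn f) (hg : PolyFn g) :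
    PolyFn (fun c => decide (f c < g c)) :=
  (PolyFn.decide_le hf.succ hg).of_eq fun c => by
    simp

theorem PolyFn.decide_eq_nat {f g : γ → ℕ} (hf : PolyFn f) (hg : PolyFn g) :
    PolyFn (fun c => decide (f c = g c)) :=
  ((PolyFn.decide_le hf hg).and (PolyFn.decide_le hg hf)).of_eq fun c => by
    rw [← Bool.decide_and]; simp [le_antisymm_iff]

theorem PolyFn.min {f g : γ → ℕ} (hf : PolyFn f) (hg : PolyFn g) :
    PolyFn (fun c => Min.min (f c) (g c)) :=
  (PolyFn.ite (PolyFn.decide_le hf hg) hf hg).of_eq fun c => by
    split_ifs with h <;> omega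

theorem PolyFn.max {f g : γ → ℕ} (hf : PolyFn f) (hg : PolyFn g) :
    PolyFn (fun c => Max.max (f c) (g c)) :=
  (PolyFn.ite (PolyFn.decide_le hf hg) hg hf).of_eq fun c => by
    split_ifs with h <;> omega

theorem mod_iterate (m n : ℕ) : (fun x => if x + 1 = m then 0 else x + 1)^[n] 0 = n % m := by
  rcases Nat.eq_zero_or_pos m with rfl | hm
  · simp only [Nat.mod_zero]
    induction n with
    | zero => rfl
    | succ n ih => rw [Function.iterate_succ_apply', ih]; simp
  · induction n with
    | zero => simp
    | succ n ih =>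
      rw [Function.iterate_succ_apply', ih]
      have h1 := Nat.mod_lt n hm
      have h2 : (n % m + 1) % m = (n + 1) % m := Nat.mod_add_mod _ _ _
      rw [← h2]
      split_ifs with h
      · rw [h, Nat.mod_self]
      · exact (Nat.mod_eq_of_lt (show n % m + 1 < m by omega)).symm

theorem PolyFn.mod {f g : γ → ℕ} (hf : PolyFn f) (hg : PolyFn g) : PolyFn (fun c => f c % g c) := by
  obtain ⟨f', hf', hfs⟩ := hf.size_le
  refine (PolyFn.iterate (step := fun (c : γ) (x : ℕ) => if x + 1 = g c then 0 else x + 1)
    (init := fun _ => 0) (cnt := f)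
    (PolyFn.ite (PolyFn.decide_eq_nat (PolyFn.succ PolyFn.snd) (hg.comp PolyFn.fst)) (PolyFn.const 0)
      (PolyFn.succ PolyFn.snd)) (PolyFn.const 0) hf
    ⟨f', hf', fun c i hi => ?_⟩).of_eq fun c => mod_iterate _ _
  rw [mod_iterate]
  have h1 := hfs c
  have h2 := Nat.mod_le i (g c)
  simp only [size_nat] at h1 ⊢
  omega

/-! ### Lists -/

omit [Enc α] [Enc β] in
theorem foldl_cons_map (f : α → β) (l : List α) (acc : List β) :
    l.foldl (fun acc a => f a :: acc) acc = (l.map f).reverse ++ acc := by
  induction l generalizing acc with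
  | nil => simp
  | cons a l ih => simp [ih]

theorem size_take_le (l : List α) (i : ℕ) : size (l.take i) ≤ size l := by
  induction i generalizing l with
  | zero => simp [Nat.one_le_iff_ne_zero, (size_pos _).ne']
  | succ i ih =>
    cases l with
    | nil => simp
    | cons a l =>
      have := ih l
      simp only [List.take_succ_cons, size_list_cons]
      omega

theorem PolyFn.reverseAppend {l l' : γ → List α} (hl : PolyFn l) (hl' : PolyFn l') :
    PolyFn (fun c => (l c).reverse ++ l' c) := by
  obtain ⟨f', hf', hfs⟩ := hl.size_le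
  obtain ⟨g', hg', hgs⟩ := hl'.size_le
  have key := fun (l : List α) (acc : List α) => foldl_cons_map (fun a : α => a) l acc
  refine (PolyFn.foldl (step := fun (_ : γ) (acc : List α) (a : α) => a :: acc) (init := l') (l := l)
    (PolyFn.cons (PolyFn.snd.comp PolyFn.snd) (PolyFn.fst.comp PolyFn.snd)) hl' hl
    ⟨fun n => f' n + g' n, hf'.add hg', fun c i hi => ?_⟩).of_eq
    fun c => by rw [key]; simp
  rw [key]
  simp only [List.map_id']
  have h1 := hfs c
  have h2 := hgs c
  have h3 := size_append ((l c).take i).reverse (l' c)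
  have h4 := size_take_le (l c) i
  rw [size_reverse] at h3
  omega

theorem PolyFn.reverse {l : γ → List α} (hl : PolyFn l) : PolyFn (fun c => (l c).reverse) :=
  (PolyFn.reverseAppend hl (PolyFn.const [])).of_eq fun c => by simp

theorem PolyFn.append {l l' : γ → List α} (hl : PolyFn l) (hl' : PolyFn l') :
    PolyFn (fun c => l c ++ l' c) :=
  (PolyFn.reverseAppend hl.reverse hl').of_eq fun c => by simp

theorem PolyFn.map {f : γ → α → β} {l : γ → List α} (hf : PolyFn fun p : γ × α => f p.1 p.2)
    (hl : PolyFn l) : PolyFn (fun c => (l c).map (f c)) := by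
  obtain ⟨f', hf', hfs⟩ := hf.size_le
  obtain ⟨l', hl', hls⟩ := hl.size_le
  have key := fun (c : γ) (l : List α) (acc : List β) => foldl_cons_map (f c) l acc
  have h1 : PolyFn (fun c => (l c).foldl (fun acc a => f c a :: acc) []) := by
    refine PolyFn.foldl (step := fun (c : γ) (acc : List β) (a : α) => f c a :: acc)
      (PolyFn.cons (hf.comp (PolyFn.fst.pair (PolyFn.snd.comp PolyFn.snd))) (PolyFn.fst.comp PolyFn.snd))
      (PolyFn.const []) hl ⟨fun n => l' n * (f' (n + l' n + 1) + 1) + 1,
        (hl'.mul ((hf'.comp ((PB.id.add hl').add (PB.const 1))).add (PB.const 1))).add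
          (PB.const 1), fun c i hi => ?_⟩
    rw [key]
    simp only [List.append_nil]
    rw [size_reverse]
    have h2 : ∀ b ∈ ((l c).take i).map (f c), size b ≤ f' (size c + l' (size c) + 1) := by
      intro b hb
      obtain ⟨a, ha, rfl⟩ := List.mem_map.1 hb
      refine (hfs (c, a)).trans (hf'.mono ?_)
      rw [size_prod]
      have := size_le_of_mem (List.mem_of_mem_take ha)
      have := hls c
      omega
    refine (size_list_le h2).trans ?_
    have h3 : (((l c).take i).map (f c)).length ≤ l' (size c) := by
      rw [List.length_map, List.length_take]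
      have := length_le_size (l c)
      have := hls c
      omega
    exact Nat.add_le_add_right (Nat.mul_le_mul_right _ h3) 1
  exact h1.reverse.of_eq fun c => by rw [key]; simp

theorem PolyFn.length {l : γ → List α} (hl : PolyFn l) : PolyFn (fun c => (l c).length) := by
  obtain ⟨l', hl', hls⟩ := hl.size_le
  have key : ∀ (l : List α) (n : ℕ), l.foldl (fun n _ => n + 1) n = n + l.length := by
    intro l
    induction l with
    | nil => simp
    | cons a l ih => intro n; simp [ih]; omega
  refine (PolyFn.foldl (step := fun (_ : γ) (n : ℕ) (_ : α) => n + 1) (init := fun _ => 0) (l := l)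
    (PolyFn.succ (PolyFn.fst.comp PolyFn.snd)) (PolyFn.const 0) hl
    ⟨fun n => 2 * l' n + 1, ((PB.const 2).mul hl').add (PB.const 1), fun c i hi => ?_⟩).of_eq
    fun c => by rw [key]; simp
  rw [key]
  have h1 := hls c
  have h2 := length_le_size (l c)
  simp only [size_nat, List.length_take]
  omega

theorem sum_le_size (l : List ℕ) : 2 * l.sum + 1 ≤ size l := by
  induction l with
  | nil => simp
  | cons a l ih => simp only [List.sum_cons, size_list_cons, size_nat]; omega

theorem foldl_add (l : List ℕ) (n : ℕ) : l.foldl (fun n a => n + a) n = n + l.sum := by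
  induction l generalizing n with
  | nil => simp
  | cons a l ih => simp [ih]; omega

theorem PolyFn.sum {l : γ → List ℕ} (hl : PolyFn l) : PolyFn (fun c => (l c).sum) := by
  obtain ⟨l', hl', hls⟩ := hl.size_le
  refine (PolyFn.foldl (step := fun (_ : γ) (n : ℕ) (a : ℕ) => n + a) (init := fun _ => 0) (l := l)
    (PolyFn.add (PolyFn.fst.comp PolyFn.snd) (PolyFn.snd.comp PolyFn.snd)) (PolyFn.const 0) hl
    ⟨fun n => l' n, hl', fun c i hi => ?_⟩).of_eq
    fun c => by rw [foldl_add]; simp
  rw [foldl_add]
  have h1 := hls c
  have h2 := sum_le_size ((l c).take i)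
  have h3 := size_take_le (l c) i
  simp only [size_nat]
  omega

omit [Enc α] in
theorem foldl_or (p : α → Bool) (l : List α) (b : Bool) :
    l.foldl (fun b a => b || p a) b = (b || l.any p) := by
  induction l generalizing b with
  | nil => simp
  | cons a l ih => simp [ih, Bool.or_assoc]

theorem PolyFn.any {p : γ → α → Bool} {l : γ → List α} (hp : PolyFn fun q : γ × α => p q.1 q.2)
    (hl : PolyFn l) : PolyFn (fun c => (l c).any (p c)) := by
  refine (PolyFn.foldl (step := fun (c : γ) (b : Bool) (a : α) => b || p c a)
    (init := fun _ => false) (l := l)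
    (PolyFn.or (PolyFn.fst.comp PolyFn.snd) (hp.comp (PolyFn.fst.pair (PolyFn.snd.comp PolyFn.snd))))
    (PolyFn.const false) hl
    ⟨fun _ => 3, PB.const 3, fun c i hi => size_bool _⟩).of_eq
    fun c => by rw [foldl_or]; simp

theorem PolyFn.all {p : γ → α → Bool} {l : γ → List α} (hp : PolyFn fun q : γ × α => p q.1 q.2)
    (hl : PolyFn l) : PolyFn (fun c => (l c).all (p c)) :=
  (PolyFn.not (PolyFn.any (p := fun c a => !(p c a)) hp.not hl)).of_eq fun c => by
    rw [List.all_eq_not_any_not]

omit [Enc α] in
theorem foldl_filter (p : α → Bool) (l : List α) (acc : List α) :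
    l.foldl (fun acc a => bif p a then a :: acc else acc) acc = (l.filter p).reverse ++ acc := by
  induction l generalizing acc with
  | nil => simp
  | cons a l ih =>
    rw [List.foldl_cons, ih]
    cases h : p a <;> simp [h]

theorem size_filter_le (p : α → Bool) (l : List α) : size (l.filter p) ≤ size l := by
  induction l with
  | nil => simp
  | cons a l ih =>
    rw [List.filter_cons]
    split_ifs
    · simp only [size_list_cons]; omega
    · simp only [size_list_cons]; omega

theorem PolyFn.filter {p : γ → α → Bool} {l : γ → List α} (hp : PolyFn fun q : γ × α => p q.1 q.2)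
    (hl : PolyFn l) : PolyFn (fun c => (l c).filter (p c)) := by
  obtain ⟨l', hl', hls⟩ := hl.size_le
  have h1 : PolyFn (fun c => (l c).foldl (fun acc a => bif p c a then a :: acc else acc) []) := by
    refine PolyFn.foldl (step := fun (c : γ) (acc : List α) (a : α) =>
      bif p c a then a :: acc else acc)
      (PolyFn.cond (hp.comp (PolyFn.fst.pair (PolyFn.snd.comp PolyFn.snd)))
        (PolyFn.cons (PolyFn.snd.comp PolyFn.snd) (PolyFn.fst.comp PolyFn.snd)) (PolyFn.fst.comp PolyFn.snd))
      (PolyFn.const []) hl ⟨l', hl', fun c i hi => ?_⟩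
    rw [foldl_filter, List.append_nil, size_reverse]
    exact (size_filter_le _ _).trans ((size_take_le _ _).trans (hls c))
  exact h1.reverse.of_eq fun c => by rw [foldl_filter]; simp

theorem PolyFn.drop {l : γ → List α} {n : γ → ℕ} (hn : PolyFn n) (hl : PolyFn l) :
    PolyFn (fun c => (l c).drop (n c)) := by
  obtain ⟨l', hl', hls⟩ := hl.size_le
  have key : ∀ (i : ℕ) (l : List α), (fun l => l.tail)^[i] l = l.drop i := by
    intro i
    induction i with
    | zero => simp
    | succ i ih => intro l; rw [Function.iterate_succ_apply, ih, List.drop_tail]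
  refine (PolyFn.iterate (step := fun (_ : γ) (l : List α) => l.tail) (init := l) (cnt := n)
    (PolyFn.tail PolyFn.snd) hl hn ⟨l', hl', fun c i hi => ?_⟩).of_eq
    fun c => key _ _
  rw [key]
  exact (size_drop_le _ _).trans (hls c)

theorem PolyFn.headD {l : γ → List α} {d : γ → α} (hl : PolyFn l) (hd : PolyFn d) :
    PolyFn (fun c => (l c).headD (d c)) :=
  PolyFn.listCase (g := fun _ a _ => a) hl hd (PolyFn.fst.comp PolyFn.snd)
    (fun c h => by simp [h]) (fun c a t h => by simp [h])

theorem PolyFn.getD {l : γ → List α} {n : γ → ℕ} {d : γ → α} (hl : PolyFn l) (hn : PolyFn n)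
    (hd : PolyFn d) : PolyFn (fun c => (l c).getD (n c) (d c)) :=
  (PolyFn.headD (PolyFn.drop hn hl) hd).of_eq fun c => by
    rw [List.headD_eq_head?_getD, List.head?_drop, List.getD_eq_getElem?_getD]

theorem size_replicate (n : ℕ) (a : α) : size (List.replicate n a) = n * (size a + 1) + 1 := by
  induction n with
  | zero => simp
  | succ n ih => simp only [List.replicate_succ, size_list_cons, ih]; ring

theorem PolyFn.replicate {n : γ → ℕ} {f : γ → α} (hn : PolyFn n) (hf : PolyFn f) :
    PolyFn (fun c => List.replicate (n c) (f c)) := by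
  obtain ⟨f', hf', hfs⟩ := hf.size_le
  obtain ⟨n', hn', hns⟩ := hn.size_le
  have key : ∀ (i : ℕ) (a : α) (l : List α), (fun l => a :: l)^[i] l = List.replicate i a ++ l := by
    intro i a
    induction i with
    | zero => simp
    | succ i ih =>
      intro l
      rw [Function.iterate_succ_apply', ih, List.replicate_succ, List.cons_append]
  refine (PolyFn.iterate (step := fun (c : γ) (l : List α) => f c :: l) (init := fun _ => [])
    (cnt := n)
    (PolyFn.cons (hf.comp PolyFn.fst) PolyFn.snd) (PolyFn.const []) hn
    ⟨fun k => n' k * (f' k + 1) + 1, (hn'.mul (hf'.add (PB.const 1))).add (PB.const 1),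
    fun c i hi => ?_⟩).of_eq
    fun c => by rw [key]; simp
  rw [key, List.append_nil, size_replicate]
  have h1 := hfs c
  have h2 := hns c
  rw [size_nat] at h2
  exact Nat.add_le_add_right (Nat.mul_le_mul (by omega) (by omega)) 1

/-- The zip step. -/
def zstep (s : List β × List (α × β)) (a : α) : List β × List (α × β) :=
  match s.1 with
  | [] => s
  | b :: t => (t, (a, b) :: s.2)

omit [Enc α] [Enc β] in
theorem foldl_zstep (l : List α) (m : List β) (acc : List (α × β)) :
    l.foldl zstep (m, acc) = (m.drop l.length, (l.zip m).reverse ++ acc) := by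
  induction l generalizing m acc with
  | nil => simp
  | cons a l ih =>
    cases m with
    | nil =>
      rw [List.foldl_cons]
      show l.foldl zstep ([], acc) = _
      rw [ih]; simp
    | cons b m =>
      rw [List.foldl_cons]
      show l.foldl zstep (m, (a, b) :: acc) = _
      rw [ih]; simp

theorem size_zip_le (l : List α) (m : List β) : size (l.zip m) ≤ size l + size m := by
  induction l generalizing m with
  | nil => simp
  | cons a l ih =>
    cases m with
    | nil => simp
    | cons b m =>
      have := ih m
      simp only [List.zip_cons_cons, size_list_cons, size_prod]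
      omega

theorem PolyFn.zip {l : γ → List α} {m : γ → List β} (hl : PolyFn l) (hm : PolyFn m) :
    PolyFn (fun c => (l c).zip (m c)) := by
  obtain ⟨l', hl', hls⟩ := hl.size_le
  obtain ⟨m', hm', hms⟩ := hm.size_le
  have hz : PolyFn (fun p : γ × (List β × List (α × β)) × α => zstep p.2.1 p.2.2) := by
    have h1 : PolyFn (fun p : (γ × (List β × List (α × β)) × α) × β × List β => p.2.1) :=
      PolyFn.fst.comp PolyFn.snd
    have h2 : PolyFn (fun p : (γ × (List β × List (α × β)) × α) × β × List β => p.2.2) :=
      PolyFn.snd.comp PolyFn.snd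
    have h3 : PolyFn (fun p : (γ × (List β × List (α × β)) × α) × β × List β => p.1.2) :=
      PolyFn.snd.comp PolyFn.fst
    refine PolyFn.listCase (l := fun p : γ × (List β × List (α × β)) × α => p.2.1.1)
      (f := fun p => p.2.1) (g := fun p b t => (t, (p.2.2, b) :: p.2.1.2))
      (PolyFn.fst.comp (PolyFn.fst.comp PolyFn.snd)) (PolyFn.fst.comp PolyFn.snd)
      (h2.pair (PolyFn.cons ((PolyFn.snd.comp h3).pair h1) (PolyFn.snd.comp (PolyFn.fst.comp h3)))) ?_ ?_
    · intro p h; simp only [zstep, h]
    · intro p b t h; simp only [zstep, h]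
  have h1 : PolyFn (fun c => (l c).foldl (fun s a => zstep s a) (m c, ([] : List (α × β)))) := by
    refine PolyFn.foldl (step := fun (_ : γ) (s : List β × List (α × β)) (a : α) => zstep s a)
      hz (hm.pair (PolyFn.const [])) hl
      ⟨fun n => m' n + (l' n + m' n) + 1, (hm'.add (hl'.add hm')).add (PB.const 1),
        fun c i hi => ?_⟩
    rw [foldl_zstep, size_prod, List.append_nil, size_reverse]
    have h1 := size_drop_le (m c) (List.take i (l c)).length
    have h2 := size_zip_le ((l c).take i) (m c)
    have h3 := size_take_le (l c) i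
    have h4 := hls c
    have h5 := hms c
    show _ ≤ m' (size c) + (l' (size c) + m' (size c)) + 1
    omega
  exact (PolyFn.snd.comp h1).reverse.of_eq fun c => by rw [foldl_zstep]; simp

/-! ### Equality -/

/-- Comparison of trees with a work list. -/
def eqStep (s : List (T × T) × Bool) : List (T × T) × Bool :=
  match s.1 with
  | [] => s
  | (a, b) :: t =>
    bif isNode a then
      (bif isNode b then ((left a, left b) :: (right a, right b) :: t, s.2) else (t, false))
    else (bif isNode b then (t, false) else (t, s.2))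

/-- The number of steps left. -/
def wsize : List (T × T) → ℕ
  | [] => 0
  | (a, _) :: t => tsize a + wsize t

theorem wsize_le (l : List (T × T)) : wsize l ≤ size l := by
  induction l with
  | nil => simp [wsize]
  | cons p l ih =>
    obtain ⟨a, b⟩ := p
    simp only [wsize, size_list_cons, size_prod, size_T]
    omega

theorem eqStep_iter : ∀ (i : ℕ) (s : List (T × T) × Bool), wsize s.1 ≤ i →
    eqStep^[i] s = ([], s.2 && s.1.all fun p => decide (p.1 = p.2))
  | 0, ⟨[], b⟩, _ => by simp
  | 0, ⟨(a, _) :: t, b⟩, h => by
    have := tsize_pos a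
    simp only [wsize] at h
    omega
  | i + 1, ⟨[], b⟩, _ => by
    rw [Function.iterate_succ_apply]
    have := eqStep_iter i ([], b) (by simp [wsize])
    simpa [eqStep] using this
  | i + 1, ⟨(.nil, .nil) :: t, b⟩, h => by
    rw [Function.iterate_succ_apply]
    have := eqStep_iter i (t, b) (by simp only [wsize, tsize_nil] at h ⊢; omega)
    simpa [eqStep, isNode] using this
  | i + 1, ⟨(.nil, .node c d) :: t, b⟩, h => by
    rw [Function.iterate_succ_apply]
    have := eqStep_iter i (t, false) (by simp only [wsize, tsize_nil] at h ⊢; omega)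
    simpa [eqStep, isNode] using this
  | i + 1, ⟨(.node c d, .nil) :: t, b⟩, h => by
    rw [Function.iterate_succ_apply]
    have := eqStep_iter i (t, false) (by simp only [wsize, tsize_node] at h ⊢; omega)
    simpa [eqStep, isNode] using this
  | i + 1, ⟨(.node c d, .node e f) :: t, b⟩, h => by
    rw [Function.iterate_succ_apply]
    have := eqStep_iter i ((c, e) :: (d, f) :: t, b) (by
      simp only [wsize, tsize_node] at h ⊢; omega)
    simp only [eqStep, isNode, cond_true, left, right]
    rw [this]
    simp [Bool.and_assoc, T.node.injEq]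

theorem poly_eqStep : PolyFn eqStep := by
  have h1 : PolyFn (fun p : (List (T × T) × Bool) × (T × T) × List (T × T) => p.2.1.1) :=
    PolyFn.fst.comp (PolyFn.fst.comp PolyFn.snd)
  have h2 : PolyFn (fun p : (List (T × T) × Bool) × (T × T) × List (T × T) => p.2.1.2) :=
    PolyFn.snd.comp (PolyFn.fst.comp PolyFn.snd)
  have h3 : PolyFn (fun p : (List (T × T) × Bool) × (T × T) × List (T × T) => p.2.2) :=
    PolyFn.snd.comp PolyFn.snd
  have h4 : PolyFn (fun p : (List (T × T) × Bool) × (T × T) × List (T × T) => p.1.2) :=
    PolyFn.snd.comp PolyFn.fst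
  refine PolyFn.listCase (l := fun s : List (T × T) × Bool => s.1) (f := fun s => s)
    (g := fun s p t => bif isNode p.1 then
      (bif isNode p.2 then ((left p.1, left p.2) :: (right p.1, right p.2) :: t, s.2)
        else (t, false)) else (bif isNode p.2 then (t, false) else (t, s.2)))
    PolyFn.fst PolyFn.id ?_ ?_ ?_
  · refine PolyFn.cond (poly_isNode.comp h1) (PolyFn.cond (poly_isNode.comp h2) ?_ ?_)
      (PolyFn.cond (poly_isNode.comp h2) ?_ ?_)
    · exact (PolyFn.cons ((poly_left.comp h1).pair (poly_left.comp h2))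
        (PolyFn.cons ((poly_right.comp h1).pair (poly_right.comp h2)) h3)).pair h4
    · exact h3.pair (PolyFn.const false)
    · exact h3.pair (PolyFn.const false)
    · exact h3.pair h4
  · intro s h; simp only [eqStep, h]
  · intro s a t h; simp only [eqStep, h]

theorem eqStep_size (s : List (T × T) × Bool) : size (eqStep s) ≤ size s + 2 := by
  obtain ⟨l, b⟩ := s
  have hb := size_bool b
  cases l with
  | nil => simp [eqStep]
  | cons p t =>
    obtain ⟨a, c⟩ := p
    have hp := size_pos b
    cases a <;> cases c <;>
      simp only [eqStep, isNode, cond_true, cond_false, left, right, size_prod, size_list_cons,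
        size_T, tsize_nil, tsize_node, size_false] <;> omega

theorem eqStep_iter_size (i : ℕ) (s : List (T × T) × Bool) :
    size (eqStep^[i] s) ≤ size s + 2 * i := by
  induction i with
  | zero => simp
  | succ i ih =>
    rw [Function.iterate_succ_apply']
    have := eqStep_size (eqStep^[i] s)
    omega

theorem PolyFn.eqT {f g : γ → T} (hf : PolyFn f) (hg : PolyFn g) :
    PolyFn (fun c => decide (f c = g c)) := by
  have hin : PolyFn (fun c => ([(f c, g c)], true)) :=
    (PolyFn.cons (hf.pair hg) (PolyFn.const [])).pair (PolyFn.const true)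
  obtain ⟨s', hs', hss⟩ := hin.size_le
  have := PolyFn.iter poly_eqStep hin ⟨fun n => s' n + 2 * s' n,
    hs'.add ((PB.const 2).mul hs'), fun c i hi => by
      have h1 := eqStep_iter_size i ([(f c, g c)], true)
      have h2 := hss c
      show _ ≤ s' (size c) + 2 * s' (size c)
      omega⟩
  refine (PolyFn.snd.comp this).of_eq fun c => ?_
  rw [eqStep_iter]
  · simp
  · refine (wsize_le _).trans ?_
    rw [size_prod]
    show size [(f c, g c)] ≤ _
    omega

/-- Encodings that separate points. -/
class EncInj (α : Type) [Enc α] : Prop where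
  inj : ∀ {a b : α}, enc a = enc b → a = b

instance : EncInj T := ⟨fun h => h⟩
instance : EncInj Unit := ⟨fun _ => rfl⟩
instance : EncInj Bool := ⟨fun {a b} h => by cases a <;> cases b <;> simp_all⟩
instance [EncInj α] [EncInj β] : EncInj (α × β) := ⟨fun {a b} h => by
  obtain ⟨a1, a2⟩ := a
  obtain ⟨b1, b2⟩ := b
  simp only [enc_prod, T.node.injEq] at h
  rw [EncInj.inj h.1, EncInj.inj h.2]⟩
instance [EncInj α] : EncInj (List α) := ⟨fun {a} => by
  induction a with
  | nil => intro b h; cases b <;> simp_all
  | cons x a ih =>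
    intro b h
    cases b with
    | nil => simp at h
    | cons y b =>
      simp only [enc_list_cons, T.node.injEq] at h
      rw [EncInj.inj h.1, ih h.2]⟩
instance : EncInj ℕ := ⟨fun {a} => by
  induction a with
  | zero => intro b h; cases b <;> simp_all
  | succ a ih =>
    intro b h
    cases b with
    | zero => simp at h
    | succ b =>
      simp only [enc_succ, T.node.injEq] at h
      rw [ih h.2]⟩
instance [EncInj α] : EncInj (Option α) := ⟨fun {a b} h => by
  cases a <;> cases b <;> simp_all
  exact EncInj.inj h⟩

theorem PolyFn.decide_eq [EncInj α] [DecidableEq α] {f g : γ → α} (hf : PolyFn f) (hg : PolyFn g) :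
    PolyFn (fun c => decide (f c = g c)) :=
  (PolyFn.eqT hf.toT hg.toT).of_eq fun c => by
    by_cases h : f c = g c
    · simp [h]
    · have : enc (f c) ≠ enc (g c) := fun h' => h (EncInj.inj h')
      simp [h, this]

end Pool.Agent.PolyTime
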