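import Pool.Agent.Lib.PolyTime.Bridge
import Pool.Agent.Lib.PolyTime.Lists

/-!
# Words over finite alphabets: blocks, binary numbers, and the final bridge
-/

namespace Pool.Agent.PolyTime

variable {α β γ : Type} [Enc α] [Enc β] [Enc γ]

/-- **Bridge**: a function computed by the calculus `PolyFn` on the words encoding the instances is
computed by a polynomial-time `TM2` machine in the sense of Mathlib. -/
theorem PolyFn.toTM2 {A : Type} [Enc A] [Fintype A] {F : List A → Bool} (hF : PolyFn F) {ι : Type}
    (ea : ι → List A) (f : ι → Bool) (h : ∀ i, F (ea i) = f i) :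
    Nonempty (Turing.TM2ComputableInPolyTime ea Computability.encodeBool f) :=
  PolyFn.toTM2_reverse (F := fun l => F l.reverse) (hF.comp (PolyFn.reverse PolyFn.id)) ea f
    (fun i => by simpa using h i)

/-! ### Splitting a word into blocks at the separator `none` -/

/-- One step of the splitting automaton. -/
def blockStep (s : List (List α) × List α) (a : Option α) : List (List α) × List α :=
  match a with
  | none => (s.2.reverse :: s.1, [])
  | some b => (s.1, b :: s.2)

/-- The blocks of a word. -/
def blocks (l : List (Option α)) : List (List α) :=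
  let s := l.foldl blockStep ([], [])
  (s.2.reverse :: s.1).reverse

omit [Enc α] in
theorem foldl_blockStep_some (w : List α) (acc : List (List α)) (cur : List α) :
    (w.map some).foldl blockStep (acc, cur) = (acc, w.reverse ++ cur) := by
  induction w generalizing cur with
  | nil => rfl
  | cons b w ih =>
    rw [List.map_cons, List.foldl_cons]
    show (w.map some).foldl blockStep (acc, b :: cur) = _
    rw [ih]; simp

omit [Enc α] in
theorem foldl_blockStep_acc (l : List (Option α)) (acc acc' : List (List α)) (cur : List α) :
    l.foldl blockStep (acc ++ acc', cur) =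
      ((l.foldl blockStep (acc, cur)).1 ++ acc', (l.foldl blockStep (acc, cur)).2) := by
  induction l generalizing acc cur with
  | nil => rfl
  | cons a l ih =>
    cases a with
    | none =>
      rw [List.foldl_cons, List.foldl_cons]
      exact ih (cur.reverse :: acc) []
    | some b =>
      rw [List.foldl_cons, List.foldl_cons]
      exact ih acc (b :: cur)

omit [Enc α] in
@[simp] theorem blocks_nil : blocks ([] : List (Option α)) = [[]] := rfl

omit [Enc α] in
theorem blocks_some (w : List α) : blocks (w.map some) = [w] := by
  unfold blocks
  rw [foldl_blockStep_some]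
  simp

omit [Enc α] in
theorem blocks_cons (w : List α) (l : List (Option α)) :
    blocks (w.map some ++ none :: l) = w :: blocks l := by
  unfold blocks
  rw [List.foldl_append, foldl_blockStep_some, List.foldl_cons]
  show (let s := l.foldl blockStep ([] ++ [(w.reverse ++ []).reverse], []);
    (s.2.reverse :: s.1).reverse) = _
  rw [foldl_blockStep_acc]
  simp

theorem poly_blockStep : PolyFn (fun p : (List (List α) × List α) × Option α =>
    blockStep p.1 p.2) := by
  have h1 : PolyFn (fun p : ((List (List α) × List α) × Option α) × α => p.1.1) :=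
    PolyFn.fst.comp PolyFn.fst
  refine PolyFn.optionCase (l := fun p : (List (List α) × List α) × Option α => p.2)
    (f := fun p => (p.1.2.reverse :: p.1.1, [])) (g := fun p b => (p.1.1, b :: p.1.2))
    PolyFn.snd ((PolyFn.cons (PolyFn.reverse (PolyFn.snd.comp PolyFn.fst)) (PolyFn.fst.comp PolyFn.fst)).pair
      (PolyFn.const [])) ((PolyFn.fst.comp h1).pair (PolyFn.cons PolyFn.snd (PolyFn.snd.comp h1))) ?_ ?_
  · rintro ⟨s, a⟩ h
    change a = none at h
    subst h; rfl
  · rintro ⟨s, a⟩ b h
    change a = some b at h
    subst h; rfl

theorem size_foldl_blockStep (l : List (Option α)) (s : List (List α) × List α) :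
    size (l.foldl blockStep s) ≤ size s + 2 * size l := by
  induction l generalizing s with
  | nil => simp
  | cons a l ih =>
    rw [List.foldl_cons]
    refine (ih _).trans ?_
    obtain ⟨x, y⟩ := s
    cases a with
    | none => simp only [blockStep, size_prod, size_list_cons, size_list_nil, size_reverse,
        size_none]; omega
    | some b => simp only [blockStep, size_prod, size_list_cons, size_some]; omega

theorem PolyFn.blocks {l : γ → List (Option α)} (hl : PolyFn l) : PolyFn (fun c => blocks (l c)) := by
  obtain ⟨l', hl', hls⟩ := hl.size_le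
  have h1 : PolyFn (fun c => (l c).foldl (fun s a => blockStep s a)
      (([], []) : List (List α) × List α)) := by
    refine PolyFn.foldl (step := fun (_ : γ) (s : List (List α) × List α) (a : Option α) =>
      blockStep s a) (poly_blockStep.comp ((PolyFn.fst.comp PolyFn.snd).pair (PolyFn.snd.comp PolyFn.snd)))
      (PolyFn.const ([], [])) hl ⟨fun n => 3 + 2 * l' n, (PB.const 3).add ((PB.const 2).mul hl'),
      fun c i hi => ?_⟩
    have h2 := size_foldl_blockStep ((l c).take i) ([], [])
    have h3 := size_take_le (l c) i
    have h4 := hls c
    simp only [size_prod, size_list_nil] at h2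
    show size (((l c).take i).foldl blockStep ([], [])) ≤ 3 + 2 * l' (size c)
    omega
  exact PolyFn.reverse (PolyFn.cons (PolyFn.reverse (PolyFn.snd.comp h1)) (PolyFn.fst.comp h1))

/-! ### Binary numbers -/

/-- The value of a binary word (least significant bit first), truncated at `cap`. -/
def capVal (cap : ℕ) (w : List Bool) : ℕ :=
  w.reverse.foldl (fun v b => Min.min (2 * v + b.toNat) cap) 0

/-- The value of a binary word, least significant bit first. -/
def binVal : List Bool → ℕ
  | [] => 0
  | b :: w => 2 * binVal w + b.toNat

theorem capVal_eq (cap : ℕ) (w : List Bool) : capVal cap w = Min.min (binVal w) cap := by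
  unfold capVal
  rw [List.foldl_reverse]
  induction w with
  | nil => simp [binVal]
  | cons b w ih =>
    rw [List.foldr_cons, ih, binVal]
    cases b <;> simp only [Bool.toNat_false, Bool.toNat_true] <;> omega

theorem binVal_bits (n : ℕ) : binVal n.bits = n := by
  induction n using Nat.strong_induction_on with
  | h n ih =>
    rcases Nat.eq_zero_or_pos n with rfl | hn
    · simp [binVal]
    · rcases Nat.even_or_odd' n with ⟨k, rfl | rfl⟩
      · rw [Nat.bit0_bits k (by omega), binVal, ih k (by omega)]
        simp
      · rw [Nat.bit1_bits, binVal, ih k (by omega)]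
        simp

theorem capVal_bits (cap n : ℕ) : capVal cap n.bits = Min.min n cap := by
  rw [capVal_eq, binVal_bits]

theorem PolyFn.toNat {b : γ → Bool} (hb : PolyFn b) : PolyFn (fun c => (b c).toNat) :=
  (PolyFn.cond hb (PolyFn.const 1) (PolyFn.const 0)).of_eq fun c => by cases b c <;> rfl

theorem PolyFn.capVal {cap : γ → ℕ} {w : γ → List Bool} (hc : PolyFn cap) (hw : PolyFn w) :
    PolyFn (fun c => capVal (cap c) (w c)) := by
  obtain ⟨c', hc', hcs⟩ := hc.size_le
  refine PolyFn.foldl (step := fun (c : γ) (v : ℕ) (b : Bool) => Min.min (2 * v + b.toNat) (cap c))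
    (init := fun _ => 0) (l := fun c => (w c).reverse)
    (PolyFn.min (PolyFn.add (PolyFn.mul (PolyFn.const 2) (PolyFn.fst.comp PolyFn.snd))
      (PolyFn.toNat (PolyFn.snd.comp PolyFn.snd))) (hc.comp PolyFn.fst))
    (PolyFn.const 0) hw.reverse ⟨fun n => c' n, hc', fun c i hi => ?_⟩
  have key : ∀ (l : List Bool) (v : ℕ), v ≤ cap c →
      l.foldl (fun v b => Min.min (2 * v + b.toNat) (cap c)) v ≤ cap c := by
    intro l
    induction l with
    | nil => intro v hv; simpa using hv
    | cons b l ih => intro v hv; exact ih _ (min_le_right _ _)
  have h1 := key ((w c).reverse.take i) 0 (Nat.zero_le _)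
  have h2 := hcs c
  simp only [size_nat] at h2 ⊢
  omega

end Pool.Agent.PolyTime
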