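import Pool.Agent.Lib.PolyTime.Universal

/-!
# Every `Turing.FinTM2` is simulated by the universal function `U`
-/

namespace Pool.Agent.PolyTime

open Turing

section compile

variable {K : Type} [DecidableEq K] [Fintype K] {Λ : Type} [Fintype Λ] {σ : Type} [Fintype σ]
  {Γ : K → Type} (syms : ∀ k, List (Γ k))

/-- number of a stack -/
noncomputable def nk (k : K) : ℕ := (Fintype.equivFin K k).val

/-- number of a state -/
noncomputable def nv (v : σ) : ℕ := (Fintype.equivFin σ v).val

/-- number of a symbol -/
noncomputable def ns (k : K) (s : Γ k) : ℕ :=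
  letI := Classical.decEq (Γ k)
  (syms k).idxOf s

/-- a table of values indexed by states -/
noncomputable def vtab (σ : Type) [Fintype σ] (f : σ → List ℕ) : List (List ℕ) :=
  List.ofFn fun i : Fin (Fintype.card σ) => f ((Fintype.equivFin σ).symm i)

omit [DecidableEq K] [Fintype K] [Fintype Λ] in
theorem vtab_getD (f : σ → List ℕ) (v : σ) : (vtab σ f).getD (nv v) [] = f v := by
  unfold vtab nv
  have h : ((Fintype.equivFin σ v) : ℕ) < (List.ofFn fun i : Fin (Fintype.card σ) =>
      f ((Fintype.equivFin σ).symm i)).length := by
    rw [List.length_ofFn]; exact (Fintype.equivFin σ v).isLt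
  rw [List.getD_eq_getElem _ _ h, List.getElem_ofFn]
  simp

/-- row of a table for peek and pop -/
noncomputable def prow (k : K) (f : σ → Option (Γ k) → σ) (v : σ) : List ℕ :=
  nv (f v none) :: (syms k).map fun s => nv (f v (some s))

/-- the code of a statement -/
noncomputable def scode : TM2.Stmt Γ Λ σ → UCode
  | .push k f q => (0, nk k, vtab σ fun v => [ns syms k (f v)]) :: scode q
  | .peek k f q => (1, nk k, vtab σ fun v => prow syms k f v) :: scode q
  | .pop k f q => (2, nk k, vtab σ fun v => prow syms k f v) :: scode q
  | .load a q => (3, 0, vtab σ fun v => [nv (a v)]) :: scode q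
  | .branch p q₁ q₂ => (4, (scode q₁).length, vtab σ fun v => [(p v).toNat]) ::
      (scode q₁ ++ scode q₂)
  | .goto l => [(5, 0, vtab σ fun v => [(Fintype.equivFin Λ (l v)).val])]
  | .halt => [(6, 0, [])]

/-- codes of the stacks -/
noncomputable def encS (S : ∀ k, List (Γ k)) : List (List ℕ) :=
  List.ofFn fun i : Fin (Fintype.card K) =>
    (S ((Fintype.equivFin K).symm i)).map (ns syms ((Fintype.equivFin K).symm i))

theorem encS_getD (S : ∀ k, List (Γ k)) (k : K) :
    (encS syms S).getD (nk k) [] = (S k).map (ns syms k) := by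
  unfold encS nk
  have h : ((Fintype.equivFin K k) : ℕ) < (List.ofFn fun i : Fin (Fintype.card K) =>
      (S ((Fintype.equivFin K).symm i)).map (ns syms ((Fintype.equivFin K).symm i))).length := by
    rw [List.length_ofFn]; exact (Fintype.equivFin K k).isLt
  rw [List.getD_eq_getElem _ _ h, List.getElem_ofFn]
  simp only [Fin.eta]
  rw [Equiv.symm_apply_apply]

theorem upd_ofFn {m : ℕ} (g : Fin m → List ℕ) (i : Fin m) (a : List ℕ) :
    upd (List.ofFn g) i.val a = List.ofFn (Function.update g i a) := by
  unfold upd
  apply List.ext_getElem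
  · simp
    have := i.isLt
    omega
  · intro n h1 h2
    rw [List.getElem_ofFn]
    rcases Nat.lt_trichotomy n i.val with h | h | h
    · rw [List.getElem_append_left (by simp; omega), List.getElem_take, List.getElem_ofFn,
        Function.update_of_ne]
      intro h'
      have := congrArg Fin.val h'
      simp at this
      omega
    · have hl : (List.take i.val (List.ofFn g)).length = i.val := by
        simp
      rw [List.getElem_append_right (by omega)]
      simp only [hl, h, Nat.sub_self, List.getElem_cons_zero]
      rw [show (⟨i.val, by omega⟩ : Fin m) = i from rfl, Function.update_self]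
    · have hl : (List.take i.val (List.ofFn g)).length = i.val := by
        simp
      rw [List.getElem_append_right (by omega)]
      have e : n - (List.take i.val (List.ofFn g)).length = (n - i.val - 1) + 1 := by
        rw [hl]; omega
      simp only [e, List.getElem_cons_succ, List.getElem_drop, List.getElem_ofFn]
      rw [Function.update_of_ne]
      · congr 1
        apply Fin.ext
        show i.val + 1 + (n - i.val - 1) = n
        omega
      · intro h'
        have := congrArg Fin.val h'
        simp at this
        omega

theorem encS_update (S : ∀ k, List (Γ k)) (k : K) (l : List (Γ k)) :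
    upd (encS syms S) (nk k) (l.map (ns syms k)) = encS syms (Function.update S k l) := by
  unfold encS nk
  rw [upd_ofFn]
  congr 1
  funext i
  by_cases h : i = Fintype.equivFin K k
  · subst h
    rw [Function.update_self, Equiv.symm_apply_apply, Function.update_self]
  · rw [Function.update_of_ne h]
    have h' : (Fintype.equivFin K).symm i ≠ k := by
      intro hk
      apply h
      rw [← hk, Equiv.apply_symm_apply]
    rw [Function.update_of_ne h']

/-- the symbols pushed by a statement are known -/
def Good : TM2.Stmt Γ Λ σ → Prop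
  | .push k f q => (∀ v, f v ∈ syms k) ∧ Good q
  | .peek _ _ q => Good q
  | .pop _ _ q => Good q
  | .load _ q => Good q
  | .branch _ q₁ q₂ => Good q₁ ∧ Good q₂
  | .goto _ => True
  | .halt => True

/-- all symbols on the stacks are known -/
def Known (S : ∀ k, List (Γ k)) : Prop := ∀ k, ∀ s ∈ S k, s ∈ syms k

omit [Fintype K] in
theorem Known.update {S : ∀ k, List (Γ k)} (h : Known syms S) {k : K} {l : List (Γ k)}
    (hl : ∀ s ∈ l, s ∈ syms k) : Known syms (Function.update S k l) := by
  intro k' s hs
  by_cases hk : k' = k
  · subst hk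
    rw [Function.update_self] at hs
    exact hl s hs
  · rw [Function.update_of_ne hk] at hs
    exact h k' s hs

omit [Fintype K] [Fintype σ] [Fintype Λ] in
theorem Known.stepAux : ∀ (q : TM2.Stmt Γ Λ σ) (_ : Good syms q) (v : σ) (S : ∀ k, List (Γ k))
    (_ : Known syms S), Known syms (TM2.stepAux q v S).stk
  | .push k f q, hq, v, S, hS => by
    refine Known.stepAux q hq.2 v _ (hS.update syms ?_)
    intro s hs
    rcases List.mem_cons.1 hs with rfl | hs
    · exact hq.1 v
    · exact hS k s hs
  | .peek k f q, hq, v, S, hS => Known.stepAux q hq _ S hS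
  | .pop k f q, hq, v, S, hS => by
    refine Known.stepAux q hq _ _ (hS.update syms ?_)
    intro s hs
    exact hS k s (List.mem_of_mem_tail hs)
  | .load a q, hq, v, S, hS => Known.stepAux q hq _ S hS
  | .branch p q₁ q₂, hq, v, S, hS => by
    show Known syms (cond (p v) (TM2.stepAux q₁ v S) (TM2.stepAux q₂ v S)).stk
    cases p v
    · exact Known.stepAux q₂ hq.2 v S hS
    · exact Known.stepAux q₁ hq.1 v S hS
  | .goto l, _, v, S, hS => hS
  | .halt, _, v, S, hS => hS

omit [Fintype K] [DecidableEq K] [Fintype Λ] in
theorem prow_getD (k : K) (f : σ → Option (Γ k) → σ) (v : σ) (l : List (Γ k))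
    (hl : ∀ s ∈ l, s ∈ syms k) :
    (prow syms k f v).getD (hd1 (l.map (ns syms k))) 0 = nv (f v l.head?) := by
  cases l with
  | nil => rfl
  | cons a t =>
    have ha := hl a (List.mem_cons_self)
    letI := Classical.decEq (Γ k)
    have h1 : (syms k).idxOf a < (syms k).length := List.idxOf_lt_length_iff.2 ha
    show (prow syms k f v).getD (ns syms k a + 1) 0 = nv (f v (some a))
    unfold prow
    rw [List.getD_cons_succ, List.getD_eq_getElem _ _ (by rw [List.length_map]; exact h1),
      List.getElem_map]
    congr 3
    exact List.getElem_idxOf h1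

/-- codes of configurations -/
noncomputable def encC (M : Λ → TM2.Stmt Γ Λ σ) (c : TM2.Cfg Γ Λ σ) : MS :=
  ((match c.l with
    | none => []
    | some l => scode syms (M l)), nv c.var, encS syms c.stk)

/-- the list of the codes of all statements of the machine -/
noncomputable def pcode (M : Λ → TM2.Stmt Γ Λ σ) : List UCode :=
  List.ofFn fun i : Fin (Fintype.card Λ) => scode syms (M ((Fintype.equivFin Λ).symm i))

theorem pcode_getD (M : Λ → TM2.Stmt Γ Λ σ) (l : Λ) :
    (pcode syms M).getD (Fintype.equivFin Λ l).val [] = scode syms (M l) := by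
  unfold pcode
  have h : ((Fintype.equivFin Λ l) : ℕ) < (List.ofFn fun i : Fin (Fintype.card Λ) =>
      scode syms (M ((Fintype.equivFin Λ).symm i))).length := by
    rw [List.length_ofFn]; exact (Fintype.equivFin Λ l).isLt
  rw [List.getD_eq_getElem _ _ h, List.getElem_ofFn]
  simp only [Fin.eta]
  rw [Equiv.symm_apply_apply]

theorem sim_stmt (M : Λ → TM2.Stmt Γ Λ σ) : ∀ (q : TM2.Stmt Γ Λ σ) (_ : Good syms q) (tail : UCode)
    (v : σ) (S : ∀ k, List (Γ k)) (_ : Known syms S), ∃ j ≤ (scode syms q).length,
      (mstep (pcode syms M))^[j] (scode syms q ++ tail, nv v, encS syms S) =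
        encC syms M (TM2.stepAux q v S)
  | .push k f q, hq, tail, v, S, hS => by
    obtain ⟨j, hj, h⟩ := sim_stmt M q hq.2 tail v (Function.update S k (f v :: S k))
      (hS.update syms (by
        intro s hs
        rcases List.mem_cons.1 hs with rfl | hs
        · exact hq.1 v
        · exact hS k s hs))
    refine ⟨j + 1, by simp only [scode, List.length_cons]; omega, ?_⟩
    rw [Function.iterate_succ_apply]
    have e : mstep (pcode syms M) (scode syms (.push k f q) ++ tail, nv v, encS syms S) =
        (scode syms q ++ tail, nv v, encS syms (Function.update S k (f v :: S k))) := by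
      show mbody _ _ _ _ = _
      simp only [mbody, if_true]
      rw [vtab_getD, encS_getD, ← encS_update]
      rfl
    rw [e]
    exact h
  | .peek k f q, hq, tail, v, S, hS => by
    obtain ⟨j, hj, h⟩ := sim_stmt M q hq tail (f v (S k).head?) S hS
    refine ⟨j + 1, by simp only [scode, List.length_cons]; omega, ?_⟩
    rw [Function.iterate_succ_apply]
    have e : mstep (pcode syms M) (scode syms (.peek k f q) ++ tail, nv v, encS syms S) =
        (scode syms q ++ tail, nv (f v (S k).head?), encS syms S) := by
      show mbody _ _ _ _ = _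
      simp only [mbody, if_true, one_ne_zero, if_false]
      rw [vtab_getD, encS_getD, prow_getD syms k f v (S k) (hS k)]
      rfl
    rw [e]
    exact h
  | .pop k f q, hq, tail, v, S, hS => by
    obtain ⟨j, hj, h⟩ := sim_stmt M q hq tail (f v (S k).head?) (Function.update S k (S k).tail)
      (hS.update syms (fun s hs => hS k s (List.mem_of_mem_tail hs)))
    refine ⟨j + 1, by simp only [scode, List.length_cons]; omega, ?_⟩
    rw [Function.iterate_succ_apply]
    have e : mstep (pcode syms M) (scode syms (.pop k f q) ++ tail, nv v, encS syms S) =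
        (scode syms q ++ tail, nv (f v (S k).head?), encS syms (Function.update S k (S k).tail)) := by
      show mbody _ _ _ _ = _
      simp only [mbody, if_true, OfNat.ofNat_ne_zero, OfNat.ofNat_ne_one, if_false]
      rw [vtab_getD, encS_getD, prow_getD syms k f v (S k) (hS k), ← encS_update, List.map_tail]
      rfl
    rw [e]
    exact h
  | .load a q, hq, tail, v, S, hS => by
    obtain ⟨j, hj, h⟩ := sim_stmt M q hq tail (a v) S hS
    refine ⟨j + 1, by simp only [scode, List.length_cons]; omega, ?_⟩
    rw [Function.iterate_succ_apply]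
    have e : mstep (pcode syms M) (scode syms (.load a q) ++ tail, nv v, encS syms S) =
        (scode syms q ++ tail, nv (a v), encS syms S) := by
      show mbody _ _ _ _ = _
      simp only [mbody, if_true, OfNat.ofNat_ne_zero, OfNat.ofNat_ne_one, if_false]
      rw [if_neg (by norm_num), vtab_getD]
      rfl
    rw [e]
    exact h
  | .branch p q₁ q₂, hq, tail, v, S, hS => by
    cases hp : p v with
    | true =>
      obtain ⟨j, hj, h⟩ := sim_stmt M q₁ hq.1 (scode syms q₂ ++ tail) v S hS
      refine ⟨j + 1, by simp only [scode, List.length_cons, List.length_append]; omega, ?_⟩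
      rw [Function.iterate_succ_apply]
      have e : mstep (pcode syms M) (scode syms (.branch p q₁ q₂) ++ tail, nv v, encS syms S) =
          (scode syms q₁ ++ (scode syms q₂ ++ tail), nv v, encS syms S) := by
        show mbody _ _ _ _ = _
        simp only [mbody, if_true, OfNat.ofNat_ne_zero, OfNat.ofNat_ne_one, if_false]
        rw [if_neg (by norm_num), if_neg (by norm_num), vtab_getD, hp]
        simp [List.append_assoc]
      rw [e, h]
      show _ = encC syms M (cond (p v) (TM2.stepAux q₁ v S) (TM2.stepAux q₂ v S))
      rw [hp]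
      rfl
    | false =>
      obtain ⟨j, hj, h⟩ := sim_stmt M q₂ hq.2 tail v S hS
      refine ⟨j + 1, by simp only [scode, List.length_cons, List.length_append]; omega, ?_⟩
      rw [Function.iterate_succ_apply]
      have e : mstep (pcode syms M) (scode syms (.branch p q₁ q₂) ++ tail, nv v, encS syms S) =
          (scode syms q₂ ++ tail, nv v, encS syms S) := by
        show mbody _ _ _ _ = _
        simp only [mbody, if_true, OfNat.ofNat_ne_zero, OfNat.ofNat_ne_one, if_false]
        rw [if_neg (by norm_num), if_neg (by norm_num), vtab_getD, hp]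
        simp [List.append_assoc]
      rw [e, h]
      show _ = encC syms M (cond (p v) (TM2.stepAux q₁ v S) (TM2.stepAux q₂ v S))
      rw [hp]
      rfl
  | .goto l, hq, tail, v, S, hS => by
    refine ⟨1, by simp [scode], ?_⟩
    rw [Function.iterate_one]
    show mbody _ _ _ _ = _
    simp only [mbody, if_true, OfNat.ofNat_ne_zero, OfNat.ofNat_ne_one, if_false]
    rw [if_neg (by norm_num), if_neg (by norm_num), if_neg (by norm_num), vtab_getD]
    show (List.getD (pcode syms M) (Fintype.equivFin Λ (l v)).val [], nv v, encS syms S) = _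
    rw [pcode_getD]
    rfl
  | .halt, hq, tail, v, S, hS => by
    refine ⟨1, by simp [scode], ?_⟩
    rw [Function.iterate_one]
    show mbody _ _ _ _ = _
    simp only [mbody, if_true, OfNat.ofNat_ne_zero, OfNat.ofNat_ne_one, if_false]
    rw [if_neg (by norm_num), if_neg (by norm_num), if_neg (by norm_num), if_neg (by norm_num)]
    rfl

omit [Fintype K] [Fintype Λ] in
theorem exists_good_stmt : ∀ q : TM2.Stmt Γ Λ σ,
    ∃ s : ∀ k, List (Γ k), ∀ syms : ∀ k, List (Γ k), (∀ k, s k ⊆ syms k) → Good syms q
  | .push k f q => by
    obtain ⟨s, hs⟩ := exists_good_stmt q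
    refine ⟨Function.update s k (s k ++ (Finset.univ : Finset σ).toList.map f), ?_⟩
    intro syms hsy
    refine ⟨?_, hs syms ?_⟩
    · intro v
      apply hsy k
      rw [Function.update_self]
      exact List.mem_append_right _ (List.mem_map.2 ⟨v, Finset.mem_toList.2 (Finset.mem_univ v), rfl⟩)
    · intro k' a ha
      apply hsy k'
      by_cases hk : k' = k
      · subst hk
        rw [Function.update_self]
        exact List.mem_append_left _ ha
      · rw [Function.update_of_ne hk]
        exact ha
  | .peek k f q => exists_good_stmt q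
  | .pop k f q => exists_good_stmt q
  | .load a q => exists_good_stmt q
  | .branch p q₁ q₂ => by
    obtain ⟨s₁, h₁⟩ := exists_good_stmt q₁
    obtain ⟨s₂, h₂⟩ := exists_good_stmt q₂
    refine ⟨fun k => s₁ k ++ s₂ k, fun syms hsy => ⟨h₁ syms ?_, h₂ syms ?_⟩⟩
    · intro k a ha
      exact hsy k (List.mem_append_left _ ha)
    · intro k a ha
      exact hsy k (List.mem_append_right _ ha)
  | .goto l => ⟨fun _ => [], fun _ _ => trivial⟩
  | .halt => ⟨fun _ => [], fun _ _ => trivial⟩

omit [Fintype K] in
theorem exists_syms (M : Λ → TM2.Stmt Γ Λ σ) (k₀ : K) [Fintype (Γ k₀)] :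
    ∃ syms : ∀ k, List (Γ k), (∀ l, Good syms (M l)) ∧ ∀ s : Γ k₀, s ∈ syms k₀ := by
  choose s hs using fun l => exists_good_stmt (M l)
  let s' : ∀ k, List (Γ k) := fun k => (Finset.univ : Finset Λ).toList.flatMap fun l => s l k
  refine ⟨Function.update s' k₀ (s' k₀ ++ (Finset.univ : Finset (Γ k₀)).toList), ?_, ?_⟩
  · intro l
    apply hs l
    intro k a ha
    have ha' : a ∈ s' k := List.mem_flatMap.2 ⟨l, Finset.mem_toList.2 (Finset.mem_univ l), ha⟩
    by_cases hk : k = k₀
    · subst hk
      rw [Function.update_self]
      exact List.mem_append_left _ ha'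
    · rw [Function.update_of_ne hk]
      exact ha'
  · intro a
    rw [Function.update_self]
    exact List.mem_append_right _ (Finset.mem_toList.2 (Finset.mem_univ a))

theorem iterate_none {X : Type*} (f : X → Option X) : ∀ t : ℕ,
    (flip bind f)^[t] (none : Option X) = none
  | 0 => rfl
  | t + 1 => by
    rw [Function.iterate_succ_apply]
    exact iterate_none f t

theorem sim_steps (M : Λ → TM2.Stmt Γ Λ σ) (hM : ∀ l, Good syms (M l)) :
    ∃ B : ℕ, ∀ (t : ℕ) (c c' : TM2.Cfg Γ Λ σ), Known syms c.stk →
      (flip bind (TM2.step M))^[t] (some c) = some c' →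
      ∃ j ≤ t * B, (mstep (pcode syms M))^[j] (encC syms M c) = encC syms M c' ∧
        Known syms c'.stk := by
  refine ⟨(Finset.univ : Finset Λ).sup fun l => (scode syms (M l)).length, ?_⟩
  intro t
  induction t with
  | zero =>
    intro c c' hc h
    have h' : c = c' := Option.some.inj h
    subst h'
    exact ⟨0, by simp, rfl, hc⟩
  | succ t ih =>
    intro c c' hc h
    rw [Function.iterate_succ_apply] at h
    obtain ⟨l, v, S⟩ := c
    cases l with
    | none =>
      have : (flip bind (TM2.step M)) (some (⟨none, v, S⟩ : TM2.Cfg Γ Λ σ)) = none := rfl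
      rw [this, iterate_none] at h
      exact absurd h (by simp)
    | some l =>
      have e : (flip bind (TM2.step M)) (some (⟨some l, v, S⟩ : TM2.Cfg Γ Λ σ)) =
        some (TM2.stepAux (M l) v S) := rfl
      rw [e] at h
      obtain ⟨j, hj, h1, h2⟩ := ih _ _ (Known.stepAux syms (M l) (hM l) v S hc) h
      obtain ⟨i, hi, h3⟩ := sim_stmt syms M (M l) (hM l) [] v S hc
      refine ⟨j + i, ?_, ?_, h2⟩
      · have h4 : (scode syms (M l)).length ≤
            (Finset.univ : Finset Λ).sup fun l => (scode syms (M l)).length :=
          Finset.le_sup (f := fun l => (scode syms (M l)).length) (Finset.mem_univ l)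
        rw [Nat.succ_mul]
        exact Nat.add_le_add hj (hi.trans h4)
      · rw [Function.iterate_add_apply]
        have e2 : encC syms M ⟨some l, v, S⟩ = (scode syms (M l) ++ [], nv v, encS syms S) := by
          rw [List.append_nil]
          rfl
        rw [e2, h3, h1]

theorem mstep_halted (P : List UCode) (v : ℕ) (S : List (List ℕ)) : ∀ i : ℕ,
    (mstep P)^[i] ([], v, S) = ([], v, S)
  | 0 => rfl
  | i + 1 => by
    rw [Function.iterate_succ_apply]
    exact mstep_halted P v S i

end compile

/-- Every function computed by a `Turing.FinTM2` is computed by the universal function with a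
constant-factor overhead. -/
theorem U_correct {ι κ : Type} {ea : ι → List Bool} {eb : κ → List Bool} {f : ι → κ}
    (h : TM2ComputableInTime ea eb f) :
    ∃ (pr : Prog) (B : ℕ), ∀ i n, h.time (ea i).length * B ≤ n → U pr (ea i) n = eb (f i) := by
  letI := h.tm.kDecidableEq
  letI := h.tm.kFin
  letI := h.tm.ΛFin
  letI := h.tm.σFin
  letI := h.tm.Γk₀Fin
  obtain ⟨syms, hgood, hk0⟩ := exists_syms h.tm.m h.tm.k₀
  obtain ⟨B, hB⟩ := sim_steps syms h.tm.m hgood
  refine ⟨(pcode syms h.tm.m, (Fintype.equivFin h.tm.Λ h.tm.main).val, nv h.tm.initialState,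
    Fintype.card h.tm.K, nk h.tm.k₀, [ns syms h.tm.k₀ (h.inputAlphabet.invFun false),
      ns syms h.tm.k₀ (h.inputAlphabet.invFun true)], nk h.tm.k₁,
      (syms h.tm.k₁).map h.outputAlphabet), B, ?_⟩
  intro i n hn
  obtain ⟨⟨t, ht⟩, htm⟩ := h.outputsFun i
  change t ≤ h.time (ea i).length at htm
  set w := (ea i).map h.inputAlphabet.invFun with hw
  set o := (eb (f i)).map h.outputAlphabet.invFun with ho
  have hinit : (initList h.tm w).stk = Function.update (fun _ => []) h.tm.k₀ w := by
    funext k
    by_cases hk : k = h.tm.k₀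
    · subst hk
      rw [Function.update_self]
      simp [initList]
    · rw [Function.update_of_ne hk]
      simp [initList, hk]
  have hknown : Known syms (initList h.tm w).stk := by
    rw [hinit]
    refine Known.update syms ?_ (fun s _ => hk0 s)
    intro k s hs
    simp at hs
  obtain ⟨j, hj, h1, h2⟩ := hB t (initList h.tm w) (haltList h.tm o) hknown ht
  have hj' : j ≤ n := hj.trans ((Nat.mul_le_mul_right _ htm).trans hn)
  have hhalt : (haltList h.tm o).stk h.tm.k₁ = o := by
    simp [haltList]
  have hko : ∀ s ∈ o, s ∈ syms h.tm.k₁ := by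
    intro s hs
    apply h2 h.tm.k₁ s
    rw [hhalt]
    exact hs
  unfold U
  have hmini : mini (pcode syms h.tm.m, (Fintype.equivFin h.tm.Λ h.tm.main).val,
      nv h.tm.initialState,
      Fintype.card h.tm.K, nk h.tm.k₀, [ns syms h.tm.k₀ (h.inputAlphabet.invFun false),
      ns syms h.tm.k₀ (h.inputAlphabet.invFun true)], nk h.tm.k₁,
      (syms h.tm.k₁).map h.outputAlphabet) (ea i) = encC syms h.tm.m (initList h.tm w) := by
    show ((pcode syms h.tm.m).getD (Fintype.equivFin h.tm.Λ h.tm.main).val [],
      nv h.tm.initialState, upd (List.replicate (Fintype.card h.tm.K) []) (nk h.tm.k₀)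
      ((ea i).map fun b => [ns syms h.tm.k₀ (h.inputAlphabet.invFun false),
      ns syms h.tm.k₀ (h.inputAlphabet.invFun true)].getD b.toNat 0)) = _
    rw [pcode_getD]
    have e1 : (ea i).map (fun b => [ns syms h.tm.k₀ (h.inputAlphabet.invFun false),
      ns syms h.tm.k₀ (h.inputAlphabet.invFun true)].getD b.toNat 0) =
        w.map (ns syms h.tm.k₀) := by
      rw [hw, List.map_map]
      apply List.map_congr_left
      intro b _
      cases b <;> rfl
    have e2 : (List.replicate (Fintype.card h.tm.K) [] : List (List ℕ)) =
        encS syms (fun _ => []) := by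
      unfold encS
      simp [List.ofFn_const]
    rw [e1, e2, encS_update, ← hinit]
    rfl
  have hfinal : (mstep (pcode syms h.tm.m))^[n] (encC syms h.tm.m (initList h.tm w)) =
      encC syms h.tm.m (haltList h.tm o) := by
    rw [show n = (n - j) + j by omega, Function.iterate_add_apply, h1]
    exact mstep_halted _ _ _ _
  rw [hmini]
  show mout _ ((mstep (pcode syms h.tm.m))^[n] (encC syms h.tm.m (initList h.tm w))) = _
  rw [hfinal]
  show ((encS syms (haltList h.tm o).stk).getD (nk h.tm.k₁) []).map
    (fun j => ((syms h.tm.k₁).map h.outputAlphabet).getD j false) = _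
  rw [encS_getD, hhalt, List.map_map]
  have e3 : o.map ((fun j => ((syms h.tm.k₁).map h.outputAlphabet).getD j false) ∘
      ns syms h.tm.k₁) = o.map h.outputAlphabet := by
    apply List.map_congr_left
    intro s hs
    have hs' := hko s hs
    letI := Classical.decEq (h.tm.Γ h.tm.k₁)
    have h4 : (syms h.tm.k₁).idxOf s < (syms h.tm.k₁).length := List.idxOf_lt_length_iff.2 hs'
    show ((syms h.tm.k₁).map h.outputAlphabet).getD (ns syms h.tm.k₁ s) false = _
    have h5 : ns syms h.tm.k₁ s = (syms h.tm.k₁).idxOf s := rfl
    rw [h5, List.getD_eq_getElem _ _ (by rw [List.length_map]; exact h4), List.getElem_map]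
    congr 1
    exact List.getElem_idxOf h4
  rw [e3, ho, List.map_map]
  have e4 : (h.outputAlphabet : h.tm.Γ h.tm.k₁ → Bool) ∘ h.outputAlphabet.invFun = id := by
    funext b
    exact h.outputAlphabet.apply_symm_apply b
  rw [e4, List.map_id]

end Pool.Agent.PolyTime
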