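import Pool.Agent.Lib.PolyTime.Words
import Pool.Agent.Lib.PolyTime.Extra

/-!
# A universal simulator for `Turing.TM2` machines, as a polynomial-time function

`U pr w n` runs the machine with code `pr` on the input word `w` for `n` small steps and returns the
contents of the output stack. Every function computed by a `Turing.FinTM2` is computed by `U` with a
constant-factor overhead, and `U` itself is a `PolyFn`.
-/

namespace Pool.Agent.PolyTime

open Turing

section lists

variable {α β γ : Type} [Enc α] [Enc β] [Enc γ]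

theorem PolyFn.take {l : γ → List α} {n : γ → ℕ} (hl : PolyFn l) (hn : PolyFn n) :
    PolyFn (fun c => (l c).take (n c)) := by
  refine (PolyFn.reverse (PolyFn.drop (PolyFn.sub (PolyFn.length hl) hn)
    (PolyFn.reverse hl))).of_eq ?_
  intro c
  rw [List.drop_reverse, List.reverse_reverse]
  by_cases h : n c ≤ (l c).length
  · rw [show (l c).length - ((l c).length - n c) = n c by omega]
  · rw [List.take_of_length_le (by omega), List.take_of_length_le (by omega)]

end lists

/-- headers of instructions -/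
abbrev Hdr : Type := ℕ × ℕ × List (List ℕ)

/-- codes of statements -/
abbrev UCode : Type := List Hdr

/-- machine states: code to be executed, internal state, stacks -/
abbrev MS : Type := UCode × ℕ × List (List ℕ)

/-- replace an entry of a list -/
def upd (l : List (List ℕ)) (k : ℕ) (a : List ℕ) : List (List ℕ) := l.take k ++ a :: l.drop (k + 1)

/-- the first entry plus one, or zero -/
def hd1 (l : List ℕ) : ℕ := l.headD 0 + (if l.isEmpty then 0 else 1)

/-- one small step -/
def mbody (P : List UCode) (s : MS) (h : Hdr) (rest : UCode) : MS :=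
  if h.1 = 0 then (rest, s.2.1, upd s.2.2 h.2.1
    (((h.2.2.getD s.2.1 []).headD 0) :: s.2.2.getD h.2.1 []))
  else if h.1 = 1 then (rest, (h.2.2.getD s.2.1 []).getD (hd1 (s.2.2.getD h.2.1 [])) 0, s.2.2)
  else if h.1 = 2 then (rest, (h.2.2.getD s.2.1 []).getD (hd1 (s.2.2.getD h.2.1 [])) 0,
    upd s.2.2 h.2.1 (s.2.2.getD h.2.1 []).tail)
  else if h.1 = 3 then (rest, (h.2.2.getD s.2.1 []).headD 0, s.2.2)
  else if h.1 = 4 then (if (h.2.2.getD s.2.1 []).headD 0 = 1 then rest else rest.drop h.2.1, s.2.1,
    s.2.2)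
  else if h.1 = 5 then (P.getD ((h.2.2.getD s.2.1 []).headD 0) [], s.2.1, s.2.2)
  else ([], s.2.1, s.2.2)

/-- one small step -/
def mstep (P : List UCode) (s : MS) : MS :=
  match s.1 with
  | [] => s
  | h :: rest => mbody P s h rest

theorem PolyFn.upd {γ : Type} [Enc γ] {l : γ → List (List ℕ)} {k : γ → ℕ} {a : γ → List ℕ}
    (hl : PolyFn l) (hk : PolyFn k) (ha : PolyFn a) : PolyFn (fun c => upd (l c) (k c) (a c)) :=
  PolyFn.append (PolyFn.take hl hk) (PolyFn.cons ha (PolyFn.drop (PolyFn.succ hk) hl))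

theorem PolyFn.hd1 {γ : Type} [Enc γ] {l : γ → List ℕ} (hl : PolyFn l) :
    PolyFn (fun c => hd1 (l c)) := by
  refine PolyFn.add (PolyFn.headD hl (PolyFn.const 0)) ?_
  refine ((PolyFn.isEmpty hl).cond (PolyFn.const 0) (PolyFn.const 1)).of_eq ?_
  intro c
  cases (l c).isEmpty <;> simp

theorem poly_mstep : PolyFn (fun p : List UCode × MS => mstep p.1 p.2) := by
  refine PolyFn.listCase (l := fun p : List UCode × MS => p.2.1) (f := fun p => p.2)
    (g := fun p h rest => mbody p.1 p.2 h rest) (PolyFn.fst.comp PolyFn.snd) PolyFn.snd ?_ ?_ ?_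
  · have hP : PolyFn (fun q : (List UCode × MS) × Hdr × List Hdr => q.1.1) :=
      PolyFn.fst.comp PolyFn.fst
    have hv : PolyFn (fun q : (List UCode × MS) × Hdr × List Hdr => q.1.2.2.1) :=
      PolyFn.fst.comp (PolyFn.snd.comp (PolyFn.snd.comp PolyFn.fst))
    have hs : PolyFn (fun q : (List UCode × MS) × Hdr × List Hdr => q.1.2.2.2) :=
      PolyFn.snd.comp (PolyFn.snd.comp (PolyFn.snd.comp PolyFn.fst))
    have hop : PolyFn (fun q : (List UCode × MS) × Hdr × List Hdr => q.2.1.1) :=
      PolyFn.fst.comp (PolyFn.fst.comp PolyFn.snd)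
    have hk : PolyFn (fun q : (List UCode × MS) × Hdr × List Hdr => q.2.1.2.1) :=
      PolyFn.fst.comp (PolyFn.snd.comp (PolyFn.fst.comp PolyFn.snd))
    have htbl : PolyFn (fun q : (List UCode × MS) × Hdr × List Hdr => q.2.1.2.2) :=
      PolyFn.snd.comp (PolyFn.snd.comp (PolyFn.fst.comp PolyFn.snd))
    have hrest : PolyFn (fun q : (List UCode × MS) × Hdr × List Hdr => q.2.2) :=
      PolyFn.snd.comp PolyFn.snd
    have hrow := PolyFn.getD htbl hv (PolyFn.const ([] : List ℕ))
    have hst := PolyFn.getD hs hk (PolyFn.const ([] : List ℕ))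
    have hhd := PolyFn.headD hrow (PolyFn.const 0)
    have hlook := PolyFn.getD hrow (PolyFn.hd1 hst) (PolyFn.const 0)
    unfold mbody
    refine PolyFn.ite (PolyFn.decide_eq_nat hop (PolyFn.const 0)) ?_ ?_
    · exact hrest.pair (hv.pair (PolyFn.upd hs hk (PolyFn.cons hhd hst)))
    refine PolyFn.ite (PolyFn.decide_eq_nat hop (PolyFn.const 1)) ?_ ?_
    · exact hrest.pair (hlook.pair hs)
    refine PolyFn.ite (PolyFn.decide_eq_nat hop (PolyFn.const 2)) ?_ ?_
    · exact hrest.pair (hlook.pair (PolyFn.upd hs hk (PolyFn.tail hst)))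
    refine PolyFn.ite (PolyFn.decide_eq_nat hop (PolyFn.const 3)) ?_ ?_
    · exact hrest.pair (hhd.pair hs)
    refine PolyFn.ite (PolyFn.decide_eq_nat hop (PolyFn.const 4)) ?_ ?_
    · exact (PolyFn.ite (PolyFn.decide_eq_nat hhd (PolyFn.const 1)) hrest
        (PolyFn.drop hk hrest)).pair (hv.pair hs)
    refine PolyFn.ite (PolyFn.decide_eq_nat hop (PolyFn.const 5)) ?_ ?_
    · exact (PolyFn.getD hP hhd (PolyFn.const [])).pair (hv.pair hs)
    · exact (PolyFn.const []).pair (hv.pair hs)
  · rintro ⟨P, c, v, S⟩ h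
    change c = [] at h
    subst h
    rfl
  · rintro ⟨P, c, v, S⟩ a t h
    change c = a :: t at h
    subst h
    rfl

/-! ### Sizes -/

theorem size_getD_le {α : Type} [Enc α] (l : List α) (k : ℕ) (d : α) :
    size (l.getD k d) ≤ max (size l) (size d) := by
  rcases Nat.lt_or_ge k l.length with h | h
  · rw [List.getD_eq_getElem _ _ h]
    exact (size_le_of_mem (List.getElem_mem h)).trans (le_max_left _ _)
  · rw [List.getD_eq_default _ _ h]
    exact le_max_right _ _

theorem size_headD_le {α : Type} [Enc α] (l : List α) (d : α) :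
    size (l.headD d) ≤ max (size l) (size d) := by
  cases l with
  | nil => exact le_max_right _ _
  | cons a t => exact (size_le_of_mem (List.mem_cons_self)).trans (le_max_left _ _)

theorem take_drop_size (l : List (List ℕ)) (k : ℕ) :
    size (l.take k) + size (l.drop k) = size l + 1 := by
  have := size_append (l.take k) (l.drop k)
  rw [List.take_append_drop] at this
  omega

theorem size_upd_push (l : List (List ℕ)) (k x : ℕ) :
    size (upd l k (x :: l.getD k [])) ≤ size l + size x + 3 := by
  have h1 := size_append (l.take k) ((x :: l.getD k []) :: l.drop (k + 1))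
  have h2 := take_drop_size l k
  unfold upd
  rw [size_list_cons, size_list_cons] at h1
  rcases Nat.lt_or_ge k l.length with h | h
  · rw [List.getD_eq_getElem _ _ h] at h1 ⊢
    rw [List.drop_eq_getElem_cons h, size_list_cons] at h2
    omega
  · rw [List.getD_eq_default _ _ h] at h1 ⊢
    rw [List.drop_eq_nil_of_le h] at h2
    rw [List.drop_eq_nil_of_le (show l.length ≤ k + 1 by omega)] at h1 ⊢
    simp only [size_list_nil] at h1 h2
    omega

theorem size_upd_tail (l : List (List ℕ)) (k : ℕ) :
    size (upd l k (l.getD k []).tail) ≤ size l + 3 := by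
  have h1 := size_append (l.take k) ((l.getD k []).tail :: l.drop (k + 1))
  have h2 := take_drop_size l k
  unfold upd
  rw [size_list_cons] at h1
  rcases Nat.lt_or_ge k l.length with h | h
  · rw [List.getD_eq_getElem _ _ h] at h1 ⊢
    rw [List.drop_eq_getElem_cons h, size_list_cons] at h2
    have h3 : size (l[k].tail) ≤ size l[k] := by
      cases l[k] with
      | nil => simp
      | cons a t => simp only [List.tail_cons, size_list_cons]; omega
    omega
  · rw [List.getD_eq_default _ _ h] at h1 ⊢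
    rw [List.drop_eq_nil_of_le h] at h2
    rw [List.drop_eq_nil_of_le (show l.length ≤ k + 1 by omega)] at h1 ⊢
    simp only [size_list_nil, List.tail_nil] at h1 h2 ⊢
    omega

theorem size_row_le {C : ℕ} {h : Hdr} {rest : UCode} (hC : size (h :: rest) ≤ C) (hC3 : 3 ≤ C)
    (v : ℕ) : size (h.2.2.getD v []) ≤ C := by
  obtain ⟨a, b, c⟩ := h
  have h1 := size_getD_le c v []
  simp only [size_list_cons, size_prod, size_list_nil] at hC h1 ⊢
  refine h1.trans (max_le ?_ ?_)
  · omega
  · omega

theorem size_row_headD_le {C : ℕ} {h : Hdr} {rest : UCode} (hC : size (h :: rest) ≤ C)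
    (hC3 : 3 ≤ C) (v : ℕ) : size ((h.2.2.getD v []).headD 0) ≤ C :=
  (size_headD_le _ _).trans (max_le (size_row_le hC hC3 v) (by simp; omega))

theorem size_row_getD_le {C : ℕ} {h : Hdr} {rest : UCode} (hC : size (h :: rest) ≤ C)
    (hC3 : 3 ≤ C) (v j : ℕ) : size ((h.2.2.getD v []).getD j 0) ≤ C :=
  (size_getD_le _ _ _).trans (max_le (size_row_le hC hC3 v) (by simp; omega))

/-- The growth of the state in one step. -/
theorem mstep_size {P : List UCode} {C : ℕ} (hP : size P ≤ C) (hC3 : 3 ≤ C) (s : MS)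
    (h1 : size s.1 ≤ C) (h2 : size s.2.1 ≤ C) :
    size (mstep P s).1 ≤ C ∧ size (mstep P s).2.1 ≤ C ∧
      size (mstep P s).2.2 ≤ size s.2.2 + C + 3 := by
  obtain ⟨c, v, S⟩ := s
  change size c ≤ C at h1
  change size v ≤ C at h2
  unfold mstep
  cases c with
  | nil => exact ⟨h1, h2, by show size S ≤ size S + C + 3; omega⟩
  | cons h rest =>
    have hr : size rest ≤ C := by
      simp only [size_list_cons] at h1; omega
    show size (mbody P (h :: rest, v, S) h rest).1 ≤ C ∧ size (mbody P (h :: rest, v, S) h rest).2.1 ≤ C ∧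
      size (mbody P (h :: rest, v, S) h rest).2.2 ≤ size S + C + 3
    unfold mbody
    split_ifs
    · refine ⟨hr, h2, ?_⟩
      have := size_upd_push S h.2.1 ((h.2.2.getD v []).headD 0)
      have h3 := size_row_headD_le h1 hC3 v
      show size (upd S h.2.1 _) ≤ _
      refine this.trans ?_
      omega
    · exact ⟨hr, size_row_getD_le h1 hC3 v _, by show size S ≤ _; omega⟩
    · refine ⟨hr, size_row_getD_le h1 hC3 v _, ?_⟩
      have := size_upd_tail S h.2.1
      show size (upd S h.2.1 _) ≤ _
      refine this.trans ?_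
      omega
    · exact ⟨hr, size_row_headD_le h1 hC3 v, by show size S ≤ _; omega⟩
    · exact ⟨hr, h2, by show size S ≤ _; omega⟩
    · exact ⟨(size_drop_le _ _).trans hr, h2, by show size S ≤ _; omega⟩
    · refine ⟨(size_getD_le _ _ _).trans (max_le hP ?_), h2, by show size S ≤ _; omega⟩
      rw [size_list_nil]; omega
    · refine ⟨?_, h2, by show size S ≤ _; omega⟩
      show size ([] : UCode) ≤ C
      rw [size_list_nil]; omega

theorem mstep_iter_size {P : List UCode} {C : ℕ} (hP : size P ≤ C) (hC3 : 3 ≤ C) (s : MS)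
    (h1 : size s.1 ≤ C) (h2 : size s.2.1 ≤ C) : ∀ i : ℕ,
    size ((mstep P)^[i] s).1 ≤ C ∧ size ((mstep P)^[i] s).2.1 ≤ C ∧
      size ((mstep P)^[i] s).2.2 ≤ size s.2.2 + i * (C + 3)
  | 0 => ⟨h1, h2, by simp⟩
  | i + 1 => by
    obtain ⟨ha, hb, hc⟩ := mstep_iter_size hP hC3 s h1 h2 i
    rw [Function.iterate_succ_apply']
    obtain ⟨ha', hb', hc'⟩ := mstep_size hP hC3 _ ha hb
    refine ⟨ha', hb', hc'.trans ?_⟩
    rw [Nat.succ_mul]
    omega

/-- Machine codes: statement codes, index of the main label, initial state, number of stacks,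
index of the input stack, input table, index of the output stack, output table. -/
abbrev Prog : Type := List UCode × ℕ × ℕ × ℕ × ℕ × List ℕ × ℕ × List Bool

/-- the initial state -/
def mini (pr : Prog) (w : List Bool) : MS :=
  (pr.1.getD pr.2.1 [], pr.2.2.1, upd (List.replicate pr.2.2.2.1 []) pr.2.2.2.2.1
    (w.map fun b => pr.2.2.2.2.2.1.getD b.toNat 0))

/-- the contents of the output stack -/
def mout (pr : Prog) (s : MS) : List Bool :=
  (s.2.2.getD pr.2.2.2.2.2.2.1 []).map fun j => pr.2.2.2.2.2.2.2.getD j false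

/-- The universal function. -/
def U (pr : Prog) (w : List Bool) (n : ℕ) : List Bool := mout pr ((mstep pr.1)^[n] (mini pr w))

theorem poly_mini : PolyFn (fun c : Prog × List Bool × ℕ => mini c.1 c.2.1) := by
  have h1 : PolyFn (fun c : Prog × List Bool × ℕ => c.1.1) := PolyFn.fst.comp PolyFn.fst
  have h2 : PolyFn (fun c : Prog × List Bool × ℕ => c.1.2.1) :=
    PolyFn.fst.comp (PolyFn.snd.comp PolyFn.fst)
  have h3' : PolyFn (fun c : Prog × List Bool × ℕ => c.1.2.2) :=
    PolyFn.snd.comp (PolyFn.snd.comp PolyFn.fst)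
  have h3 : PolyFn (fun c : Prog × List Bool × ℕ => c.1.2.2.1) := PolyFn.fst.comp h3'
  have h4 : PolyFn (fun c : Prog × List Bool × ℕ => c.1.2.2.2.1) :=
    PolyFn.fst.comp (PolyFn.snd.comp h3')
  have h5' : PolyFn (fun c : Prog × List Bool × ℕ => c.1.2.2.2.2) :=
    PolyFn.snd.comp (PolyFn.snd.comp h3')
  have h5 : PolyFn (fun c : Prog × List Bool × ℕ => c.1.2.2.2.2.1) := PolyFn.fst.comp h5'
  have h6 : PolyFn (fun c : Prog × List Bool × ℕ => c.1.2.2.2.2.2.1) :=
    PolyFn.fst.comp (PolyFn.snd.comp h5')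
  have hw : PolyFn (fun c : Prog × List Bool × ℕ => c.2.1) := PolyFn.fst.comp PolyFn.snd
  refine (PolyFn.getD h1 h2 (PolyFn.const [])).pair (h3.pair (PolyFn.upd
    (PolyFn.replicate h4 (PolyFn.const [])) h5 ?_))
  refine PolyFn.map (f := fun (c : Prog × List Bool × ℕ) (b : Bool) =>
    c.1.2.2.2.2.2.1.getD b.toNat 0) ?_ hw
  exact PolyFn.getD (h6.comp PolyFn.fst) (PolyFn.toNat PolyFn.snd) (PolyFn.const 0)

theorem poly_U : PolyFn (fun c : Prog × List Bool × ℕ => U c.1 c.2.1 c.2.2) := by
  have h1 : PolyFn (fun c : Prog × List Bool × ℕ => c.1.1) := PolyFn.fst.comp PolyFn.fst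
  have hn : PolyFn (fun c : Prog × List Bool × ℕ => c.2.2) := PolyFn.snd.comp PolyFn.snd
  obtain ⟨q, hq, hqsz⟩ := (poly_mini).size_le
  have hit : PolyFn (fun c : Prog × List Bool × ℕ => (mstep c.1.1)^[c.2.2] (mini c.1 c.2.1)) := by
    refine PolyFn.iterate (γ := Prog × List Bool × ℕ) (α := MS)
      (step := fun c s => mstep c.1.1 s) (init := fun c => mini c.1 c.2.1)
      (cnt := fun c => c.2.2) ?_ poly_mini hn ?_
    · exact poly_mstep.comp ((h1.comp PolyFn.fst).pair PolyFn.snd)
    · refine ⟨fun k => (k + q k + 3) + (k + q k + 3) + (q k + k * ((k + q k + 3) + 3)) + 2, ?_, ?_⟩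
      · have hk : PB fun k => k + q k + 3 := (PB.id.add hq).add (PB.const 3)
        exact ((hk.add hk).add (hq.add (PB.id.mul (hk.add (PB.const 3))))).add (PB.const 2)
      · intro c i hi
        have hC : size c.1.1 ≤ size c + q (size c) + 3 := by
          obtain ⟨⟨P, r⟩, w⟩ := c
          simp only [size_prod]
          omega
        have hm := hqsz c
        have hm1 : size (mini c.1 c.2.1).1 ≤ size c + q (size c) + 3 := by
          have : size (mini c.1 c.2.1) = size (mini c.1 c.2.1).1 + size (mini c.1 c.2.1).2 + 1 :=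
            size_prod _ _
          omega
        have hm2 : size (mini c.1 c.2.1).2.1 ≤ size c + q (size c) + 3 := by
          have : size (mini c.1 c.2.1) = size (mini c.1 c.2.1).1 + size (mini c.1 c.2.1).2 + 1 :=
            size_prod _ _
          have h' : size (mini c.1 c.2.1).2 = size (mini c.1 c.2.1).2.1 +
            size (mini c.1 c.2.1).2.2 + 1 := size_prod _ _
          omega
        have hm3 : size (mini c.1 c.2.1).2.2 ≤ q (size c) := by
          have : size (mini c.1 c.2.1) = size (mini c.1 c.2.1).1 + size (mini c.1 c.2.1).2 + 1 :=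
            size_prod _ _
          have h' : size (mini c.1 c.2.1).2 = size (mini c.1 c.2.1).2.1 +
            size (mini c.1 c.2.1).2.2 + 1 := size_prod _ _
          omega
        obtain ⟨ha, hb, hcc⟩ := mstep_iter_size hC (by omega) (mini c.1 c.2.1) hm1 hm2 i
        have e1 : ∀ s : MS, size s = size s.1 + size s.2.1 + size s.2.2 + 2 := by
          rintro ⟨a, b, c⟩
          simp only [size_prod]
          omega
        show size ((mstep c.1.1)^[i] (mini c.1 c.2.1)) ≤ _
        rw [e1]
        have hi' : i ≤ size c := by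
          refine hi.trans ?_
          obtain ⟨pr, w, n⟩ := c
          simp only [size_prod, size_nat]
          omega
        have h4 : i * (size c + q (size c) + 3 + 3) ≤ size c * (size c + q (size c) + 3 + 3) :=
          Nat.mul_le_mul_right _ hi'
        beta_reduce
        omega
  have h7 : PolyFn (fun c : Prog × List Bool × ℕ => c.1.2.2.2.2.2.2) :=
    PolyFn.snd.comp (PolyFn.snd.comp (PolyFn.snd.comp (PolyFn.snd.comp (PolyFn.snd.comp
      (PolyFn.snd.comp PolyFn.fst)))))
  have h8 : PolyFn (fun c : Prog × List Bool × ℕ => c.1.2.2.2.2.2.2.2) := PolyFn.snd.comp h7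
  refine PolyFn.map (f := fun (c : Prog × List Bool × ℕ) (j : ℕ) =>
    c.1.2.2.2.2.2.2.2.getD j false) ?_ ?_
  · exact PolyFn.getD (h8.comp PolyFn.fst) PolyFn.snd (PolyFn.const false)
  · exact PolyFn.getD (PolyFn.snd.comp (PolyFn.snd.comp hit)) (PolyFn.fst.comp h7)
      (PolyFn.const [])

end Pool.Agent.PolyTime
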