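import Pool.Agent.Lib.PolyTime.Compile

/-!
# Decoding bit strings, polynomial evaluation
-/

namespace Pool.Agent.PolyTime

section codec

variable {α β γ : Type} [Enc α] [Enc β] [Enc γ]

/-- A tree seen as a list of trees. -/
def spine : T → List T
  | .nil => []
  | .node l r => l :: spine r

theorem enc_spine : ∀ t : T, enc (spine t) = t
  | .nil => rfl
  | .node l r => by
    show T.node l (enc (spine r)) = _
    rw [enc_spine r]

theorem poly_spine : PolyFn spine :=
  PolyFn.of_enc (PolyFn.id (α := T)) (fun t => t) (fun _ => rfl) (fun t => (enc_spine t).symm)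

theorem poly_node {f g : γ → T} (hf : PolyFn f) (hg : PolyFn g) :
    PolyFn (fun c => T.node (f c) (g c)) :=
  PolyFn.of_enc (hf.pair hg) (fun c => c) (fun _ => rfl) (fun _ => rfl)

/-- Types with a polynomial-time decoder. -/
class Dec (α : Type) [Enc α] where
  dec : T → α
  dec_enc : ∀ a, dec (enc a) = a
  poly : PolyFn dec

export Dec (dec dec_enc)

instance : Dec T := ⟨fun t => t, fun _ => rfl, PolyFn.id⟩

instance : Dec Bool := ⟨isNode, fun b => by cases b <;> rfl, poly_isNode⟩

theorem spine_enc_nat : ∀ n : ℕ, (spine (enc n)).length = n
  | 0 => rfl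
  | n + 1 => by
    show (spine (enc n)).length + 1 = n + 1
    rw [spine_enc_nat n]

instance : Dec ℕ := ⟨fun t => (spine t).length, spine_enc_nat, PolyFn.length poly_spine⟩

theorem left_poly {f : γ → T} (hf : PolyFn f) : PolyFn (fun c => left (f c)) := poly_left.comp hf

theorem right_poly {f : γ → T} (hf : PolyFn f) : PolyFn (fun c => right (f c)) :=
  poly_right.comp hf

instance [Dec α] [Dec β] : Dec (α × β) where
  dec t := (dec (left t), dec (right t))
  dec_enc p := by
    show (dec (enc p.1), dec (enc p.2)) = p
    rw [dec_enc, dec_enc]
  poly := (Dec.poly.comp poly_left).pair (Dec.poly.comp poly_right)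

theorem spine_enc_list [Dec α] : ∀ l : List α, (spine (enc l)).map dec = l
  | [] => rfl
  | a :: l => by
    show dec (enc a) :: (spine (enc l)).map dec = a :: l
    rw [dec_enc, spine_enc_list l]

instance [Dec α] : Dec (List α) where
  dec t := (spine t).map dec
  dec_enc := spine_enc_list
  poly := PolyFn.map (f := fun (_ : T) (t : T) => (dec t : α)) (Dec.poly.comp PolyFn.snd) poly_spine

/-- one step of the parser -/
def stepT (st : List T) (b : Bool) : List T :=
  cond b (if 2 ≤ st.length then T.node (st.headD .nil) (st.tail.headD .nil) :: st.tail.tail else st)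
    (.nil :: st)

/-- parse the code of a tree -/
def decodeT (l : List Bool) : T := (l.reverse.foldl stepT []).headD .nil

theorem foldl_stepT_code : ∀ (t : T) (st : List T), (code t).reverse.foldl stepT st = t :: st
  | .nil, st => rfl
  | .node l r, st => by
    show (true :: (code l ++ code r)).reverse.foldl stepT st = _
    rw [List.reverse_cons, List.foldl_append, List.reverse_append, List.foldl_append,
      foldl_stepT_code r, foldl_stepT_code l]
    rfl

theorem decodeT_code (t : T) : decodeT (code t) = t := by
  unfold decodeT
  rw [foldl_stepT_code]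
  rfl

theorem size_stepT (st : List T) (b : Bool) : size (stepT st b) ≤ size st + 2 := by
  unfold stepT
  cases b with
  | false => simp only [cond_false, size_list_cons]; simp [size_T]; omega
  | true =>
    simp only [cond_true]
    split_ifs with h
    · match st, h with
      | a :: b :: st', _ =>
        simp only [List.headD_cons, List.tail_cons, size_list_cons, size_T, tsize_node]
        omega
    · omega

theorem size_foldl_stepT (l : List Bool) : ∀ st : List T,
    size (l.foldl stepT st) ≤ size st + 2 * l.length := by
  induction l with
  | nil => intro st; simp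
  | cons b l ih =>
    intro st
    rw [List.foldl_cons, List.length_cons]
    have h1 := ih (stepT st b)
    have h2 := size_stepT st b
    omega

theorem poly_decodeT : PolyFn decodeT := by
  have hst : PolyFn (fun p : List Bool × List T × Bool => stepT p.2.1 p.2.2) := by
    have h1 : PolyFn (fun p : List Bool × List T × Bool => p.2.1) := PolyFn.fst.comp PolyFn.snd
    have h2 : PolyFn (fun p : List Bool × List T × Bool => p.2.2) := PolyFn.snd.comp PolyFn.snd
    unfold stepT
    refine PolyFn.cond h2 ?_ (PolyFn.cons (PolyFn.const T.nil) h1)
    refine PolyFn.ite (PolyFn.decide_le (PolyFn.const 2) (PolyFn.length h1)) ?_ h1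
    exact PolyFn.cons (poly_node (PolyFn.headD h1 (PolyFn.const T.nil))
      (PolyFn.headD (PolyFn.tail h1) (PolyFn.const T.nil))) (PolyFn.tail (PolyFn.tail h1))
  refine PolyFn.headD ?_ (PolyFn.const T.nil)
  refine PolyFn.foldl (γ := List Bool) (step := fun _ => stepT) (init := fun _ => [])
    (l := fun l => l.reverse) hst (PolyFn.const []) (PolyFn.reverse PolyFn.id) ?_
  refine ⟨fun n => 1 + 2 * n, (PB.const 1).add ((PB.const 2).mul PB.id), ?_⟩
  intro l i hi
  have h1 := size_foldl_stepT ((l.reverse).take i) ([] : List T)
  have h2 := length_le_size l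
  have h3 : ((l.reverse).take i).length ≤ l.length := by
    rw [List.length_take, List.length_reverse]; omega
  simp only [size_list_nil] at h1
  beta_reduce
  omega

/-- The bits of an element of an encoded type. -/
def bits (a : α) : List Bool := code (enc a)

theorem bits_length (a : α) : (bits a).length = size a := rfl

/-- Decode bits. -/
def unbits (α : Type) [Enc α] [Dec α] (l : List Bool) : α := dec (decodeT l)

theorem unbits_bits [Dec α] (a : α) : unbits α (bits a) = a := by
  unfold unbits bits
  rw [decodeT_code, dec_enc]

theorem poly_unbits [Dec α] : PolyFn (unbits α) := Dec.poly.comp poly_decodeT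

end codec

/-- Polynomial evaluation is computable in polynomial time (unary numbers). -/
theorem poly_eval {γ : Type} [Enc γ] (p : Polynomial ℕ) {n : γ → ℕ} (hn : PolyFn n) :
    PolyFn (fun c => p.eval (n c)) := by
  induction p using Polynomial.induction_on' with
  | add p q hp hq =>
    exact (PolyFn.add hp hq).of_eq fun c => by rw [Polynomial.eval_add]
  | monomial k a =>
    exact (PolyFn.mul (PolyFn.const a) (PolyFn.pow hn k)).of_eq fun c => by
      rw [Polynomial.eval_monomial]

end Pool.Agent.PolyTime
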