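import Pool.Agent.Lib.PolyTime.Words

/-!
# Polynomial-time functions with bit-string values as `Turing.TM2ComputableInPolyTime`
-/

namespace Pool.Agent.PolyTime

open Turing Function

/-- body of the unpacking loop -/
def unpBody : Cmd :=
  .cas 0 .skip (.pop 0) (.seq (.pop 0) (.cas 0 .skip (.seq (.pop 0) (.push 1 false))
    (.seq (.pop 0) (.seq (.pop 0) (.seq (.pop 0) (.push 1 true))))))

/-- Replace the code of a list of bits on stack `0` by the list itself. -/
def unpack : Cmd := .seq (.loop 0 unpBody) (mv 1 0)

theorem unpack_bdd : unpack.Bdd 1 := by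
  refine ⟨?_, mv_bdd (by omega) (by omega)⟩
  simp [unpBody, Cmd.Bdd]

theorem unpLoop_run : ∀ (l : List Bool) (s : St), s 0 = code (enc l) →
    Run (.loop 0 unpBody) s (update (update s 0 []) 1 (l.reverse ++ s 1)) (12 * l.length + 5)
  | [], s, hs => by
    have h1 : Run unpBody s (update s 0 []) 2 := by
      refine ((Run.casF (l := []) (by rw [hs]; rfl) (Run.pop s 0)).congr rfl ?_)
      rw [hs]; rfl
    have h2 : Run (.loop 0 unpBody) (update s 0 []) (update s 0 []) 1 := Run.loopD (by simp)
    refine ((Run.loopS (by rw [hs]; simp [code]) h1 h2).congr rfl ?_).mono (by omega)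
    funext i
    by_cases hi : i = 1
    · subst hi; simp
    · rw [Function.update_of_ne hi]
  | b :: l, s, hs => by
    have hs' : s 0 = true :: (code (enc b) ++ code (enc l)) := hs
    cases b with
    | false =>
      have e0 : s 0 = true :: false :: code (enc l) := hs'
      have h1 : Run unpBody s (update (update s 0 (code (enc l))) 1 (false :: s 1)) 5 := by
        have r1 : Run (.pop 0) s (update s 0 (false :: code (enc l))) 1 :=
          (Run.pop s 0).congr rfl (by rw [e0]; rfl)
        have r2 : Run (.pop 0) (update s 0 (false :: code (enc l))) (update s 0 (code (enc l))) 1 :=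
          (Run.pop _ 0).congr rfl (by simp)
        have r3 : Run (.push 1 false) (update s 0 (code (enc l)))
            (update (update s 0 (code (enc l))) 1 (false :: s 1)) 1 :=
          (Run.push _ 1 false).congr rfl (by simp)
        exact (Run.casT e0 (r1.seq (Run.casF (l := code (enc l)) (by simp) (r2.seq r3)))).mono
          (by omega)
      have h2 := unpLoop_run l (update (update s 0 (code (enc l))) 1 (false :: s 1)) (by simp)
      refine ((Run.loopS (by rw [e0]; simp) h1 h2).congr rfl ?_).mono (by
        simp only [List.length_cons]; omega)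
      funext i
      by_cases hi : i = 1
      · subst hi; simp
      · rw [Function.update_of_ne hi, Function.update_of_ne hi]
        by_cases h0 : i = 0
        · subst h0; simp
        · simp [Function.update_of_ne hi, Function.update_of_ne h0]
    | true =>
      have e0 : s 0 = true :: true :: false :: false :: code (enc l) := hs'
      have h1 : Run unpBody s (update (update s 0 (code (enc l))) 1 (true :: s 1)) 7 := by
        have r1 : Run (.pop 0) s (update s 0 (true :: false :: false :: code (enc l))) 1 :=
          (Run.pop s 0).congr rfl (by rw [e0]; rfl)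
        have r2 : Run (.pop 0) (update s 0 (true :: false :: false :: code (enc l)))
            (update s 0 (false :: false :: code (enc l))) 1 :=
          (Run.pop _ 0).congr rfl (by simp)
        have r2' : Run (.pop 0) (update s 0 (false :: false :: code (enc l)))
            (update s 0 (false :: code (enc l))) 1 :=
          (Run.pop _ 0).congr rfl (by simp)
        have r2'' : Run (.pop 0) (update s 0 (false :: code (enc l)))
            (update s 0 (code (enc l))) 1 :=
          (Run.pop _ 0).congr rfl (by simp)
        have r3 : Run (.push 1 true) (update s 0 (code (enc l)))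
            (update (update s 0 (code (enc l))) 1 (true :: s 1)) 1 :=
          (Run.push _ 1 true).congr rfl (by simp)
        exact (Run.casT e0 (r1.seq (Run.casT (l := false :: false :: code (enc l)) (by simp)
          (r2.seq (r2'.seq (r2''.seq r3)))))).mono (by omega)
      have h2 := unpLoop_run l (update (update s 0 (code (enc l))) 1 (true :: s 1)) (by simp)
      refine ((Run.loopS (by rw [e0]; simp) h1 h2).congr rfl ?_).mono (by
        simp only [List.length_cons]; omega)
      funext i
      by_cases hi : i = 1
      · subst hi; simp
      · rw [Function.update_of_ne hi, Function.update_of_ne hi]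
        by_cases h0 : i = 0
        · subst h0; simp
        · simp [Function.update_of_ne hi, Function.update_of_ne h0]

theorem unpack_run (l : List Bool) (s : St) (hs : s 0 = code (enc l)) (h1 : s 1 = []) :
    Run unpack s (update s 0 l) (16 * l.length + 6) := by
  have ha := unpLoop_run l s hs
  have hb := mv_run (a := 1) (b := 0) (by omega) (l.reverse ++ s 1)
    (update (update s 0 []) 1 (l.reverse ++ s 1)) (by simp)
  refine ((ha.seq hb).congr rfl ?_).mono ?_
  · funext i
    by_cases h0 : i = 0
    · subst h0; simp [h1]
    · rw [Function.update_of_ne h0, Function.update_of_ne h0]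
      by_cases hi : i = 1
      · subst hi; simp [h1]
      · simp [Function.update_of_ne hi, Function.update_of_ne h0]
  · simp [h1]; omega

variable {A : Type} {n : ℕ}

/-- Statements of the complete machine with list output. -/
def topCodeL (A : Type) [Enc A] (n : ℕ) (c : Cmd) :
    Fin 3 ⊕ (A ⊕ Lab c) → TM2.Stmt (Gam A n) (Fin 3 ⊕ (A ⊕ Lab c)) (Mem A)
  | Sum.inl 0 => TM2.Stmt.push (idx n 0) (fun _ => false) (TM2.Stmt.goto fun _ => Sum.inl 1)
  | Sum.inl 1 => TM2.Stmt.pop none (fun v x => (x, v.2)) (TM2.Stmt.goto fun v =>
      match v.1 with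
      | none => Sum.inr (Sum.inr (entry c))
      | some a => Sum.inr (Sum.inl a))
  | Sum.inl 2 => TM2.Stmt.load (fun _ => (none, none)) TM2.Stmt.halt
  | Sum.inr (Sum.inl a) => pushAll A n (true :: code (enc a)) (TM2.Stmt.goto fun _ => Sum.inl 1)
  | Sum.inr (Sum.inr l) => codeOf A n c (fun l => Sum.inr (Sum.inr l)) (Sum.inl 2) l

theorem read_loopL [Enc A] (c : Cmd) : ∀ (l : List A) (acc : List A) (v : Mem A),
    ∃ v' : Mem A, (flip bind (TM2.step (topCodeL A n c)))^[2 * l.length + 1]
      (some ⟨some (Sum.inl 1), v, mkS A n l (code (enc acc))⟩) =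
      some ⟨some (Sum.inr (Sum.inr (entry c))), v', mkS A n [] (code (enc (l.reverse ++ acc)))⟩
  | [], acc, v => by
    refine ⟨(none, v.2), ?_⟩
    rw [show 2 * ([] : List A).length + 1 = 1 from rfl, iter_one]
    simp only [TM2.step, topCodeL, TM2.stepAux]
    rw [show (mkS A n ([] : List A) (code (enc acc)) none) = ([] : List A) from rfl]
    rw [show ([] : List A).tail = [] from rfl, mkS_upd_none]
    rfl
  | a :: l, acc, v => by
    obtain ⟨v', h⟩ := read_loopL c l (a :: acc) (some a, v.2)
    refine ⟨v', ?_⟩
    rw [show 2 * (a :: l).length + 1 = (2 * l.length + 1) + 1 + 1 by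
      simp only [List.length_cons]; ring]
    have e : (code (enc (a :: acc))) = (true :: code (enc a)) ++ code (enc acc) := by
      simp [code]
    rw [show (a :: l).reverse ++ acc = l.reverse ++ a :: acc by simp]
    refine iter_head _ (b := ⟨some (Sum.inr (Sum.inl a)), (some a, v.2),
      mkS A n l (code (enc acc))⟩) ?_ (iter_head _ ?_ h)
    · simp only [TM2.step, topCodeL, TM2.stepAux]
      rw [show (mkS A n (a :: l) (code (enc acc)) none) = (a :: l : List A) from rfl]
      rw [show (a :: l : List A).tail = l from rfl, mkS_upd_none]
      rfl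
    · simp only [TM2.step, topCodeL]
      rw [stepAux_pushAll, e]
      rfl

/-- The complete machine. -/
noncomputable def machineL (A : Type) [Enc A] [Fintype A] (n : ℕ) (c : Cmd) : FinTM2 where
  K := Option (Fin (n + 1))
  k₀ := none
  k₁ := idx n 0
  Γ := Gam A n
  Λ := Fin 3 ⊕ (A ⊕ Lab c)
  main := Sum.inl 0
  σ := Mem A
  initialState := (none, none)
  Γk₀Fin := inferInstanceAs (Fintype A)
  m := topCodeL A n c

theorem machineL_runs [Enc A] [Fintype A] {c : Cmd} (hc : c.Bdd n) {l : List A} {o : List Bool}
    {t : ℕ} {s' : St}
    (h : Ex c (fun i => if i = 0 then code (enc l.reverse) else []) s' t)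
    (h0 : s' 0 = o) (hs' : ∀ i, 0 < i → i ≤ n → s' i = []) :
    (flip bind (machineL A n c).step)^[2 * l.length + t + 3]
      (some (initList (machineL A n c) l)) = some (haltList (machineL A n c) o) := by
  have hinit : initList (machineL A n c) l = ⟨some (Sum.inl 0), (none, none), mkS A n l []⟩ := by
    unfold initList
    congr 1
    funext k
    cases k with
    | none => rfl
    | some j =>
      rw [dif_neg (by simp [machineL])]
      show ([] : List Bool) = if j.val = 0 then [] else []
      split_ifs <;> rfl
  rw [hinit]
  have h1 : (machineL A n c).step ⟨some (Sum.inl 0), (none, none), mkS A n l []⟩ =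
      some ⟨some (Sum.inl 1), (none, none), mkS A n l (code (enc ([] : List A)))⟩ := by
    show TM2.step (topCodeL A n c) _ = _
    simp only [TM2.step, topCodeL, TM2.stepAux]
    rw [mkS_idx, mkS_upd_idx]
    rfl
  obtain ⟨v', h2⟩ := read_loopL (n := n) c l [] (none, none)
  rw [List.append_nil] at h2
  have hag : Agree n (fun i => if i = 0 then code (enc l.reverse) else [])
      (mkS A n [] (code (enc l.reverse))) := by
    refine ⟨rfl, fun i hi => ?_⟩
    by_cases hi0 : i = 0
    · subst hi0; rw [mkS_idx]; simp
    · have : (Fin.ofNat (n + 1) i).val ≠ 0 := by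
        simp only [Fin.val_ofNat]
        rw [Nat.mod_eq_of_lt (by omega)]
        exact hi0
      simp only [if_neg hi0]
      exact mkS_some_pos _ _ this
  obtain ⟨v'', S', hS', h3⟩ := sim (M := topCodeL A n c) h (fun l => Sum.inr (Sum.inr l))
    (Sum.inl 2) (fun l => rfl) hc v' _ hag
  have hSeq : S' = mkS A n [] o := by
    funext k
    cases k with
    | none => exact hS'.1
    | some j =>
      have hj : Fin.ofNat (n + 1) j.val = j := by simp
      have h5 : ∀ j' : Fin (n + 1), j' = j → S' (some j') = s' j.val →
        S' (some j) = s' j.val := by rintro _ rfl h; exact h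
      refine (h5 _ hj (hS'.2 j.val (by have := j.isLt; omega))).trans ?_
      by_cases hj0 : j.val = 0
      · rw [mkS_some_zero _ _ hj0, hj0, h0]
      · rw [hs' _ (Nat.pos_of_ne_zero hj0) (by have := j.isLt; omega)]
        exact (mkS_some_pos _ _ hj0).symm
  have h4 : (machineL A n c).step ⟨some (Sum.inl 2), v'', S'⟩ =
      some (haltList (machineL A n c) o) := by
    have hh : haltList (machineL A n c) o = ⟨none, (none, none), mkS A n [] o⟩ := by
      unfold haltList
      congr 1
      funext k
      cases k with
      | none =>
        rw [dif_neg (by simp [machineL])]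
        rfl
      | some j =>
        by_cases hj0 : j = 0
        · subst hj0
          rfl
        · rw [dif_neg]
          · exact (mkS_some_pos _ _ (fun h => hj0 (Fin.ext h))).symm
          · intro h'
            exact hj0 (Option.some.inj h')
    rw [hh, hSeq]
    rfl
  rw [show 2 * l.length + t + 3 = ((2 * l.length + 1) + (t + 1)) + 1 by ring]
  refine iter_head _ h1 (iter_add _ h2 (iter_add _ h3 ?_))
  exact h4

/-- A polynomial-time function of the input word with bit-string values gives a polynomial-time
machine. -/
theorem PolyFn.toTM2List [Enc A] [Fintype A] {F : List A → List Bool} (hF : PolyFn F)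
    {ι κ : Type} (ea : ι → List A) (eb : κ → List Bool) (f : ι → κ)
    (h : ∀ i, F (ea i) = eb (f i)) :
    Nonempty (TM2ComputableInPolyTime ea eb f) := by
  have hF' : PolyFn (fun l : List A => F l.reverse) := hF.comp (PolyFn.reverse PolyFn.id)
  obtain ⟨c, m, g, hc, hgPB, H⟩ := hF'
  obtain ⟨hg, p, hp⟩ := hgPB
  obtain ⟨g', hgPB', hsz⟩ := (hF.comp (PolyFn.reverse (PolyFn.id (α := List A)))).size_le
  obtain ⟨hg', p', hp'⟩ := hgPB'
  obtain ⟨K, hK⟩ := size_list_le_of_fintype (A := A)
  refine ⟨{
    tm := machineL A (m + 1) (.seq c unpack)
    inputAlphabet := Equiv.refl A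
    outputAlphabet := Equiv.refl Bool
    time := 2 * Polynomial.X + 3 + (p.comp (1 + (Polynomial.C K) * Polynomial.X) +
      (16 * p'.comp (1 + (Polynomial.C K) * Polynomial.X) + 6))
    outputsFun := fun i => ?_ }⟩
  have hrun := H (ea i).reverse (fun j => if j = 0 then code (enc (ea i).reverse) else [])
    (by simp) (fun j hj _ => if_neg hj.ne')
  have hFi : F (ea i).reverse.reverse = eb (f i) := by rw [List.reverse_reverse, h i]
  beta_reduce at hrun
  rw [hFi] at hrun
  have hun := unpack_run (eb (f i)) (update (fun j => if j = 0 then code (enc (ea i).reverse) else [])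
    0 (code (enc (eb (f i))))) (by simp) (by simp)
  have htot := hrun.seq hun
  choose t ht ht' using htot
  have hm := machineL_runs (n := m + 1) (c := .seq c unpack) ⟨hc.mono (by omega),
    unpack_bdd.mono (by omega)⟩ (l := ea i) (o := eb (f i)) (t := t) ht' (by simp)
    (fun j hj hj' => by
      rw [Function.update_of_ne hj.ne', Function.update_of_ne hj.ne']; exact if_neg hj.ne')
  refine ⟨⟨2 * (ea i).length + t + 3, ?_⟩, ?_⟩
  · have e1 : List.map (Equiv.refl A).invFun (ea i) = ea i := by
      show List.map _root_.id (ea i) = ea i
      rw [List.map_id]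
    have e2 : List.map (Equiv.refl Bool).invFun (eb (f i)) = eb (f i) := by
      show List.map _root_.id (eb (f i)) = eb (f i)
      rw [List.map_id]
    have e3 : initList (machineL A (m + 1) (.seq c unpack)) (List.map (Equiv.refl A).invFun (ea i)) =
        initList (machineL A (m + 1) (.seq c unpack)) (ea i) :=
      congrArg (initList (machineL A (m + 1) (.seq c unpack))) e1
    have e4 : haltList (machineL A (m + 1) (.seq c unpack))
        (List.map (Equiv.refl Bool).invFun (eb (f i))) =
        haltList (machineL A (m + 1) (.seq c unpack)) (eb (f i)) :=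
      congrArg (haltList (machineL A (m + 1) (.seq c unpack))) e2
    exact ((congrArg (fun x => (flip bind (machineL A (m + 1) (.seq c unpack)).step)^[2 *
      (ea i).length + t + 3] (Option.some x)) e3).trans hm).trans (congrArg Option.some e4).symm
  · have h1 : size (ea i).reverse ≤ 1 + K * (ea i).length := by
      simpa using hK (ea i).reverse
    have h2 : g (size (ea i).reverse) ≤ p.eval (1 + K * (ea i).length) :=
      (hg h1).trans (hp _)
    have h3 : (eb (f i)).length ≤ p'.eval (1 + K * (ea i).length) := by
      have := hsz (ea i).reverse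
      rw [hFi] at this
      exact (length_le_size _).trans (this.trans ((hg' h1).trans (hp' _)))
    simp only [Polynomial.eval_add, Polynomial.eval_mul, Polynomial.eval_X, Polynomial.eval_comp,
      Polynomial.eval_C, Polynomial.eval_one, Polynomial.eval_ofNat]
    omega

end Pool.Agent.PolyTime
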