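import Mathlib

/-!
# Polynomially bounded functions
-/

namespace Pool.Agent.PolyTime

theorem poly_mono (p : Polynomial ℕ) {a b : ℕ} (h : a ≤ b) : p.eval a ≤ p.eval b := by
  rw [Polynomial.eval_eq_sum, Polynomial.eval_eq_sum]
  unfold Polynomial.sum
  exact Finset.sum_le_sum fun i _ => Nat.mul_le_mul_left _ (Nat.pow_le_pow_left h i)

/-- Monotone functions bounded by a polynomial. -/
def PB (g : ℕ → ℕ) : Prop := Monotone g ∧ ∃ p : Polynomial ℕ, ∀ n, g n ≤ p.eval n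

theorem PB.mono {g : ℕ → ℕ} (h : PB g) {a b : ℕ} (hab : a ≤ b) : g a ≤ g b := h.1 hab

theorem PB.id : PB fun n => n := ⟨fun _ _ h => h, Polynomial.X, fun n => by simp⟩

theorem PB.const (k : ℕ) : PB fun _ => k :=
  ⟨fun _ _ _ => le_rfl, Polynomial.C k, fun n => by simp⟩

theorem PB.add {f g : ℕ → ℕ} (hf : PB f) (hg : PB g) : PB fun n => f n + g n := by
  obtain ⟨hf, p, hp⟩ := hf
  obtain ⟨hg, q, hq⟩ := hg
  exact ⟨fun a b h => Nat.add_le_add (hf h) (hg h), p + q, fun n => by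
    simpa using Nat.add_le_add (hp n) (hq n)⟩

theorem PB.mul {f g : ℕ → ℕ} (hf : PB f) (hg : PB g) : PB fun n => f n * g n := by
  obtain ⟨hf, p, hp⟩ := hf
  obtain ⟨hg, q, hq⟩ := hg
  exact ⟨fun a b h => Nat.mul_le_mul (hf h) (hg h), p * q, fun n => by
    simpa using Nat.mul_le_mul (hp n) (hq n)⟩

theorem PB.comp {f g : ℕ → ℕ} (hf : PB f) (hg : PB g) : PB fun n => f (g n) := by
  obtain ⟨hf, p, hp⟩ := hf
  obtain ⟨hg, q, hq⟩ := hg
  exact ⟨fun a b h => hf (hg h), p.comp q, fun n => by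
    rw [Polynomial.eval_comp]
    exact (hp _).trans (poly_mono p (hq n))⟩

theorem PB.pow {f : ℕ → ℕ} (hf : PB f) (k : ℕ) : PB fun n => f n ^ k := by
  induction k with
  | zero => simpa using PB.const 1
  | succ k ih => simpa [pow_succ] using ih.mul hf

theorem PB.max {f g : ℕ → ℕ} (hf : PB f) (hg : PB g) : PB fun n => Max.max (f n) (g n) := by
  refine ⟨fun a b h => max_le_max (hf.1 h) (hg.1 h), ?_⟩
  obtain ⟨p, hp⟩ := (hf.add hg).2
  exact ⟨p, fun n => le_trans (max_le (Nat.le_add_right _ _) (Nat.le_add_left _ _)) (hp n)⟩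

end Pool.Agent.PolyTime
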