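import Pool.Agent.Lib.PolyTime.Progs

/-!
# Closure properties of polynomial-time functions
-/

namespace Pool.Agent.PolyTime

open Function (update)

variable {α β γ δ : Type} [Enc α] [Enc β] [Enc γ] [Enc δ]

theorem PolyFn.id : PolyFn (fun a : α => a) :=
  ⟨.skip, 0, fun _ => 1, trivial, PB.const 1, fun a s hs _ =>
    (Run.skip s).congr rfl (by rw [← hs, Function.update_eq_self])⟩

theorem PolyFn.comp {f : β → γ} {g : α → β} (hf : PolyFn f) (hg : PolyFn g) :
    PolyFn (fun a => f (g a)) := by
  obtain ⟨g', hg', hsz⟩ := hg.size_le
  obtain ⟨c1, m1, g1, hb1, hg1, H1⟩ := hg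
  obtain ⟨c2, m2, g2, hb2, hg2, H2⟩ := hf
  refine ⟨.seq c1 c2, max m1 m2, fun n => g1 n + g2 (g' n),
    ⟨hb1.mono (le_max_left _ _), hb2.mono (le_max_right _ _)⟩, hg1.add (hg2.comp hg'), ?_⟩
  intro a s hs hs'
  have h1 := H1 a s hs (fun i hi hi' => hs' i hi (hi'.trans (le_max_left _ _)))
  have h2 := H2 (g a) (update s 0 (code (enc (g a)))) (by simp) (fun i hi hi' => by
    rw [Function.update_of_ne hi.ne']; exact hs' i hi (hi'.trans (le_max_right _ _)))
  refine ((h1.seq h2).congr rfl (by simp)).mono ?_
  exact Nat.add_le_add le_rfl (hg2.mono (hsz a))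

/-- Push a list of bits. -/
def pushes (k : ℕ) : List Bool → Cmd
  | [] => .skip
  | b :: l => .seq (pushes k l) (.push k b)

theorem pushes_bdd {k n : ℕ} (h : k ≤ n) : ∀ l, (pushes k l).Bdd n
  | [] => trivial
  | _ :: l => ⟨pushes_bdd h l, h⟩

theorem pushes_run (k : ℕ) : ∀ (l : List Bool) (s : St),
    Run (pushes k l) s (update s k (l ++ s k)) (l.length + 1)
  | [], s => (Run.skip s).congr rfl (by simp)
  | b :: l, s => by
    refine (((pushes_run k l s).seq (Run.push _ k b)).congr rfl ?_).mono (by
      simp only [List.length_cons]; omega)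
    simp

theorem PolyFn.const (b : β) : PolyFn (fun _ : α => b) := by
  refine ⟨.seq (clr 0) (pushes 0 (code (enc b))), 0,
    fun n => 2 * n + 1 + (size b + 1), ⟨clr_bdd le_rfl, pushes_bdd le_rfl _⟩,
    (((PB.const 2).mul PB.id).add (PB.const 1)).add (PB.const _), fun a s hs _ => ?_⟩
  refine (((clr_run _ s hs).seq (pushes_run 0 (code (enc b)) _)).congr rfl ?_).mono ?_
  · simp
  · simp [size, tsize]

/-- Left subtree. -/
def left : T → T
  | .nil => .nil
  | .node l _ => l

/-- Right subtree. -/
def right : T → T
  | .nil => .nil
  | .node _ r => r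

theorem poly_left : PolyFn left := by
  refine ⟨.cas 0 .skip .skip (.seq (.pop 0) (.seq (.push 2 true) (.seq parse
    (.seq (clr 0) (mv 1 0))))), 2, fun n => 11 * n + 10, ?_,
    ((PB.const 11).mul PB.id).add (PB.const 10), ?_⟩
  · refine ⟨by omega, trivial, trivial, ⟨by simp [Cmd.Bdd], by simp [Cmd.Bdd], parse_bdd,
      clr_bdd (by omega), mv_bdd (by omega) (by omega)⟩⟩
  intro a s hs hs'
  have hs1 : s 1 = [] := hs' 1 (by omega) (by omega)
  have hs2 : s 2 = [] := hs' 2 (by omega) (by omega)
  cases a with
  | nil =>
    refine ((Run.casF (l := []) (by rw [hs]; rfl) (Run.skip s)).congr rfl ?_).mono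
      (show 1 + 1 ≤ 11 * 1 + 10 by omega)
    change s 0 = code (.nil) at hs
    change s = update s 0 (code .nil)
    rw [← hs, Function.update_eq_self]
  | node l r =>
    change s 0 = true :: (code l ++ code r) at hs
    change Run _ s (update s 0 (code l)) _
    have e0 : s = st3 s (true :: (code l ++ code r)) [] [] := by
      conv_lhs => rw [← st3_self s, hs, hs1, hs2]
    rw [show update s 0 (code l) = st3 s (code l) [] [] by
      rw [← st3_upd0 s (true :: (code l ++ code r)), ← e0]]
    rw [show Run (.cas 0 .skip .skip (.seq (.pop 0) (.seq (.push 2 true) (.seq parse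
      (.seq (clr 0) (mv 1 0)))))) s = Run (.cas 0 .skip .skip (.seq (.pop 0)
      (.seq (.push 2 true) (.seq parse (.seq (clr 0) (mv 1 0))))))
      (st3 s (true :: (code l ++ code r)) [] []) by rw [← e0]]
    have hp := parse_run l s (code r) []
    have h1 : Run (.pop 0) (st3 s (true :: (code l ++ code r)) [] [])
        (st3 s (code l ++ code r) [] []) 1 :=
      (Run.pop _ 0).congr rfl (by simp [st3_upd0])
    have h2 : Run (.push 2 true) (st3 s (code l ++ code r) [] [])
        (st3 s (code l ++ code r) [] [true]) 1 :=
      (Run.push _ 2 true).congr rfl (by simp [st3_upd2])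
    have h4 : Run (clr 0) (st3 s (code r) ((code l).reverse ++ []) [])
        (st3 s [] ((code l).reverse ++ []) []) (2 * (code r).length + 1) :=
      (clr_run (code r) _ (by simp)).congr rfl (by simp [st3_upd0])
    have h5 : Run (mv 1 0) (st3 s [] ((code l).reverse ++ []) []) (st3 s (code l) [] [])
        (4 * (code l).length + 1) := by
      refine ((mv_run (by omega) _ _ rfl).congr rfl ?_).mono ?_
      · simp [st3_upd0, st3_upd1]
      · simp
    refine (Run.casT (st3_zero _ _ _ _) (h1.seq (h2.seq (hp.seq (h4.seq h5))))).mono ?_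
    have e1 : (code r).length = tsize r := rfl
    have e2 : (code l).length = tsize l := rfl
    rw [e1, e2]
    have e3 : size (T.node l r) = tsize l + tsize r + 1 := by simp [size_T]
    rw [e3]
    show _ ≤ 11 * (tsize l + tsize r + 1) + 10
    omega

theorem poly_right : PolyFn right := by
  refine ⟨.cas 0 .skip .skip (.seq (.pop 0) (.seq (.push 2 true) (.seq parse
    (clr 1)))), 2, fun n => 11 * n + 10, ?_,
    ((PB.const 11).mul PB.id).add (PB.const 10), ?_⟩
  · refine ⟨by omega, trivial, trivial, ⟨by simp [Cmd.Bdd], by simp [Cmd.Bdd], parse_bdd,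
      clr_bdd (by omega)⟩⟩
  intro a s hs hs'
  have hs1 : s 1 = [] := hs' 1 (by omega) (by omega)
  have hs2 : s 2 = [] := hs' 2 (by omega) (by omega)
  cases a with
  | nil =>
    refine ((Run.casF (l := []) (by rw [hs]; rfl) (Run.skip s)).congr rfl ?_).mono
      (show 1 + 1 ≤ 11 * 1 + 10 by omega)
    change s 0 = code (.nil) at hs
    change s = update s 0 (code .nil)
    rw [← hs, Function.update_eq_self]
  | node l r =>
    change s 0 = true :: (code l ++ code r) at hs
    change Run _ s (update s 0 (code r)) _
    have e0 : s = st3 s (true :: (code l ++ code r)) [] [] := by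
      conv_lhs => rw [← st3_self s, hs, hs1, hs2]
    rw [show update s 0 (code r) = st3 s (code r) [] [] by
      rw [← st3_upd0 s (true :: (code l ++ code r)), ← e0]]
    rw [show Run (.cas 0 .skip .skip (.seq (.pop 0) (.seq (.push 2 true) (.seq parse
      (clr 1))))) s = Run (.cas 0 .skip .skip (.seq (.pop 0)
      (.seq (.push 2 true) (.seq parse (clr 1)))))
      (st3 s (true :: (code l ++ code r)) [] []) by rw [← e0]]
    have hp := parse_run l s (code r) []
    have h1 : Run (.pop 0) (st3 s (true :: (code l ++ code r)) [] [])
        (st3 s (code l ++ code r) [] []) 1 :=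
      (Run.pop _ 0).congr rfl (by simp [st3_upd0])
    have h2 : Run (.push 2 true) (st3 s (code l ++ code r) [] [])
        (st3 s (code l ++ code r) [] [true]) 1 :=
      (Run.push _ 2 true).congr rfl (by simp [st3_upd2])
    have h4 : Run (clr 1) (st3 s (code r) ((code l).reverse ++ []) [])
        (st3 s (code r) [] []) (2 * (code l).length + 1) := by
      refine ((clr_run _ _ rfl).congr rfl ?_).mono ?_
      · simp [st3_upd1]
      · simp
    refine (Run.casT (st3_zero _ _ _ _) (h1.seq (h2.seq (hp.seq h4)))).mono ?_
    have e2 : (code l).length = tsize l := rfl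
    rw [e2]
    have e3 : size (T.node l r) = tsize l + tsize r + 1 := by simp [size_T]
    rw [e3]
    show _ ≤ 11 * (tsize l + tsize r + 1) + 10
    omega

/-- Copy stack `0` to stack `M` using the temporary stack `M + 1`. -/
def dup (M : ℕ) : Cmd := .seq (mv 0 (M + 1)) (mv2 (M + 1) 0 M)

theorem dup_bdd (M : ℕ) : (dup M).Bdd (M + 2) :=
  ⟨mv_bdd (by omega) (by omega), mv2_bdd (by omega) (by omega) (by omega)⟩

theorem dup_run {M : ℕ} (hM : 0 < M) (s : St) (h1 : s M = []) (h2 : s (M + 1) = []) :
    Run (dup M) s (update s M (s 0)) (9 * (s 0).length + 2) := by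
  have ha := mv_run (a := 0) (b := M + 1) (by omega) (s 0) s rfl
  have hb := mv2_run (a := M + 1) (b := 0) (c := M) (by omega) (by omega) (by omega)
    ((s 0).reverse ++ s (M + 1))
    (update (update s 0 []) (M + 1) ((s 0).reverse ++ s (M + 1))) (by simp)
  refine ((ha.seq hb).congr rfl ?_).mono ?_
  · funext i
    by_cases hi : i = M
    · rw [hi]
      simp [h2, Function.update_of_ne (show M ≠ 0 by omega), h1]
    · rw [Function.update_of_ne hi, Function.update_of_ne hi]
      by_cases h0 : i = 0
      · subst h0; simp [h2]
      · rw [Function.update_of_ne h0]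
        by_cases hM1 : i = M + 1
        · subst hM1; simp [h2]
        · simp [Function.update_of_ne hM1, Function.update_of_ne h0]
  · simp [h2]; omega

/-- Move stack `a` to stack `b` preserving the order, using the temporary stack `t`. -/
def mvo (a b t : ℕ) : Cmd := .seq (mv a t) (mv t b)

theorem mvo_bdd {a b t n : ℕ} (ha : a ≤ n) (hb : b ≤ n) (ht : t ≤ n) : (mvo a b t).Bdd n :=
  ⟨mv_bdd ha ht, mv_bdd ht hb⟩

theorem mvo_run {a b t : ℕ} (hab : a ≠ b) (hat : a ≠ t) (hbt : b ≠ t) (s : St) (hb : s b = [])
    (ht : s t = []) :
    Run (mvo a b t) s (update (update s a []) b (s a)) (8 * (s a).length + 2) := by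
  have h1 := mv_run hat (s a) s rfl
  have h2 := mv_run (a := t) (b := b) hbt.symm ((s a).reverse ++ s t)
    (update (update s a []) t ((s a).reverse ++ s t)) (by simp)
  refine ((h1.seq h2).congr rfl ?_).mono ?_
  · funext i
    by_cases hi : i = b
    · subst hi
      simp [ht, Function.update_of_ne hbt, Function.update_of_ne hab.symm, hb]
    · rw [Function.update_of_ne hi, Function.update_of_ne hi]
      by_cases h0 : i = t
      · subst h0
        rw [Function.update_self, Function.update_of_ne hat.symm, ht]
      · rw [Function.update_of_ne h0, Function.update_of_ne h0]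
  · simp [ht]; omega

theorem PolyFn.pair {f : α → β} {g : α → γ} (hf : PolyFn f) (hg : PolyFn g) :
    PolyFn (fun a => (f a, g a)) := by
  obtain ⟨f', hf', hfsz⟩ := hf.size_le
  obtain ⟨g', hg', hgsz⟩ := hg.size_le
  obtain ⟨c1, m1, g1, hb1, hg1, H1⟩ := hf
  obtain ⟨c2, m2, g2, hb2, hg2, H2⟩ := hg
  obtain ⟨M, hM1, hM2, hM0⟩ : ∃ M, m1 < M ∧ m2 < M ∧ 0 < M :=
    ⟨max m1 m2 + 1, by omega, by omega, by omega⟩
  refine ⟨.seq (dup M) (.seq c1 (.seq (mv 0 (M + 1)) (.seq (mvo M 0 (M + 2)) (.seq c2
    (.seq (mv (M + 1) 0) (.push 0 true)))))), M + 2,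
    fun n => (9 * n + 2) + (g1 n + ((4 * f' n + 1) + ((8 * n + 2) + (g2 n + ((4 * f' n + 1) + 1))))),
    ?_, ?_, ?_⟩
  · exact ⟨dup_bdd M, hb1.mono (by omega), mv_bdd (by omega) (by omega),
      mvo_bdd (by omega) (by omega) (by omega), hb2.mono (by omega),
      mv_bdd (by omega) (by omega), by simp [Cmd.Bdd]⟩
  · exact (((PB.const 9).mul PB.id).add (PB.const 2)).add (hg1.add ((((PB.const 4).mul hf').add
      (PB.const 1)).add ((((PB.const 8).mul PB.id).add (PB.const 2)).add (hg2.add
      ((((PB.const 4).mul hf').add (PB.const 1)).add (PB.const 1))))))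
  intro a s hs hs'
  have hsM : s M = [] := hs' M (by omega) (by omega)
  have hsM1 : s (M + 1) = [] := hs' (M + 1) (by omega) (by omega)
  have hsM2 : s (M + 2) = [] := hs' (M + 2) (by omega) (by omega)
  -- duplicate
  have r1 := dup_run hM0 s hsM hsM1
  rw [hs] at r1
  -- first function
  have r2 := H1 a (update s M (code (enc a))) (by rw [Function.update_of_ne (by omega), hs])
    (fun i hi hi' => by rw [Function.update_of_ne (by omega)]; exact hs' i hi (by omega))
  -- save the result
  have r3 := mv_run (a := 0) (b := M + 1) (by omega) (code (enc (f a)))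
    (update (update s M (code (enc a))) 0 (code (enc (f a)))) (by simp)
  have e3 : update (update (update (update s M (code (enc a))) 0 (code (enc (f a)))) 0 []) (M + 1)
      ((code (enc (f a))).reverse ++ update (update s M (code (enc a))) 0 (code (enc (f a))) (M + 1))
      = update (update (update s M (code (enc a))) 0 []) (M + 1) (code (enc (f a))).reverse := by
    rw [Function.update_idem, Function.update_of_ne (show M + 1 ≠ 0 by omega),
      Function.update_of_ne (show M + 1 ≠ M by omega), hsM1, List.append_nil]
  rw [e3] at r3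
  -- restore the input
  have r4 := mvo_run (a := M) (b := 0) (t := M + 2) (by omega) (by omega) (by omega)
    (update (update (update s M (code (enc a))) 0 []) (M + 1) (code (enc (f a))).reverse)
    (by rw [Function.update_of_ne (by omega), Function.update_self])
    (by rw [Function.update_of_ne (by omega), Function.update_of_ne (by omega),
      Function.update_of_ne (by omega), hsM2])
  have e4 : update (update (update (update (update s M (code (enc a))) 0 []) (M + 1)
      (code (enc (f a))).reverse) M []) 0 ((update (update (update s M (code (enc a))) 0 []) (M + 1)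
      (code (enc (f a))).reverse) M) = update (update s (M + 1) (code (enc (f a))).reverse) 0
      (code (enc a)) := by
    funext i
    by_cases h0 : i = 0
    · subst h0
      rw [Function.update_self, Function.update_self,
        Function.update_of_ne (show M ≠ M + 1 by omega),
        Function.update_of_ne (show M ≠ 0 by omega), Function.update_self]
    · rw [Function.update_of_ne h0, Function.update_of_ne h0]
      by_cases h1 : i = M
      · subst h1
        rw [Function.update_self, Function.update_of_ne (by omega), hsM]
      · rw [Function.update_of_ne h1]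
        by_cases h2 : i = M + 1
        · subst h2
          rw [Function.update_self, Function.update_self]
        · rw [Function.update_of_ne h2, Function.update_of_ne h2, Function.update_of_ne h0,
            Function.update_of_ne h1]
  rw [e4] at r4
  have e4' : (update (update (update s M (code (enc a))) 0 []) (M + 1)
      (code (enc (f a))).reverse) M = code (enc a) := by
    rw [Function.update_of_ne (show M ≠ M + 1 by omega),
        Function.update_of_ne (show M ≠ 0 by omega), Function.update_self]
  rw [e4'] at r4
  -- second function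
  have r5 := H2 a (update (update s (M + 1) (code (enc (f a))).reverse) 0
      (code (enc a))) (by rw [Function.update_self]) (fun i hi hi' => by
      rw [Function.update_of_ne (by omega), Function.update_of_ne (by omega)]
      exact hs' i hi (by omega))
  rw [Function.update_idem] at r5
  -- combine
  have r6 := mv_run (a := M + 1) (b := 0) (by omega) (code (enc (f a))).reverse
    (update (update s (M + 1) (code (enc (f a))).reverse) 0 (code (enc (g a))))
    (by rw [Function.update_of_ne (by omega), Function.update_self])
  have r7 := Run.push (update (update (update (update s (M + 1) (code (enc (f a))).reverse) 0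
    (code (enc (g a)))) (M + 1) []) 0 ((code (enc (f a))).reverse.reverse ++
      (update (update s (M + 1) (code (enc (f a))).reverse) 0 (code (enc (g a)))) 0)) 0 true
  refine ((r1.seq (r2.seq (r3.seq (r4.seq (r5.seq (r6.seq r7)))))).congr rfl ?_).mono ?_
  · funext i
    by_cases h0 : i = 0
    · subst h0
      simp [code]
    · rw [Function.update_of_ne h0, Function.update_of_ne h0, Function.update_of_ne h0]
      by_cases h2 : i = M + 1
      · subst h2
        rw [Function.update_self, hsM1]
      · rw [Function.update_of_ne h2, Function.update_of_ne h0, Function.update_of_ne h2]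
  · have hfa : (code (enc (f a))).length ≤ f' (size a) := hfsz a
    have ha : (code (enc a)).length = size a := rfl
    rw [ha]
    simp only [List.length_reverse]
    omega

theorem loop_iter {step : α → α} {c : Cmd} {m M : ℕ} {g : ℕ → ℕ}
    (H : ∀ (a : α) (s : St), s 0 = code (enc a) → (∀ i, 0 < i → i ≤ m → s i = []) →
      Run c s (update s 0 (code (enc (step a)))) (g (size a))) (hM : m < M) (K : ℕ) :
    ∀ (l : List Bool) (a : α) (s : St), s M = l → s 0 = code (enc a) →
      (∀ i, 0 < i → i ≤ m → s i = []) → (∀ i < l.length, g (size (step^[i] a)) ≤ K) →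
      Run (.loop M (.seq (.pop M) c)) s
        (update (update s M []) 0 (code (enc (step^[l.length] a)))) (l.length * (K + 2) + 1)
  | [], a, s, hl, hs, hs', hK => by
    refine ((Run.loopD hl).congr rfl ?_).mono (by simp)
    change s = update (update s M []) 0 (code (enc a))
    rw [← hl, Function.update_eq_self, ← hs, Function.update_eq_self]
  | x :: l, a, s, hl, hs, hs', hK => by
    have h1 : Run (.pop M) s (update s M l) 1 := (Run.pop s M).congr rfl (by rw [hl]; rfl)
    have h2 := H a (update s M l) (by rw [Function.update_of_ne (by omega), hs])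
      (fun i hi hi' => by rw [Function.update_of_ne (by omega)]; exact hs' i hi hi')
    have h3 := loop_iter H hM K l (step a) (update (update s M l) 0 (code (enc (step a))))
      (by rw [Function.update_of_ne (by omega), Function.update_self])
      (by rw [Function.update_self])
      (fun i hi hi' => by
        rw [Function.update_of_ne (by omega), Function.update_of_ne (by omega)]
        exact hs' i hi hi')
      (fun i hi => by
        have := hK (i + 1) (by simp only [List.length_cons]; omega)
        rwa [Function.iterate_succ_apply] at this)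
    refine ((Run.loopS (by rw [hl]; simp) (h1.seq h2) h3).congr rfl ?_).mono ?_
    · funext i
      by_cases h0 : i = 0
      · subst h0
        simp
      · rw [Function.update_of_ne h0, Function.update_of_ne h0]
        by_cases h1 : i = M
        · subst h1; simp
        · simp [Function.update_of_ne h0, Function.update_of_ne h1]
    · have := hK 0 (by simp)
      simp only [Function.iterate_zero, id_eq] at this
      simp only [List.length_cons]
      nlinarith

theorem PolyFn.iter {step : α → α} {init : γ → α} (hs : PolyFn step) (hi : PolyFn init)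
    (hb : ∃ q : ℕ → ℕ, PB q ∧ ∀ c, ∀ i ≤ size (init c), size (step^[i] (init c)) ≤ q (size c)) :
    PolyFn (fun c => step^[size (init c)] (init c)) := by
  obtain ⟨i', hi', hisz⟩ := hi.size_le
  obtain ⟨c0, m0, g0, hb0, hg0, H0⟩ := hi
  obtain ⟨c1, m1, g1, hb1, hg1, H1⟩ := hs
  obtain ⟨q, hq, hqb⟩ := hb
  obtain ⟨M, hM1, hM2, hM0⟩ : ∃ M, m1 < M ∧ m0 < M ∧ 0 < M :=
    ⟨max m1 m0 + 1, by omega, by omega, by omega⟩
  refine ⟨.seq c0 (.seq (dup M) (.loop M (.seq (.pop M) c1))), M + 2,
    fun n => g0 n + ((9 * i' n + 2) + (i' n * (g1 (q n) + 2) + 1)),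
    ?_, ?_, ?_⟩
  · exact ⟨hb0.mono (by omega), dup_bdd M, ⟨by omega, by simp [Cmd.Bdd], hb1.mono (by omega)⟩⟩
  · exact hg0.add ((((PB.const 9).mul hi').add (PB.const 2)).add
      ((hi'.mul ((hg1.comp hq).add (PB.const 2))).add (PB.const 1)))
  intro c s hs hs'
  have hsM : s M = [] := hs' M (by omega) (by omega)
  have hsM1 : s (M + 1) = [] := hs' (M + 1) (by omega) (by omega)
  have r0 := H0 c s hs (fun i hi hi' => hs' i hi (by omega))
  have r1 := dup_run hM0 (update s 0 (code (enc (init c))))
    (by rw [Function.update_of_ne (by omega), hsM])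
    (by rw [Function.update_of_ne (by omega), hsM1])
  have r2 := loop_iter H1 hM1 (g1 (q (size c))) (code (enc (init c))) (init c)
    (update (update s 0 (code (enc (init c)))) M (code (enc (init c))))
    (by simp) (by rw [Function.update_of_ne (by omega), Function.update_self])
    (fun i hi hi' => by
        rw [Function.update_of_ne (by omega), Function.update_of_ne (by omega)]
        exact hs' i hi (by omega))
    (fun i hi => hg1.mono (hqb c i (le_of_lt hi)))
  rw [Function.update_self] at r1
  refine ((r0.seq (r1.seq r2)).congr rfl ?_).mono ?_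
  · funext i
    by_cases h0 : i = 0
    · subst h0
      simp [size, tsize]
    · rw [Function.update_of_ne h0, Function.update_of_ne h0]
      by_cases h1 : i = M
      · subst h1; simp [hsM]
      · simp [Function.update_of_ne h0, Function.update_of_ne h1]
  · have e : (code (enc (init c))).length = size (init c) := rfl
    rw [e]
    have h1 := hisz c
    have h2 : size (init c) * (g1 (q (size c)) + 2) ≤ i' (size c) * (g1 (q (size c)) + 2) :=
      Nat.mul_le_mul_right _ h1
    show g0 (size c) + (9 * size (init c) + 2 + (size (init c) * (g1 (q (size c)) + 2) + 1)) ≤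
      g0 (size c) + (9 * i' (size c) + 2 + (i' (size c) * (g1 (q (size c)) + 2) + 1))
    omega

instance {p : α → Prop} : Enc {a // p a} := ⟨fun a => enc a.1⟩

@[simp] theorem enc_subtype {p : α → Prop} (a : {a // p a}) : enc a = enc a.1 := rfl

@[simp] theorem size_subtype {p : α → Prop} (a : {a // p a}) : size a = size a.1 := rfl

/-- Case distinction, dependent version. -/
theorem PolyFn.dcond {b : α → Bool} {f : {a // b a = true} → β} {g : {a // b a = false} → β}
    (hb : PolyFn b) (hf : PolyFn f) (hg : PolyFn g) {F : α → β}
    (hF : ∀ a (h : b a = true), F a = f ⟨a, h⟩) (hG : ∀ a (h : b a = false), F a = g ⟨a, h⟩) :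
    PolyFn F := by
  obtain ⟨c0, m0, g0, hb0, hg0, H0⟩ := hb
  obtain ⟨c1, m1, g1, hb1, hg1, H1⟩ := hf
  obtain ⟨c2, m2, g2, hb2, hg2, H2⟩ := hg
  obtain ⟨M, hM0', hM1, hM2, hM0⟩ : ∃ M, m0 < M ∧ m1 < M ∧ m2 < M ∧ 0 < M :=
    ⟨max m0 (max m1 m2) + 1, by omega, by omega, by omega, by omega⟩
  refine ⟨.seq (dup M) (.seq c0 (.cas 0 .skip (.seq (clr 0) (.seq (mvo M 0 (M + 1)) c2))
      (.seq (clr 0) (.seq (mvo M 0 (M + 1)) c1)))), M + 2,
    fun n => (9 * n + 2) + (g0 n + (7 + ((8 * n + 2) + (g1 n + g2 n)) + 1)),
    ?_, ?_, ?_⟩
  · exact ⟨dup_bdd M, hb0.mono (by omega), ⟨by omega, trivial,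
      ⟨clr_bdd (by omega), mvo_bdd (by omega) (by omega) (by omega), hb2.mono (by omega)⟩,
      ⟨clr_bdd (by omega), mvo_bdd (by omega) (by omega) (by omega), hb1.mono (by omega)⟩⟩⟩
  · exact (((PB.const 9).mul PB.id).add (PB.const 2)).add (hg0.add (((PB.const 7).add
      ((((PB.const 8).mul PB.id).add (PB.const 2)).add (hg1.add hg2))).add (PB.const 1)))
  intro a s hs hs'
  have hsM : s M = [] := hs' M (by omega) (by omega)
  have hsM1 : s (M + 1) = [] := hs' (M + 1) (by omega) (by omega)
  have r1 := dup_run hM0 s hsM hsM1
  rw [hs] at r1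
  have r2 := H0 a (update s M (code (enc a))) (by rw [Function.update_of_ne (by omega), hs])
    (fun i hi hi' => by rw [Function.update_of_ne (by omega)]; exact hs' i hi (by omega))
  have r3 := clr_run (a := 0) (code (enc (b a)))
    (update (update s M (code (enc a))) 0 (code (enc (b a)))) (by simp)
  rw [Function.update_idem] at r3
  have r4 := mvo_run (a := M) (b := 0) (t := M + 1) (by omega) (by omega) (by omega)
    (update (update s M (code (enc a))) 0 [])
    (by rw [Function.update_self])
    (by rw [Function.update_of_ne (by omega), Function.update_of_ne (by omega), hsM1])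
  have e4' : (update (update s M (code (enc a))) 0 []) M = code (enc a) := by
    rw [Function.update_of_ne (show M ≠ 0 by omega), Function.update_self]
  rw [e4'] at r4
  have e4 : update (update (update (update s M (code (enc a))) 0 []) M []) 0 (code (enc a)) = s := by
    funext i
    by_cases h0 : i = 0
    · subst h0
      rw [Function.update_self, hs]
    · rw [Function.update_of_ne h0]
      by_cases h1 : i = M
      · subst h1
        rw [Function.update_self, hsM]
      · rw [Function.update_of_ne h1, Function.update_of_ne h0,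
            Function.update_of_ne h1]
  rw [e4] at r4
  have ha : (code (enc a)).length = size a := rfl
  have hbl : (code (enc (b a))).length ≤ 3 := size_bool _
  rw [ha] at r1 r4
  cases hba : b a with
  | false =>
    have r5 := H2 ⟨a, hba⟩ s hs (fun i hi hi' => hs' i hi (by omega))
    rw [hG a hba]
    refine (r1.seq (r2.seq (Run.casF (l := []) ?_ (r3.seq (r4.seq r5))))).mono ?_
    · rw [Function.update_self, hba]; rfl
    · show 9 * size a + 2 + (g0 (size a) + (2 * (code (enc (b a))).length + 1 +
        (8 * size a + 2 + g2 (size a)) + 1)) ≤ (9 * size a + 2) + (g0 (size a) + (7 +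
        ((8 * size a + 2) + (g1 (size a) + g2 (size a))) + 1))
      omega
  | true =>
    have r5 := H1 ⟨a, hba⟩ s hs (fun i hi hi' => hs' i hi (by omega))
    rw [hF a hba]
    refine (r1.seq (r2.seq (Run.casT (l := [false, false]) ?_ (r3.seq (r4.seq r5))))).mono ?_
    · rw [Function.update_self, hba]; rfl
    · show 9 * size a + 2 + (g0 (size a) + (2 * (code (enc (b a))).length + 1 +
        (8 * size a + 2 + g1 (size a)) + 1)) ≤ (9 * size a + 2) + (g0 (size a) + (7 +
        ((8 * size a + 2) + (g1 (size a) + g2 (size a))) + 1))
      omega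

/-- Is the tree a node? -/
def isNode : T → Bool
  | .nil => false
  | .node _ _ => true

theorem poly_isNode : PolyFn isNode := by
  refine ⟨.cas 0 .skip .skip (.seq (clr 0) (pushes 0 [true, false, false])), 0,
    fun n => 2 * n + 10, ?_, ((PB.const 2).mul PB.id).add (PB.const 10), ?_⟩
  · exact ⟨le_rfl, trivial, trivial, clr_bdd le_rfl, pushes_bdd le_rfl _⟩
  intro a s hs hs'
  cases a with
  | nil =>
    refine ((Run.casF (l := []) (by rw [hs]; rfl) (Run.skip s)).congr rfl ?_).mono
      (show 1 + 1 ≤ 2 * 1 + 10 by omega)
    change s 0 = code (.nil) at hs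
    change s = update s 0 (code .nil)
    rw [← hs, Function.update_eq_self]
  | node l r =>
    change s 0 = true :: (code l ++ code r) at hs
    refine ((Run.casT (l := code l ++ code r) hs ((clr_run _ s hs).seq
      (pushes_run 0 [true, false, false] _))).congr rfl ?_).mono ?_
    · simp [isNode, code]
    · show _ ≤ 2 * size (T.node l r) + 10
      have e3 : size (T.node l r) = tsize l + tsize r + 1 := by simp [size_T]
      have e1 : (code r).length = tsize r := rfl
      have e2 : (code l).length = tsize l := rfl
      rw [e3]
      simp only [List.length_cons, List.length_append, List.length_nil, e1, e2]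
      omega

end Pool.Agent.PolyTime
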