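import Pool.Agent.Lib.PolyTime.Machine
import Pool.Agent.Lib.PolyTime.Closure

/-!
# From stack programs to `Turing.TM2ComputableInPolyTime`
-/

namespace Pool.Agent.PolyTime

open Turing Function

variable {A : Type} {n : ℕ}

/-- Push a list of bits on stack `0`. -/
def pushAll (A : Type) (n : ℕ) {L : Type} : List Bool → TM2.Stmt (Gam A n) L (Mem A) →
    TM2.Stmt (Gam A n) L (Mem A)
  | [], q => q
  | b :: l, q => pushAll A n l (TM2.Stmt.push (idx n 0) (fun _ => b) q)

/-- Stack contents: the input stack holds `l`, stack `0` holds `w`, the others are empty. -/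
def mkS (A : Type) (n : ℕ) (l : List A) (w : List Bool) : ∀ k, List (Gam A n k)
  | none => l
  | some j => if j.val = 0 then w else []

theorem mkS_idx (l : List A) (w : List Bool) : mkS A n l w (idx n 0) = w := by
  show (if (Fin.ofNat (n + 1) 0).val = 0 then w else []) = w
  rw [if_pos (by simp)]

theorem mkS_some_zero (l : List A) (w : List Bool) {j : Fin (n + 1)} (hj : j.val = 0) :
    mkS A n l w (some j) = w := by
  show (if j.val = 0 then w else []) = w
  rw [if_pos hj]

theorem mkS_some_pos (l : List A) (w : List Bool) {j : Fin (n + 1)} (hj : j.val ≠ 0) :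
    mkS A n l w (some j) = ([] : List Bool) := by
  show (if j.val = 0 then w else []) = []
  rw [if_neg hj]

theorem mkS_upd_none (l l' : List A) (w : List Bool) :
    update (mkS A n l w) none l' = mkS A n l' w := by
  funext k
  cases k with
  | none => simp [mkS]
  | some j => rw [Function.update_of_ne (by simp)]; rfl

theorem mkS_upd_idx (l : List A) (w w' : List Bool) :
    update (mkS A n l w) (idx n 0) w' = mkS A n l w' := by
  funext k
  cases k with
  | none => rw [Function.update_of_ne (by simp)]; rfl
  | some j =>
    by_cases hj : j = 0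
    · subst hj
      exact (Function.update_self (f := mkS A n l w) (idx n 0) w').trans
        (mkS_some_zero l w' rfl).symm
    · rw [Function.update_of_ne (by
        intro h; apply hj; exact Option.some.inj h)]
      have : j.val ≠ 0 := fun h => hj (Fin.ext h)
      rw [mkS_some_pos _ _ this, mkS_some_pos _ _ this]

theorem stepAux_pushAll {L : Type} : ∀ (b : List Bool) (q : TM2.Stmt (Gam A n) L (Mem A))
    (v : Mem A) (l : List A) (w : List Bool),
    TM2.stepAux (pushAll A n b q) v (mkS A n l w) = TM2.stepAux q v (mkS A n l (b ++ w))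
  | [], q, v, l, w => rfl
  | x :: b, q, v, l, w => by
    rw [pushAll, stepAux_pushAll b]
    simp only [TM2.stepAux]
    rw [mkS_idx, mkS_upd_idx]
    rfl

/-- Statements of the complete machine. -/
def topCode (A : Type) [Enc A] (n : ℕ) (c : Cmd) :
    Fin 3 ⊕ (A ⊕ Lab c) → TM2.Stmt (Gam A n) (Fin 3 ⊕ (A ⊕ Lab c)) (Mem A)
  | Sum.inl 0 => TM2.Stmt.push (idx n 0) (fun _ => false) (TM2.Stmt.goto fun _ => Sum.inl 1)
  | Sum.inl 1 => TM2.Stmt.pop none (fun v x => (x, v.2)) (TM2.Stmt.goto fun v =>
      match v.1 with
      | none => Sum.inr (Sum.inr (entry c))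
      | some a => Sum.inr (Sum.inl a))
  | Sum.inl 2 => TM2.Stmt.pop (idx n 0) (fun _ x => (none, x)) (TM2.Stmt.branch
      (fun v => v.2 == some true)
      (TM2.Stmt.pop (idx n 0) (fun v _ => v) (TM2.Stmt.pop (idx n 0) (fun v _ => v)
        (TM2.Stmt.push (idx n 0) (fun _ => true) (TM2.Stmt.load (fun _ => (none, none))
          TM2.Stmt.halt))))
      (TM2.Stmt.push (idx n 0) (fun _ => false) (TM2.Stmt.load (fun _ => (none, none))
          TM2.Stmt.halt)))
  | Sum.inr (Sum.inl a) => pushAll A n (true :: code (enc a)) (TM2.Stmt.goto fun _ => Sum.inl 1)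
  | Sum.inr (Sum.inr l) => codeOf A n c (fun l => Sum.inr (Sum.inr l)) (Sum.inl 2) l

theorem read_loop [Enc A] (c : Cmd) : ∀ (l : List A) (acc : List A) (v : Mem A),
    ∃ v' : Mem A, (flip bind (TM2.step (topCode A n c)))^[2 * l.length + 1]
      (some ⟨some (Sum.inl 1), v, mkS A n l (code (enc acc))⟩) =
      some ⟨some (Sum.inr (Sum.inr (entry c))), v', mkS A n [] (code (enc (l.reverse ++ acc)))⟩
  | [], acc, v => by
    refine ⟨(none, v.2), ?_⟩
    rw [show 2 * ([] : List A).length + 1 = 1 from rfl, iter_one]
    simp only [TM2.step, topCode, TM2.stepAux]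
    rw [show (mkS A n ([] : List A) (code (enc acc)) none) = ([] : List A) from rfl]
    rw [show ([] : List A).tail = [] from rfl, mkS_upd_none]
    rfl
  | a :: l, acc, v => by
    obtain ⟨v', h⟩ := read_loop c l (a :: acc) (some a, v.2)
    refine ⟨v', ?_⟩
    rw [show 2 * (a :: l).length + 1 = (2 * l.length + 1) + 1 + 1 by
      simp only [List.length_cons]; ring]
    have e : (code (enc (a :: acc))) = (true :: code (enc a)) ++ code (enc acc) := by
      simp [code]
    rw [show (a :: l).reverse ++ acc = l.reverse ++ a :: acc by simp]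
    refine iter_head _ (b := ⟨some (Sum.inr (Sum.inl a)), (some a, v.2),
      mkS A n l (code (enc acc))⟩) ?_ (iter_head _ ?_ h)
    · simp only [TM2.step, topCode, TM2.stepAux]
      rw [show (mkS A n (a :: l) (code (enc acc)) none) = (a :: l : List A) from rfl]
      rw [show (a :: l : List A).tail = l from rfl, mkS_upd_none]
      rfl
    · simp only [TM2.step, topCode]
      rw [stepAux_pushAll, e]
      rfl

/-- The complete machine. -/
noncomputable def machine (A : Type) [Enc A] [Fintype A] (n : ℕ) (c : Cmd) : FinTM2 where
  K := Option (Fin (n + 1))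
  k₀ := none
  k₁ := idx n 0
  Γ := Gam A n
  Λ := Fin 3 ⊕ (A ⊕ Lab c)
  main := Sum.inl 0
  σ := Mem A
  initialState := (none, none)
  Γk₀Fin := inferInstanceAs (Fintype A)
  m := topCode A n c

theorem machine_runs [Enc A] [Fintype A] {c : Cmd} (hc : c.Bdd n) {l : List A} {b : Bool} {t : ℕ}
    {s' : St}
    (h : Ex c (fun i => if i = 0 then code (enc l.reverse) else []) s' t)
    (h0 : s' 0 = code (enc b)) (hs' : ∀ i, 0 < i → i ≤ n → s' i = []) :
    (flip bind (machine A n c).step)^[2 * l.length + t + 3]
      (some (initList (machine A n c) l)) = some (haltList (machine A n c) [b]) := by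
  have hinit : initList (machine A n c) l = ⟨some (Sum.inl 0), (none, none), mkS A n l []⟩ := by
    unfold initList
    congr 1
    funext k
    cases k with
    | none => rfl
    | some j =>
      rw [dif_neg (by simp [machine])]
      show ([] : List Bool) = if j.val = 0 then [] else []
      split_ifs <;> rfl
  rw [hinit]
  have h1 : (machine A n c).step ⟨some (Sum.inl 0), (none, none), mkS A n l []⟩ =
      some ⟨some (Sum.inl 1), (none, none), mkS A n l (code (enc ([] : List A)))⟩ := by
    show TM2.step (topCode A n c) _ = _
    simp only [TM2.step, topCode, TM2.stepAux]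
    rw [mkS_idx, mkS_upd_idx]
    rfl
  obtain ⟨v', h2⟩ := read_loop (n := n) c l [] (none, none)
  rw [List.append_nil] at h2
  have hag : Agree n (fun i => if i = 0 then code (enc l.reverse) else [])
      (mkS A n [] (code (enc l.reverse))) := by
    refine ⟨rfl, fun i hi => ?_⟩
    by_cases hi0 : i = 0
    · subst hi0; rw [mkS_idx]; simp
    · have : (Fin.ofNat (n + 1) i).val ≠ 0 := by
        simp only [Fin.val_ofNat]
        rw [Nat.mod_eq_of_lt (by omega)]
        exact hi0
      simp only [if_neg hi0]
      exact mkS_some_pos _ _ this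
  obtain ⟨v'', S', hS', h3⟩ := sim (M := topCode A n c) h (fun l => Sum.inr (Sum.inr l))
    (Sum.inl 2) (fun l => rfl) hc v' _ hag
  have hSeq : S' = mkS A n [] (code (enc b)) := by
    funext k
    cases k with
    | none => exact hS'.1
    | some j =>
      have hj : Fin.ofNat (n + 1) j.val = j := by simp
      have h5 : ∀ j' : Fin (n + 1), j' = j → S' (some j') = s' j.val →
        S' (some j) = s' j.val := by rintro _ rfl h; exact h
      refine (h5 _ hj (hS'.2 j.val (by have := j.isLt; omega))).trans ?_
      by_cases hj0 : j.val = 0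
      · rw [mkS_some_zero _ _ hj0, hj0, h0]
      · rw [hs' _ (Nat.pos_of_ne_zero hj0) (by have := j.isLt; omega)]
        exact (mkS_some_pos _ _ hj0).symm
  have h4 : (machine A n c).step ⟨some (Sum.inl 2), v'', S'⟩ =
      some (haltList (machine A n c) [b]) := by
    have hh : haltList (machine A n c) [b] = ⟨none, (none, none), mkS A n [] [b]⟩ := by
      unfold haltList
      congr 1
      funext k
      cases k with
      | none =>
        rw [dif_neg (by simp [machine])]
        rfl
      | some j =>
        by_cases hj0 : j = 0
        · subst hj0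
          rfl
        · rw [dif_neg]
          · exact (mkS_some_pos _ _ (fun h => hj0 (Fin.ext h))).symm
          · intro h'
            exact hj0 (Option.some.inj h')
    rw [hh, hSeq]
    show TM2.step (topCode A n c) _ = _
    cases b with
    | false =>
      simp only [TM2.step, topCode, TM2.stepAux]
      rw [mkS_idx, mkS_upd_idx]
      show some (⟨none, (none, none), update (mkS A n [] []) (idx n 0)
        (false :: mkS A n [] [] (idx n 0))⟩ : TM2.Cfg _ _ _) = _
      rw [mkS_idx, mkS_upd_idx]
      rfl
    | true =>
      simp only [TM2.step, topCode, TM2.stepAux]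
      rw [mkS_idx, mkS_upd_idx, mkS_idx, mkS_upd_idx, mkS_idx, mkS_upd_idx, mkS_idx, mkS_upd_idx]
      rfl
  rw [show 2 * l.length + t + 3 = ((2 * l.length + 1) + (t + 1)) + 1 by ring]
  refine iter_head _ h1 (iter_add _ h2 (iter_add _ h3 ?_))
  exact h4

theorem size_list_le_of_fintype [Enc A] [Fintype A] :
    ∃ K : ℕ, ∀ l : List A, size l ≤ 1 + K * l.length := by
  refine ⟨(Finset.univ.sup fun a : A => size a) + 1, fun l => ?_⟩
  induction l with
  | nil => simp
  | cons a l ih =>
    have : size a ≤ Finset.univ.sup fun a : A => size a :=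
      Finset.le_sup (f := fun a : A => size a) (Finset.mem_univ a)
    simp only [size_list_cons, List.length_cons]
    nlinarith

/-- A polynomial-time Boolean function of the reversed input word gives a polynomial-time
machine. -/
theorem PolyFn.toTM2_reverse [Enc A] [Fintype A] {F : List A → Bool} (hF : PolyFn F) {ι : Type}
    (ea : ι → List A) (f : ι → Bool) (h : ∀ i, F (ea i).reverse = f i) :
    Nonempty (TM2ComputableInPolyTime ea Computability.encodeBool f) := by
  obtain ⟨c, m, g, hc, ⟨hg, p, hp⟩, H⟩ := hF
  obtain ⟨K, hK⟩ := size_list_le_of_fintype (A := A)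
  refine ⟨{
    tm := machine A m c
    inputAlphabet := Equiv.refl A
    outputAlphabet := Equiv.refl Bool
    time := 2 * Polynomial.X + 3 + p.comp (1 + (Polynomial.C K) * Polynomial.X)
    outputsFun := fun i => ?_ }⟩
  have hrun := H (ea i).reverse (fun j => if j = 0 then code (enc (ea i).reverse) else [])
    (by simp) (fun j hj _ => if_neg hj.ne')
  rw [h i] at hrun
  choose t ht ht' using hrun
  have hm := machine_runs (n := m) hc (l := ea i) (b := f i) (t := t) ht' (by simp)
    (fun j hj hj' => by rw [Function.update_of_ne hj.ne']; exact if_neg hj.ne')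
  refine ⟨⟨2 * (ea i).length + t + 3, ?_⟩, ?_⟩
  · have e1 : List.map (Equiv.refl A).invFun (ea i) = ea i := by
      show List.map _root_.id (ea i) = ea i
      rw [List.map_id]
    have e2 : List.map (Equiv.refl Bool).invFun (Computability.encodeBool (f i)) = [f i] := rfl
    have e3 : initList (machine A m c) (List.map (Equiv.refl A).invFun (ea i)) =
        initList (machine A m c) (ea i) := congrArg (initList (machine A m c)) e1
    have e4 : haltList (machine A m c)
        (List.map (Equiv.refl Bool).invFun (Computability.encodeBool (f i))) =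
        haltList (machine A m c) [f i] := congrArg (haltList (machine A m c)) e2
    exact ((congrArg (fun x => (flip bind (machine A m c).step)^[2 * (ea i).length + t + 3]
      (some x)) e3).trans hm).trans (congrArg some e4).symm
  · have h1 : size (ea i).reverse ≤ 1 + K * (ea i).length := by
      simpa using hK (ea i).reverse
    have h2 : t ≤ p.eval (1 + K * (ea i).length) :=
      ht.trans ((hg h1).trans (hp _))
    simp only [Polynomial.eval_add, Polynomial.eval_mul, Polynomial.eval_X, Polynomial.eval_comp,
      Polynomial.eval_C, Polynomial.eval_one, Polynomial.eval_ofNat]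
    omega

end Pool.Agent.PolyTime
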