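import Mathlib

/-!
# A small structured language of stack programs

Stacks are indexed by natural numbers and hold bits. `Ex c s s' t` says that the program `c`, started
in the state `s`, terminates in the state `s'` after exactly `t` steps.
-/

namespace Pool.Agent.PolyTime

/-- Structured stack programs. -/
inductive Cmd : Type
  | skip : Cmd
  | push (k : ℕ) (b : Bool) : Cmd
  | pop (k : ℕ) : Cmd
  | seq (c d : Cmd) : Cmd
  | cas (k : ℕ) (cn cf ct : Cmd) : Cmd
  | loop (k : ℕ) (c : Cmd) : Cmd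

/-- All stack indices used by the program are at most `n`. -/
def Cmd.Bdd (n : ℕ) : Cmd → Prop
  | .skip => True
  | .push k _ => k ≤ n
  | .pop k => k ≤ n
  | .seq c d => c.Bdd n ∧ d.Bdd n
  | .cas k cn cf ct => k ≤ n ∧ cn.Bdd n ∧ cf.Bdd n ∧ ct.Bdd n
  | .loop k c => k ≤ n ∧ c.Bdd n

theorem Cmd.Bdd.mono {n m : ℕ} (h : n ≤ m) : ∀ {c : Cmd}, c.Bdd n → c.Bdd m
  | .skip, _ => trivial
  | .push _ _, hc => le_trans hc h
  | .pop _, hc => le_trans hc h
  | .seq _ _, hc => ⟨hc.1.mono h, hc.2.mono h⟩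
  | .cas _ _ _ _, hc => ⟨le_trans hc.1 h, hc.2.1.mono h, hc.2.2.1.mono h, hc.2.2.2.mono h⟩
  | .loop _ _, hc => ⟨le_trans hc.1 h, hc.2.mono h⟩

/-- States: the contents of all stacks (top first). -/
abbrev St := ℕ → List Bool

/-- Big-step semantics with exact step count. -/
inductive Ex : Cmd → St → St → ℕ → Prop
  | skip (s : St) : Ex .skip s s 1
  | push (s : St) (k : ℕ) (b : Bool) : Ex (.push k b) s (Function.update s k (b :: s k)) 1
  | pop (s : St) (k : ℕ) : Ex (.pop k) s (Function.update s k (s k).tail) 1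
  | seq {c d : Cmd} {s s' s'' : St} {t t' : ℕ} (h : Ex c s s' t) (h' : Ex d s' s'' t') :
      Ex (.seq c d) s s'' (t + t')
  | casN {k : ℕ} {cn cf ct : Cmd} {s s' : St} {t : ℕ} (hk : s k = []) (h : Ex cn s s' t) :
      Ex (.cas k cn cf ct) s s' (t + 1)
  | casF {k : ℕ} {cn cf ct : Cmd} {s s' : St} {t : ℕ} (l : List Bool) (hk : s k = false :: l)
      (h : Ex cf s s' t) : Ex (.cas k cn cf ct) s s' (t + 1)
  | casT {k : ℕ} {cn cf ct : Cmd} {s s' : St} {t : ℕ} (l : List Bool) (hk : s k = true :: l)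
      (h : Ex ct s s' t) : Ex (.cas k cn cf ct) s s' (t + 1)
  | loopD {k : ℕ} {c : Cmd} {s : St} (hk : s k = []) : Ex (.loop k c) s s 1
  | loopS {k : ℕ} {c : Cmd} {s s' s'' : St} {t t' : ℕ} (hk : s k ≠ []) (h : Ex c s s' t)
      (h' : Ex (.loop k c) s' s'' t') : Ex (.loop k c) s s'' (t + t' + 1)

/-- `Run c s s' B`: from `s` the program terminates in `s'` within `B` steps. -/
def Run (c : Cmd) (s s' : St) (B : ℕ) : Prop := ∃ t ≤ B, Ex c s s' t

theorem Run.mono {c : Cmd} {s s' : St} {B B' : ℕ} (h : Run c s s' B) (hB : B ≤ B') :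
    Run c s s' B' := by
  obtain ⟨t, ht, h⟩ := h
  exact ⟨t, ht.trans hB, h⟩

theorem Run.congr {c : Cmd} {s s₁ s' s₁' : St} {B : ℕ} (h : Run c s s' B) (h1 : s = s₁)
    (h2 : s' = s₁') : Run c s₁ s₁' B := by subst h1; subst h2; exact h

theorem Run.skip (s : St) : Run .skip s s 1 := ⟨1, le_rfl, Ex.skip s⟩

theorem Run.push (s : St) (k : ℕ) (b : Bool) :
    Run (.push k b) s (Function.update s k (b :: s k)) 1 := ⟨1, le_rfl, Ex.push s k b⟩

theorem Run.pop (s : St) (k : ℕ) :
    Run (.pop k) s (Function.update s k (s k).tail) 1 := ⟨1, le_rfl, Ex.pop s k⟩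

theorem Run.seq {c d : Cmd} {s s' s'' : St} {B B' : ℕ} (h : Run c s s' B) (h' : Run d s' s'' B') :
    Run (.seq c d) s s'' (B + B') := by
  obtain ⟨t, ht, h⟩ := h
  obtain ⟨t', ht', h'⟩ := h'
  exact ⟨t + t', by omega, Ex.seq h h'⟩

theorem Run.casN {k : ℕ} {cn cf ct : Cmd} {s s' : St} {B : ℕ} (hk : s k = [])
    (h : Run cn s s' B) : Run (.cas k cn cf ct) s s' (B + 1) := by
  obtain ⟨t, ht, h⟩ := h
  exact ⟨t + 1, by omega, Ex.casN hk h⟩

theorem Run.casF {k : ℕ} {cn cf ct : Cmd} {s s' : St} {B : ℕ} {l : List Bool}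
    (hk : s k = false :: l) (h : Run cf s s' B) : Run (.cas k cn cf ct) s s' (B + 1) := by
  obtain ⟨t, ht, h⟩ := h
  exact ⟨t + 1, by omega, Ex.casF l hk h⟩

theorem Run.casT {k : ℕ} {cn cf ct : Cmd} {s s' : St} {B : ℕ} {l : List Bool}
    (hk : s k = true :: l) (h : Run ct s s' B) : Run (.cas k cn cf ct) s s' (B + 1) := by
  obtain ⟨t, ht, h⟩ := h
  exact ⟨t + 1, by omega, Ex.casT l hk h⟩

theorem Run.loopD {k : ℕ} {c : Cmd} {s : St} (hk : s k = []) : Run (.loop k c) s s 1 :=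
  ⟨1, le_rfl, Ex.loopD hk⟩

theorem Run.loopS {k : ℕ} {c : Cmd} {s s' s'' : St} {B B' : ℕ} (hk : s k ≠ [])
    (h : Run c s s' B) (h' : Run (.loop k c) s' s'' B') : Run (.loop k c) s s'' (B + B' + 1) := by
  obtain ⟨t, ht, h⟩ := h
  obtain ⟨t', ht', h'⟩ := h'
  exact ⟨t + t' + 1, by omega, Ex.loopS hk h h'⟩

/-- The bottom part of a run touches only the stacks with index at most `n`. -/
theorem Ex.frame {n : ℕ} {c : Cmd} {s s' : St} {t : ℕ} (h : Ex c s s' t) (hc : c.Bdd n) :
    ∀ i, n < i → s' i = s i := by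
  induction h with
  | skip s => intro i _; rfl
  | push s k b => intro i hi; rw [Function.update_of_ne]; exact (lt_of_le_of_lt hc hi).ne'
  | pop s k => intro i hi; rw [Function.update_of_ne]; exact (lt_of_le_of_lt hc hi).ne'
  | seq _ _ ih ih' => intro i hi; rw [ih' hc.2 i hi, ih hc.1 i hi]
  | casN _ _ ih => intro i hi; exact ih hc.2.1 i hi
  | casF _ _ _ ih => intro i hi; exact ih hc.2.2.1 i hi
  | casT _ _ _ ih => intro i hi; exact ih hc.2.2.2 i hi
  | loopD _ => intro i _; rfl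
  | loopS _ _ _ ih ih' => intro i hi; rw [ih' hc i hi, ih hc.2 i hi]

/-- A step changes the length of a stack by at most one. -/
theorem Ex.length_le {c : Cmd} {s s' : St} {t : ℕ} (h : Ex c s s' t) (i : ℕ) :
    (s' i).length ≤ (s i).length + t := by
  induction h with
  | skip s => omega
  | push s k b =>
    by_cases hi : i = k
    · subst hi; simp
    · rw [Function.update_of_ne hi]; omega
  | pop s k =>
    by_cases hi : i = k
    · subst hi; simp; omega
    · rw [Function.update_of_ne hi]; omega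
  | seq _ _ ih ih' => omega
  | casN _ _ ih => omega
  | casF _ _ _ ih => omega
  | casT _ _ _ ih => omega
  | loopD _ => omega
  | loopS _ _ _ ih ih' => omega

end Pool.Agent.PolyTime
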