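import Pool.Agent.Lib.PolyTime.Closure

/-!
# Polynomial-time functions on pairs, Booleans, naturals (unary) and lists
-/

namespace Pool.Agent.PolyTime

variable {α β γ δ : Type} [Enc α] [Enc β] [Enc γ] [Enc δ]

theorem PolyFn.toT {f : α → β} (hf : PolyFn f) : PolyFn (fun a => enc (f a)) :=
  PolyFn.of_enc hf (fun a => a) (fun _ => rfl) (fun _ => rfl)

theorem PolyFn.ofT {f : α → β} {F : α → T} (hF : PolyFn F) (h : ∀ a, F a = enc (f a)) : PolyFn f :=
  PolyFn.of_enc hF (fun a => a) (fun _ => rfl) h

theorem PolyFn.fst : PolyFn (fun p : α × β => p.1) :=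
  PolyFn.of_enc poly_left (fun p => enc p) (fun _ => rfl) (fun _ => rfl)

theorem PolyFn.snd : PolyFn (fun p : α × β => p.2) :=
  PolyFn.of_enc poly_right (fun p => enc p) (fun _ => rfl) (fun _ => rfl)

theorem PolyFn.val {p : α → Prop} : PolyFn (fun a : {a // p a} => a.1) :=
  PolyFn.of_enc (PolyFn.id (α := α)) (fun a => a.1) (fun _ => rfl) (fun _ => rfl)

theorem PolyFn.restrict {p : α → Prop} {f : α → β} (hf : PolyFn f) :
    PolyFn (fun a : {a // p a} => f a.1) := hf.comp PolyFn.val

theorem PolyFn.subtype_mk {p : β → Prop} {f : α → β} (hf : PolyFn f) (h : ∀ a, p (f a)) :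
    PolyFn (fun a => (⟨f a, h a⟩ : {b // p b})) :=
  PolyFn.of_enc hf (fun a => a) (fun _ => rfl) (fun _ => rfl)

theorem PolyFn.cond {b : α → Bool} {f g : α → β} (hb : PolyFn b) (hf : PolyFn f) (hg : PolyFn g) :
    PolyFn (fun a => cond (b a) (f a) (g a)) :=
  PolyFn.dcond (f := fun a => f a.1) (g := fun a => g a.1) hb hf.restrict hg.restrict
    (fun a h => by simp [h]) (fun a h => by simp [h])

theorem PolyFn.ite {p : α → Prop} [DecidablePred p] {f g : α → β}
    (hb : PolyFn fun a => decide (p a)) (hf : PolyFn f) (hg : PolyFn g) :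
    PolyFn (fun a => if p a then f a else g a) :=
  (PolyFn.cond hb hf hg).of_eq fun a => by
    by_cases h : p a <;> simp [h]

theorem PolyFn.not {b : α → Bool} (hb : PolyFn b) : PolyFn (fun a => !(b a)) :=
  (PolyFn.cond hb (PolyFn.const false) (PolyFn.const true)).of_eq fun a => by
    cases b a <;> rfl

theorem PolyFn.and {b c : α → Bool} (hb : PolyFn b) (hc : PolyFn c) : PolyFn (fun a => b a && c a) :=
  (PolyFn.cond hb hc (PolyFn.const false)).of_eq fun a => by
    cases b a <;> rfl

theorem PolyFn.or {b c : α → Bool} (hb : PolyFn b) (hc : PolyFn c) : PolyFn (fun a => b a || c a) :=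
  (PolyFn.cond hb (PolyFn.const true) hc).of_eq fun a => by
    cases b a <;> rfl

theorem PolyFn.decide_not {p : α → Prop} [DecidablePred p] (hp : PolyFn fun a => decide (p a)) :
    PolyFn (fun a => decide (¬ p a)) :=
  hp.not.of_eq fun a => by simp

theorem PolyFn.decide_and {p q : α → Prop} [DecidablePred p] [DecidablePred q]
    (hp : PolyFn fun a => decide (p a)) (hq : PolyFn fun a => decide (q a)) :
    PolyFn (fun a => decide (p a ∧ q a)) :=
  (hp.and hq).of_eq fun a => by simp

theorem PolyFn.decide_or {p q : α → Prop} [DecidablePred p] [DecidablePred q]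
    (hp : PolyFn fun a => decide (p a)) (hq : PolyFn fun a => decide (q a)) :
    PolyFn (fun a => decide (p a ∨ q a)) :=
  (hp.or hq).of_eq fun a => by simp

/-! ### Naturals -/

theorem PolyFn.succ {f : α → ℕ} (hf : PolyFn f) : PolyFn (fun a => f a + 1) :=
  PolyFn.ofT (((PolyFn.const T.nil).pair hf.toT).toT) (fun _ => rfl)

theorem PolyFn.pred {f : α → ℕ} (hf : PolyFn f) : PolyFn (fun a => f a - 1) :=
  PolyFn.ofT (poly_right.comp hf.toT) (fun a => by
    cases f a <;> rfl)

theorem isNode_enc_nat (n : ℕ) : isNode (enc n) = decide (n ≠ 0) := by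
  cases n <;> rfl

theorem PolyFn.ne_zero {f : α → ℕ} (hf : PolyFn f) : PolyFn (fun a => decide (f a ≠ 0)) :=
  (poly_isNode.comp hf.toT).of_eq fun _ => isNode_enc_nat _

theorem PolyFn.eq_zero {f : α → ℕ} (hf : PolyFn f) : PolyFn (fun a => decide (f a = 0)) :=
  hf.ne_zero.not.of_eq fun _ => by simp

theorem PolyFn.natCase {n : γ → ℕ} {f : γ → β} {g : γ → ℕ → β} (hn : PolyFn n) (hf : PolyFn f)
    (hg : PolyFn fun p : γ × ℕ => g p.1 p.2) {F : γ → β} (h0 : ∀ c, n c = 0 → F c = f c)
    (h1 : ∀ c k, n c = k + 1 → F c = g c k) : PolyFn F := by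
  refine (PolyFn.cond hn.ne_zero (hg.comp (PolyFn.id.pair hn.pred)) hf).of_eq fun a => ?_
  rcases h : n a with - | k
  · simp [h0 a h]
  · simp [h1 a k h]

/-! ### Lists -/

theorem PolyFn.cons {f : γ → α} {l : γ → List α} (hf : PolyFn f) (hl : PolyFn l) :
    PolyFn (fun c => f c :: l c) :=
  PolyFn.ofT ((hf.pair hl).toT) (fun _ => rfl)

theorem PolyFn.tail {l : γ → List α} (hl : PolyFn l) : PolyFn (fun c => (l c).tail) :=
  PolyFn.ofT (poly_right.comp hl.toT) (fun a => by cases l a <;> rfl)

theorem PolyFn.some {f : γ → α} (hf : PolyFn f) : PolyFn (fun c => some (f c)) :=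
  PolyFn.ofT (((PolyFn.const T.nil).pair hf.toT).toT) (fun _ => rfl)

theorem isNode_enc_list (l : List α) : isNode (enc l) = !l.isEmpty := by
  cases l <;> rfl

theorem PolyFn.isEmpty {l : γ → List α} (hl : PolyFn l) : PolyFn (fun c => (l c).isEmpty) :=
  (poly_isNode.comp hl.toT).not.of_eq fun a => by rw [isNode_enc_list]; simp

theorem left_enc_head (l : List α) (h : l ≠ []) : left (enc l) = enc (l.head h) := by
  cases l with
  | nil => exact absurd rfl h
  | cons a t => rfl

theorem right_enc_get (o : Option α) (h : o.isSome = true) : right (enc o) = enc (o.get h) := by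
  cases o with
  | none => simp at h
  | some a => rfl

theorem PolyFn.listCase {l : γ → List α} {f : γ → β} {g : γ → α → List α → β} (hl : PolyFn l)
    (hf : PolyFn f) (hg : PolyFn fun p : γ × α × List α => g p.1 p.2.1 p.2.2) {F : γ → β}
    (h0 : ∀ c, l c = [] → F c = f c) (h1 : ∀ c a t, l c = a :: t → F c = g c a t) : PolyFn F := by
  have hh : PolyFn (fun c : {c // (l c).isEmpty = false} =>
      (l c.1).head (by have := c.2; intro h; simp [h] at this)) :=
    PolyFn.ofT (poly_left.comp (hl.restrict.toT)) (fun c => left_enc_head _ _)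
  refine PolyFn.dcond (f := fun c => f c.1) (g := fun c => g c.1 ((l c.1).head (by
    have := c.2; intro h; simp [h] at this)) (l c.1).tail) hl.isEmpty hf.restrict
    (hg.comp (PolyFn.val.pair (hh.pair hl.restrict.tail))) ?_ ?_
  · intro c h
    exact h0 c (by simpa using h)
  · intro c h
    exact h1 c _ _ (List.cons_head_tail _).symm

theorem PolyFn.optionCase {l : γ → Option α} {f : γ → β} {g : γ → α → β} (hl : PolyFn l)
    (hf : PolyFn f) (hg : PolyFn fun p : γ × α => g p.1 p.2) {F : γ → β}
    (h0 : ∀ c, l c = none → F c = f c) (h1 : ∀ c a, l c = .some a → F c = g c a) : PolyFn F := by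
  have hsome : PolyFn (fun c => (l c).isSome) :=
    (poly_isNode.comp hl.toT).of_eq fun a => by cases l a <;> rfl
  have hh : PolyFn (fun c : {c // (l c).isSome = true} => (l c.1).get c.2) :=
    PolyFn.ofT (poly_right.comp (hl.restrict.toT)) (fun c => right_enc_get _ _)
  refine PolyFn.dcond (f := fun c => g c.1 ((l c.1).get c.2)) (g := fun c => f c.1) hsome
    (hg.comp (PolyFn.val.pair hh)) hf.restrict ?_ ?_
  · intro c h
    exact h1 c _ (Option.some_get _).symm
  · intro c h
    exact h0 c (by simpa using h)

/-! ### Iteration -/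

/-- The counter-controlled step. -/
def cstep (step : γ → α → α) : ℕ × γ × α → ℕ × γ × α
  | (0, c, a) => (0, c, a)
  | (n + 1, c, a) => (n, c, step c a)

omit [Enc α] [Enc γ] in
theorem cstep_iter (step : γ → α → α) (n : ℕ) (c : γ) : ∀ (i : ℕ) (a : α),
    (cstep step)^[i] (n, c, a) = (n - i, c, (step c)^[min i n] a)
  | 0, a => by simp
  | i + 1, a => by
    rw [Function.iterate_succ_apply', cstep_iter step n c i a]
    rcases Nat.lt_or_ge i n with h | h
    · obtain ⟨k, hk⟩ : ∃ k, n - i = k + 1 := ⟨n - i - 1, by omega⟩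
      rw [hk, min_eq_left h.le, min_eq_left (by omega)]
      simp only [cstep]
      rw [Function.iterate_succ_apply']
      rw [show n - (i + 1) = k by omega]
    · rw [show n - i = 0 by omega, min_eq_right h, min_eq_right (by omega)]
      simp only [cstep]
      rw [show n - (i + 1) = 0 by omega]

theorem PolyFn.iterate {step : γ → α → α} {init : γ → α} {cnt : γ → ℕ}
    (hs : PolyFn fun p : γ × α => step p.1 p.2) (hi : PolyFn init) (hc : PolyFn cnt)
    (hb : ∃ q : ℕ → ℕ, PB q ∧ ∀ c, ∀ i ≤ cnt c, size ((step c)^[i] (init c)) ≤ q (size c)) :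
    PolyFn (fun c => (step c)^[cnt c] (init c)) := by
  have hcs : PolyFn (cstep step) := by
    refine PolyFn.natCase (n := fun p : ℕ × γ × α => p.1) (f := fun p => p)
      (g := fun p n => (n, p.2.1, step p.2.1 p.2.2)) PolyFn.fst PolyFn.id ?_ ?_ ?_
    · refine PolyFn.snd.pair ?_
      have h2 : PolyFn (fun p : (ℕ × γ × α) × ℕ => p.1.2) := PolyFn.snd.comp PolyFn.fst
      exact (PolyFn.fst.comp h2).pair (hs.comp h2)
    · rintro ⟨n, c, a⟩ h
      change n = 0 at h
      subst h; rfl
    · rintro ⟨n, c, a⟩ k h
      change n = k + 1 at h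
      subst h; rfl
  have hin : PolyFn (fun c => (cnt c, c, init c)) := hc.pair (PolyFn.id.pair hi)
  obtain ⟨cs, hcs', hcsz⟩ := hc.size_le
  obtain ⟨q, hq, hqb⟩ := hb
  have := PolyFn.iter hcs hin ⟨fun n => cs n + (n + q n + 1) + 1,
    (hcs'.add ((PB.id.add hq).add (PB.const 1))).add (PB.const 1), fun c i _ => by
      rw [cstep_iter]
      simp only [size_prod]
      have h1 := hqb c (min i (cnt c)) (min_le_right _ _)
      have h2 := hcsz c
      simp only [size_nat] at h2 ⊢
      omega⟩
  refine ((PolyFn.snd.comp PolyFn.snd).comp this).of_eq fun c => ?_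
  show ((cstep step)^[size (cnt c, c, init c)] (cnt c, c, init c)).2.2 = _
  rw [cstep_iter]
  show (step c)^[min _ (cnt c)] (init c) = _
  rw [min_eq_right]
  simp only [size_prod, size_nat]
  omega

/-! ### Sizes of lists -/

theorem length_le_size (l : List α) : l.length ≤ size l := by
  induction l with
  | nil => simp
  | cons a l ih => simp only [List.length_cons, size_list_cons]; omega

theorem size_le_of_mem {l : List α} {a : α} (h : a ∈ l) : size a ≤ size l := by
  induction l with
  | nil => simp at h
  | cons b l ih =>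
    simp only [size_list_cons]
    rcases List.mem_cons.1 h with h | h
    · subst h; omega
    · have := ih h; omega

theorem size_append (l l' : List α) : size (l ++ l') + 1 = size l + size l' := by
  induction l with
  | nil => simp; omega
  | cons a l ih => simp only [List.cons_append, size_list_cons]; omega

theorem size_reverse (l : List α) : size l.reverse = size l := by
  induction l with
  | nil => simp
  | cons a l ih =>
    have := size_append l.reverse [a]
    simp only [List.reverse_cons, size_list_cons, size_list_nil] at this ⊢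
    omega

theorem size_list_le {l : List α} {B : ℕ} (h : ∀ a ∈ l, size a ≤ B) :
    size l ≤ l.length * (B + 1) + 1 := by
  induction l with
  | nil => simp
  | cons a l ih =>
    have h1 := h a (by simp)
    have h2 := ih (fun b hb => h b (by simp [hb]))
    simp only [size_list_cons, List.length_cons]
    nlinarith

/-- The list-controlled step. -/
def lstep (step : γ → β → α → β) : List α × γ × β → List α × γ × β
  | ([], c, b) => ([], c, b)
  | (a :: t, c, b) => (t, c, step c b a)

omit [Enc α] [Enc β] [Enc γ] in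
theorem lstep_iter (step : γ → β → α → β) (c : γ) : ∀ (i : ℕ) (l : List α) (b : β),
    (lstep step)^[i] (l, c, b) = (l.drop i, c, (l.take i).foldl (step c) b)
  | 0, l, b => by simp
  | i + 1, [], b => by
    rw [Function.iterate_succ_apply]
    show (lstep step)^[i] ([], c, b) = _
    rw [lstep_iter step c i [] b]
    simp
  | i + 1, a :: l, b => by
    rw [Function.iterate_succ_apply]
    show (lstep step)^[i] (l, c, step c b a) = _
    rw [lstep_iter step c i l _]
    simp

theorem size_drop_le (l : List α) (i : ℕ) : size (l.drop i) ≤ size l := by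
  induction i generalizing l with
  | zero => simp
  | succ i ih =>
    cases l with
    | nil => simp
    | cons a l =>
      have := ih l
      simp only [List.drop_succ_cons, size_list_cons]
      omega

theorem PolyFn.foldl {step : γ → β → α → β} {init : γ → β} {l : γ → List α}
    (hs : PolyFn fun p : γ × β × α => step p.1 p.2.1 p.2.2) (hi : PolyFn init) (hl : PolyFn l)
    (hb : ∃ q : ℕ → ℕ, PB q ∧ ∀ c, ∀ i ≤ (l c).length,
      size (((l c).take i).foldl (step c) (init c)) ≤ q (size c)) :
    PolyFn (fun c => (l c).foldl (step c) (init c)) := by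
  have hls : PolyFn (lstep step) := by
    refine PolyFn.listCase (l := fun p : List α × γ × β => p.1) (f := fun p => p)
      (g := fun p a t => (t, p.2.1, step p.2.1 p.2.2 a)) PolyFn.fst PolyFn.id ?_ ?_ ?_
    · have h1 : PolyFn (fun p : (List α × γ × β) × α × List α => p.2.2) := PolyFn.snd.comp PolyFn.snd
      have h2 : PolyFn (fun p : (List α × γ × β) × α × List α => p.1.2) := PolyFn.snd.comp PolyFn.fst
      have h3 : PolyFn (fun p : (List α × γ × β) × α × List α => p.2.1) := PolyFn.fst.comp PolyFn.snd
      exact h1.pair ((PolyFn.fst.comp h2).pair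
        (hs.comp ((PolyFn.fst.comp h2).pair ((PolyFn.snd.comp h2).pair h3))))
    · rintro ⟨t, c, b⟩ h
      change t = [] at h
      subst h; rfl
    · rintro ⟨t, c, b⟩ a t' h
      change t = a :: t' at h
      subst h; rfl
  have hin : PolyFn (fun c => (l c, c, init c)) := hl.pair (PolyFn.id.pair hi)
  obtain ⟨ls, hls', hlsz⟩ := hl.size_le
  obtain ⟨q, hq, hqb⟩ := hb
  have := PolyFn.iter hls hin ⟨fun n => ls n + (n + q n + 1) + 1,
    (hls'.add ((PB.id.add hq).add (PB.const 1))).add (PB.const 1), fun c i _ => by
      rw [lstep_iter]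
      simp only [size_prod]
      have h2 := hlsz c
      have h3 := size_drop_le (l c) i
      rcases le_total i (l c).length with h | h
      · have h1 := hqb c i h
        omega
      · rw [List.take_of_length_le h]
        have h1 := hqb c (l c).length le_rfl
        rw [List.take_length] at h1
        omega⟩
  refine ((PolyFn.snd.comp PolyFn.snd).comp this).of_eq fun c => ?_
  show ((lstep step)^[size (l c, c, init c)] (l c, c, init c)).2.2 = _
  rw [lstep_iter]
  show ((l c).take _).foldl _ _ = _
  rw [List.take_of_length_le]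
  have := length_le_size (l c)
  simp only [size_prod]
  omega

end Pool.Agent.PolyTime
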