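import Pool.Agent.Lib.PolyTime.Cmd

/-!
# Translation of stack programs into `Turing.TM2` machines
-/

namespace Pool.Agent.PolyTime

open Turing

/-- Labels (program points) of a stack program. -/
def Lab : Cmd → Type
  | .skip => Unit
  | .push _ _ => Unit
  | .pop _ => Unit
  | .seq c d => Lab c ⊕ Lab d
  | .cas _ cn cf ct => Unit ⊕ (Lab cn ⊕ (Lab cf ⊕ Lab ct))
  | .loop _ c => Unit ⊕ Lab c

noncomputable instance Lab.fintype : ∀ c : Cmd, Fintype (Lab c)
  | .skip => inferInstanceAs (Fintype Unit)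
  | .push _ _ => inferInstanceAs (Fintype Unit)
  | .pop _ => inferInstanceAs (Fintype Unit)
  | .seq c d =>
    letI := Lab.fintype c
    letI := Lab.fintype d
    inferInstanceAs (Fintype (Lab c ⊕ Lab d))
  | .cas _ cn cf ct =>
    letI := Lab.fintype cn
    letI := Lab.fintype cf
    letI := Lab.fintype ct
    inferInstanceAs (Fintype (Unit ⊕ (Lab cn ⊕ (Lab cf ⊕ Lab ct))))
  | .loop _ c =>
    letI := Lab.fintype c
    inferInstanceAs (Fintype (Unit ⊕ Lab c))

/-- The entry point of a program. -/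
def entry : (c : Cmd) → Lab c
  | .skip => ()
  | .push _ _ => ()
  | .pop _ => ()
  | .seq c _ => Sum.inl (entry c)
  | .cas _ _ _ _ => Sum.inl ()
  | .loop _ _ => Sum.inl ()

/-- The alphabets of the stacks: the input stack `none` has alphabet `A`, the others hold bits. -/
abbrev Gam (A : Type) (n : ℕ) : Option (Fin (n + 1)) → Type
  | none => A
  | some _ => Bool

/-- The internal memory of the machine. -/
abbrev Mem (A : Type) := Option A × Option Bool

/-- The stack with index `k`. -/
abbrev idx (n k : ℕ) : Option (Fin (n + 1)) := some (Fin.ofNat (n + 1) k)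

theorem idx_inj {n i j : ℕ} (hi : i ≤ n) (hj : j ≤ n) (h : idx n i = idx n j) : i = j := by
  unfold idx at h
  have h1 : (Fin.ofNat (n + 1) i) = Fin.ofNat (n + 1) j := Option.some.inj h
  have h2 := congrArg Fin.val h1
  simp only [Fin.val_ofNat] at h2
  rw [Nat.mod_eq_of_lt (by omega), Nat.mod_eq_of_lt (by omega)] at h2
  exact h2

variable {A : Type} {n : ℕ} {L : Type}

/-- The statement attached to each program point. -/
def codeOf (A : Type) (n : ℕ) {L : Type} : (c : Cmd) → (Lab c → L) → L → Lab c →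
    TM2.Stmt (Gam A n) L (Mem A)
  | .skip, _, x, _ => TM2.Stmt.goto fun _ => x
  | .push k b, _, x, _ => TM2.Stmt.push (idx n k) (fun _ => b) (TM2.Stmt.goto fun _ => x)
  | .pop k, _, x, _ => TM2.Stmt.pop (idx n k) (fun v _ => v) (TM2.Stmt.goto fun _ => x)
  | .seq c d, e, _, Sum.inl l => codeOf A n c (fun l => e (Sum.inl l)) (e (Sum.inr (entry d))) l
  | .seq _ d, e, x, Sum.inr l => codeOf A n d (fun l => e (Sum.inr l)) x l
  | .cas k cn cf ct, e, _, Sum.inl _ =>
    TM2.Stmt.peek (idx n k) (fun v b => (v.1, b)) (TM2.Stmt.goto fun v =>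
      match v.2 with
      | none => e (Sum.inr (Sum.inl (entry cn)))
      | some false => e (Sum.inr (Sum.inr (Sum.inl (entry cf))))
      | some true => e (Sum.inr (Sum.inr (Sum.inr (entry ct)))))
  | .cas _ cn _ _, e, x, Sum.inr (Sum.inl l) =>
    codeOf A n cn (fun l => e (Sum.inr (Sum.inl l))) x l
  | .cas _ _ cf _, e, x, Sum.inr (Sum.inr (Sum.inl l)) =>
    codeOf A n cf (fun l => e (Sum.inr (Sum.inr (Sum.inl l)))) x l
  | .cas _ _ _ ct, e, x, Sum.inr (Sum.inr (Sum.inr l)) =>
    codeOf A n ct (fun l => e (Sum.inr (Sum.inr (Sum.inr l)))) x l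
  | .loop k c, e, x, Sum.inl _ =>
    TM2.Stmt.peek (idx n k) (fun v b => (v.1, b)) (TM2.Stmt.goto fun v =>
      match v.2 with
      | none => x
      | some _ => e (Sum.inr (entry c)))
  | .loop _ c, e, _, Sum.inr l =>
    codeOf A n c (fun l => e (Sum.inr l)) (e (Sum.inl ())) l

/-- Agreement of a machine stack configuration with a state. -/
def Agree (n : ℕ) (s : St) (S : ∀ k, List (Gam A n k)) : Prop :=
  S none = [] ∧ ∀ i ≤ n, S (idx n i) = s i

theorem Agree.update {s : St} {S : ∀ k, List (Gam A n k)} (h : Agree n s S) {k : ℕ} (hk : k ≤ n)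
    (l : List Bool) : Agree n (Function.update s k l) (Function.update S (idx n k) l) := by
  refine ⟨?_, ?_⟩
  · rw [Function.update_of_ne (by simp [idx])]; exact h.1
  · intro i hi
    by_cases hik : i = k
    · subst hik; simp
    · rw [Function.update_of_ne hik, Function.update_of_ne (fun h' => hik (idx_inj hi hk h'))]
      exact h.2 i hi

theorem iter_add {σ : Type*} (f : σ → Option σ) {a b : σ} {c : Option σ} {m k : ℕ}
    (h : (flip bind f)^[m] (some a) = some b) (h' : (flip bind f)^[k] (some b) = c) :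
    (flip bind f)^[m + k] (some a) = c := by
  rw [add_comm, Function.iterate_add_apply, h, h']

theorem iter_head {σ : Type*} (f : σ → Option σ) {a b : σ} {c : Option σ} {k : ℕ}
    (h : f a = some b) (h' : (flip bind f)^[k] (some b) = c) :
    (flip bind f)^[k + 1] (some a) = c := by
  rw [Function.iterate_succ_apply, ← h']
  exact congrArg _ h

theorem iter_one {σ : Type*} (f : σ → Option σ) (a : σ) :
    (flip bind f)^[1] (some a) = f a := rfl

theorem sim {M : L → TM2.Stmt (Gam A n) L (Mem A)} {c : Cmd} {s s' : St} {t : ℕ}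
    (h : Ex c s s' t) : ∀ (e : Lab c → L) (x : L), (∀ l, M (e l) = codeOf A n c e x l) →
    c.Bdd n → ∀ (v : Mem A) (S : ∀ k, List (Gam A n k)), Agree n s S →
    ∃ (v' : Mem A) (S' : ∀ k, List (Gam A n k)), Agree n s' S' ∧
      (flip bind (TM2.step M))^[t] (some ⟨some (e (entry c)), v, S⟩) = some ⟨some x, v', S'⟩ := by
  induction h with
  | skip s =>
    intro e x hM hb v S hS
    exact ⟨v, S, hS, by rw [iter_one]; simp [TM2.step, hM, codeOf]⟩
  | push s k b =>
    intro e x hM hb v S hS
    refine ⟨v, Function.update S (idx n k) (b :: S (idx n k)), ?_, ?_⟩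
    · rw [hS.2 k hb]; exact hS.update hb _
    · rw [iter_one]; simp only [TM2.step, hM, codeOf, TM2.stepAux]
  | pop s k =>
    intro e x hM hb v S hS
    refine ⟨v, Function.update S (idx n k) (S (idx n k)).tail, ?_, ?_⟩
    · rw [hS.2 k hb]; exact hS.update hb _
    · rw [iter_one]; simp only [TM2.step, hM, codeOf, TM2.stepAux]
  | @seq c d s s' s'' t t' h h' ih ih' =>
    intro e x hM hb v S hS
    obtain ⟨v', S', hS', h1⟩ := ih (fun l => e (Sum.inl l)) (e (Sum.inr (entry d)))
      (fun l => hM (Sum.inl l)) hb.1 v S hS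
    obtain ⟨v'', S'', hS'', h2⟩ := ih' (fun l => e (Sum.inr l)) x
      (fun l => hM (Sum.inr l)) hb.2 v' S' hS'
    exact ⟨v'', S'', hS'', iter_add _ h1 h2⟩
  | @casN k cn cf ct s s' t hk h ih =>
    intro e x hM hb v S hS
    obtain ⟨v', S', hS', h1⟩ := ih (fun l => e (Sum.inr (Sum.inl l))) x
      (fun l => hM (Sum.inr (Sum.inl l))) hb.2.1 (v.1, none) S hS
    refine ⟨v', S', hS', iter_head _ ?_ h1⟩
    have : S (idx n k) = [] := by rw [hS.2 k hb.1, hk]
    simp only [TM2.step, entry, hM, codeOf, TM2.stepAux, this]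
    rfl
  | @casF k cn cf ct s s' t l hk h ih =>
    intro e x hM hb v S hS
    obtain ⟨v', S', hS', h1⟩ := ih (fun l => e (Sum.inr (Sum.inr (Sum.inl l)))) x
      (fun l => hM (Sum.inr (Sum.inr (Sum.inl l)))) hb.2.2.1 (v.1, some false) S hS
    refine ⟨v', S', hS', iter_head _ ?_ h1⟩
    have : S (idx n k) = false :: l := by rw [hS.2 k hb.1, hk]
    simp only [TM2.step, entry, hM, codeOf, TM2.stepAux, this]
    rfl
  | @casT k cn cf ct s s' t l hk h ih =>
    intro e x hM hb v S hS
    obtain ⟨v', S', hS', h1⟩ := ih (fun l => e (Sum.inr (Sum.inr (Sum.inr l)))) x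
      (fun l => hM (Sum.inr (Sum.inr (Sum.inr l)))) hb.2.2.2 (v.1, some true) S hS
    refine ⟨v', S', hS', iter_head _ ?_ h1⟩
    have : S (idx n k) = true :: l := by rw [hS.2 k hb.1, hk]
    simp only [TM2.step, entry, hM, codeOf, TM2.stepAux, this]
    rfl
  | @loopD k c s hk =>
    intro e x hM hb v S hS
    refine ⟨(v.1, none), S, hS, ?_⟩
    rw [iter_one]
    have : S (idx n k) = [] := by rw [hS.2 k hb.1, hk]
    simp only [TM2.step, entry, hM, codeOf, TM2.stepAux, this]
    rfl
  | @loopS k c s s' s'' t t' hk h h' ih ih' =>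
    intro e x hM hb v S hS
    obtain ⟨b, l, hl⟩ : ∃ b l, s k = b :: l := List.exists_cons_of_ne_nil hk
    obtain ⟨v', S', hS', h1⟩ := ih (fun l => e (Sum.inr l)) (e (Sum.inl ()))
      (fun l => hM (Sum.inr l)) hb.2 (v.1, some b) S hS
    obtain ⟨v'', S'', hS'', h2⟩ := ih' e x hM hb v' S' hS'
    refine ⟨v'', S'', hS'', iter_head _ ?_ (iter_add _ h1 h2)⟩
    have : S (idx n k) = b :: l := by rw [hS.2 k hb.1, hl]
    simp only [TM2.step, entry, hM, codeOf, TM2.stepAux, this]
    rfl

end Pool.Agent.PolyTime
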