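import Pool.Agent.Lib.PolyTime.Words

/-!
# Systems of distinct representatives in polynomial time

`sdr U A` decides whether the lists in `A` (all whose elements lie in `U`) have distinct
representatives.  The procedure repeatedly lets every list choose a least used element.
-/

namespace Pool.Agent.PolyTime

/-- The number of occurrences. -/
def cnt (h : List ℕ) (e : ℕ) : ℕ := (h.filter fun x => decide (x = e)).length

/-- The least used element of a list. -/
def best (h : List ℕ) (a : List ℕ) : ℕ :=
  a.foldl (fun b e => if cnt h e < cnt h b then e else b) (a.headD 0)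

/-- One round. -/
def sround (A : List (List ℕ)) (h : List ℕ) : List ℕ := (A.map fun a => best h a) ++ h

/-- The number of rounds. -/
def rounds (U : List ℕ) (A : List (List ℕ)) : ℕ :=
  A.length * A.length * (A.length * A.length + U.length) + 1

/-- The decision procedure. -/
def sdr (U : List ℕ) (A : List (List ℕ)) : Bool :=
  (A.all fun a => !a.isEmpty) &&
    U.all fun e => decide (cnt ((sround A)^[rounds U A] []) e * A.length <
      rounds U A * (A.length + 1))

/-! ### Analysis -/

theorem foldl_best (h : List ℕ) (l : List ℕ) (b : ℕ) :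
    (l.foldl (fun b e => if cnt h e < cnt h b then e else b) b = b ∨
      l.foldl (fun b e => if cnt h e < cnt h b then e else b) b ∈ l) ∧
    cnt h (l.foldl (fun b e => if cnt h e < cnt h b then e else b) b) ≤ cnt h b ∧
    ∀ x ∈ l, cnt h (l.foldl (fun b e => if cnt h e < cnt h b then e else b) b) ≤ cnt h x := by
  induction l generalizing b with
  | nil => simp
  | cons a l ih =>
    simp only [List.foldl_cons]
    obtain ⟨h1, h2, h3⟩ := ih (if cnt h a < cnt h b then a else b)
    refine ⟨?_, ?_, ?_⟩
    · rcases h1 with h1 | h1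
      · rw [h1]
        split_ifs
        · right; simp
        · left; rfl
      · right; exact List.mem_cons_of_mem _ h1
    · refine h2.trans ?_
      split_ifs with h4
      · exact h4.le
      · exact le_rfl
    · intro x hx
      rcases List.mem_cons.1 hx with rfl | hx
      · refine h2.trans ?_
        split_ifs with h4
        · exact le_rfl
        · exact not_lt.1 h4
      · exact h3 x hx

theorem best_mem (h : List ℕ) {a : List ℕ} (ha : a ≠ []) : best h a ∈ a := by
  obtain ⟨x, l, rfl⟩ := List.exists_cons_of_ne_nil ha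
  unfold best
  rcases (foldl_best h (x :: l) ((x :: l).headD 0)).1 with h1 | h1
  · rw [h1]; simp
  · exact h1

theorem best_le (h : List ℕ) {a : List ℕ} {x : ℕ} (hx : x ∈ a) : cnt h (best h a) ≤ cnt h x :=
  (foldl_best h a (a.headD 0)).2.2 x hx

theorem cnt_append (l h : List ℕ) (e : ℕ) : cnt (l ++ h) e = cnt l e + cnt h e := by
  simp [cnt]

theorem cnt_map (A : List (List ℕ)) (g : List ℕ → ℕ) (e : ℕ) :
    cnt (A.map g) e = (Finset.univ.filter fun i : Fin A.length => g (A.get i) = e).card := by
  have h1 : A.map g = List.ofFn (fun i : Fin A.length => g (A.get i)) := by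
    apply List.ext_getElem
    · simp
    · intro i h1 h2
      simp
  rw [h1]
  unfold cnt
  rw [List.ofFn_eq_map, List.filter_map, List.length_map]
  have h2 : (Finset.univ.filter fun i : Fin A.length => g (A.get i) = e) =
      ((List.finRange A.length).filter
        ((fun x => decide (x = e)) ∘ fun i => g (A.get i))).toFinset := by
    ext i; simp
  rw [h2, List.toFinset_card_of_nodup ((List.nodup_finRange _).filter _)]

section analysis

variable {U : List ℕ} {A : List (List ℕ)}

theorem sround_iter (t : ℕ) (e : ℕ) : cnt ((sround A)^[t + 1] []) e =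
    (Finset.univ.filter fun i : Fin A.length => best ((sround A)^[t] []) (A.get i) = e).card +
      cnt ((sround A)^[t] []) e := by
  rw [Function.iterate_succ_apply', sround, cnt_append, cnt_map]

/-- The loads on the elements available to a set of lists. -/
theorem loads_ge (hne : ∀ a ∈ A, a ≠ []) (S : Finset (Fin A.length)) (W : Finset ℕ)
    (hW : ∀ i ∈ S, ∀ x ∈ A.get i, x ∈ W) (t : ℕ) :
    t * S.card ≤ ∑ e ∈ W, cnt ((sround A)^[t] []) e := by
  induction t with
  | zero => simp
  | succ t ih =>
    rw [Finset.sum_congr rfl (fun e _ => sround_iter t e), Finset.sum_add_distrib]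
    have h1 : S.card ≤ ∑ e ∈ W, (Finset.univ.filter fun i : Fin A.length =>
        best ((sround A)^[t] []) (A.get i) = e).card := by
      have h2 : S.card = ∑ e ∈ W, (S.filter fun i => best ((sround A)^[t] []) (A.get i) = e).card :=
        Finset.card_eq_sum_card_fiberwise (fun i hi =>
          hW i hi _ (best_mem _ (hne _ (List.get_mem _ _))))
      rw [h2]
      refine Finset.sum_le_sum fun e _ => Finset.card_le_card ?_
      intro i hi
      simp only [Finset.mem_filter, Finset.mem_univ, true_and] at hi ⊢
      exact hi.2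
    rw [Nat.succ_mul]
    omega

theorem load_entry (c t x : ℕ) :
    (c + x - (t + 1)) ^ 2 + 2 * (c - t) ≤ (c - t) ^ 2 + 2 * ((c - t) * x) + x ^ 2 + 1 := by
  obtain ⟨w, hw⟩ : ∃ w, w = c - t := ⟨_, rfl⟩
  obtain ⟨y, hy⟩ : ∃ y, y = c + x - (t + 1) := ⟨_, rfl⟩
  rw [← hw, ← hy]
  rcases Nat.lt_or_ge c t with h | h
  · have hw0 : w = 0 := by omega
    have hyx : y ≤ x := by omega
    subst hw0
    have := Nat.pow_le_pow_left hyx 2
    omega
  · rcases Nat.eq_zero_or_pos (w + x) with h0 | h0
    · have hw0 : w = 0 := by omega
      have hx0 : x = 0 := by omega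
      have hy0 : y = 0 := by omega
      subst hw0 hx0
      rw [hy0]
      simp
    · have h1 : y + 1 = w + x := by omega
      zify at h1 ⊢
      have h2 : (y : ℤ) = w + x - 1 := by linarith
      have h3 : (0 : ℤ) ≤ w := Int.natCast_nonneg _
      have h4 : (0 : ℤ) ≤ x := Int.natCast_nonneg _
      rw [h2]
      nlinarith

theorem pot_le (hne : ∀ a ∈ A, a ≠ []) (hU : ∀ a ∈ A, ∀ x ∈ a, x ∈ U) {f : Fin A.length → ℕ}
    (hf : Function.Injective f) (hfA : ∀ i, f i ∈ A.get i) (t : ℕ) :
    ∑ e ∈ U.toFinset, (cnt ((sround A)^[t] []) e - t) ^ 2 ≤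
      t * (A.length * A.length + U.length) := by
  induction t with
  | zero => simp [cnt]
  | succ t ih =>
    obtain ⟨h, hh⟩ : ∃ h, h = (sround A)^[t] [] := ⟨_, rfl⟩
    obtain ⟨x, hx⟩ : ∃ x : ℕ → ℕ, ∀ e, x e = (Finset.univ.filter fun i : Fin A.length =>
      best h (A.get i) = e).card := ⟨_, fun _ => rfl⟩
    have hstep : ∀ e, cnt ((sround A)^[t + 1] []) e = cnt h e + x e := by
      intro e
      rw [sround_iter, ← hh, ← hx, add_comm]
    rw [← hh] at ih
    have hmaps : ∀ i : Fin A.length, best h (A.get i) ∈ U.toFinset := fun i =>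
      List.mem_toFinset.2 (hU _ (List.get_mem _ _) _ (best_mem _ (hne _ (List.get_mem _ _))))
    -- weighted sum of the choices
    have hwx : ∑ e ∈ U.toFinset, (cnt h e - t) * x e =
        ∑ i : Fin A.length, (cnt h (best h (A.get i)) - t) := by
      rw [← Finset.sum_fiberwise_of_maps_to (s := Finset.univ) (t := U.toFinset)
        (g := fun i => best h (A.get i)) (fun i _ => hmaps i)]
      refine Finset.sum_congr rfl fun e _ => ?_
      rw [Finset.sum_congr rfl (g := fun _ => cnt h e - t), Finset.sum_const, smul_eq_mul, hx,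
        mul_comm]
      intro i hi
      rw [(Finset.mem_filter.1 hi).2]
    have hle1 : ∑ i : Fin A.length, (cnt h (best h (A.get i)) - t) ≤
        ∑ i : Fin A.length, (cnt h (f i) - t) :=
      Finset.sum_le_sum fun i _ => Nat.sub_le_sub_right (best_le h (hfA i)) t
    have hle2 : ∑ i : Fin A.length, (cnt h (f i) - t) ≤ ∑ e ∈ U.toFinset, (cnt h e - t) := by
      have h1 : ∑ i : Fin A.length, (cnt h (f i) - t) =
          ∑ e ∈ Finset.univ.image f, (cnt h e - t) := by
        rw [Finset.sum_image (fun a _ b _ hab => hf hab)]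
      rw [h1]
      refine Finset.sum_le_sum_of_subset ?_
      intro e he
      obtain ⟨i, -, rfl⟩ := Finset.mem_image.1 he
      exact List.mem_toFinset.2 (hU _ (List.get_mem _ _) _ (hfA i))
    have hsumx : ∑ e ∈ U.toFinset, x e = A.length := by
      have h1 := Finset.card_eq_sum_card_fiberwise (s := (Finset.univ : Finset (Fin A.length)))
        (t := U.toFinset) (f := fun i => best h (A.get i)) (fun i _ => hmaps i)
      rw [Finset.card_univ, Fintype.card_fin] at h1
      rw [h1]
      exact Finset.sum_congr rfl fun e _ => hx e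
    have hsqx : ∑ e ∈ U.toFinset, x e ^ 2 ≤ A.length * A.length := by
      have h1 : ∀ e ∈ U.toFinset, x e ≤ A.length := by
        intro e he
        rw [← hsumx]
        exact Finset.single_le_sum (f := x) (fun _ _ => Nat.zero_le _) he
      calc ∑ e ∈ U.toFinset, x e ^ 2 ≤ ∑ e ∈ U.toFinset, A.length * x e :=
            Finset.sum_le_sum fun e he => by rw [sq]; exact Nat.mul_le_mul_right _ (h1 e he)
        _ = A.length * A.length := by rw [← Finset.mul_sum, hsumx]
    have hcardU : U.toFinset.card ≤ U.length := List.toFinset_card_le U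
    have hmain : ∑ e ∈ U.toFinset, ((cnt ((sround A)^[t + 1] []) e - (t + 1)) ^ 2 +
        2 * (cnt h e - t)) ≤ ∑ e ∈ U.toFinset, ((cnt h e - t) ^ 2 + 2 * ((cnt h e - t) * x e) +
          x e ^ 2 + 1) :=
      Finset.sum_le_sum fun e _ => by
        rw [hstep]
        exact load_entry _ _ _
    simp only [Finset.sum_add_distrib, ← Finset.mul_sum, Finset.sum_const, smul_eq_mul,
      mul_one] at hmain
    rw [hwx] at hmain
    rw [Nat.succ_mul]
    omega

theorem sdr_iff (hU : ∀ a ∈ A, ∀ x ∈ a, x ∈ U) :
    sdr U A = true ↔ ∃ f : Fin A.length → ℕ, Function.Injective f ∧ ∀ i, f i ∈ A.get i := by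
  classical
  unfold sdr
  rw [Bool.and_eq_true, List.all_eq_true, List.all_eq_true]
  constructor
  · rintro ⟨h1, h2⟩
    have hne : ∀ a ∈ A, a ≠ [] := by
      intro a ha h
      have := h1 a ha
      simp [h] at this
    have hall := (Finset.all_card_le_biUnion_card_iff_exists_injective
      (fun i : Fin A.length => (A.get i).toFinset)).1 ?_
    · obtain ⟨f, hf, hfA⟩ := hall
      exact ⟨f, hf, fun i => List.mem_toFinset.1 (hfA i)⟩
    · intro S
      by_contra hcon
      push Not at hcon
      obtain ⟨W, hW⟩ : ∃ W, W = S.biUnion fun i => (A.get i).toFinset := ⟨_, rfl⟩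
      rw [← hW] at hcon
      obtain ⟨T, hT⟩ : ∃ T, T = rounds U A := ⟨_, rfl⟩
      have hTpos : 0 < T := by rw [hT]; unfold rounds; omega
      have hge := loads_ge hne S W (by
        intro i hi x hx
        rw [hW]
        exact Finset.mem_biUnion.2 ⟨i, hi, List.mem_toFinset.2 hx⟩) T
      have hlt : ∀ e ∈ W, cnt ((sround A)^[T] []) e * A.length < T * (A.length + 1) := by
        intro e he
        rw [hW] at he
        obtain ⟨i, _, hi⟩ := Finset.mem_biUnion.1 he
        have := h2 e (hU _ (List.get_mem _ _) e (List.mem_toFinset.1 hi))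
        rw [decide_eq_true_eq] at this
        rw [hT]
        exact this
      have hSle : S.card ≤ A.length := by
        have := Finset.card_le_univ S
        rwa [Fintype.card_fin] at this
      have hWne : W.Nonempty := by
        have hSne : S.Nonempty := by rw [← Finset.card_pos]; omega
        obtain ⟨i, hi⟩ := hSne
        obtain ⟨x, hx⟩ := List.exists_mem_of_ne_nil _ (hne _ (List.get_mem A i))
        exact ⟨x, by rw [hW]; exact Finset.mem_biUnion.2 ⟨i, hi, List.mem_toFinset.2 hx⟩⟩
      have h3 : (∑ e ∈ W, cnt ((sround A)^[T] []) e) * A.length <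
          W.card * (T * (A.length + 1)) := by
        rw [Finset.sum_mul, ← smul_eq_mul (W.card), ← Finset.sum_const]
        exact Finset.sum_lt_sum_of_nonempty hWne hlt
      have h4 : T * S.card * A.length ≤ (∑ e ∈ W, cnt ((sround A)^[T] []) e) * A.length :=
        Nat.mul_le_mul_right _ hge
      have h5 : W.card * (T * (A.length + 1)) ≤ (S.card - 1) * (T * (A.length + 1)) :=
        Nat.mul_le_mul_right _ (by omega)
      obtain ⟨r, hr⟩ : ∃ r, S.card = r + 1 := ⟨S.card - 1, by omega⟩
      rw [hr] at h4 h5 hSle
      have h6 : T * ((r + 1) * A.length) < T * (r * (A.length + 1)) := by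
        calc T * ((r + 1) * A.length) = T * (r + 1) * A.length := by ring
          _ < (r + 1 - 1) * (T * (A.length + 1)) := lt_of_le_of_lt h4 (lt_of_lt_of_le h3 h5)
          _ = T * (r * (A.length + 1)) := by rw [Nat.add_sub_cancel]; ring
      have h7 := Nat.lt_of_mul_lt_mul_left h6
      nlinarith
  · rintro ⟨f, hf, hfA⟩
    have hne : ∀ a ∈ A, a ≠ [] := by
      intro a ha h
      obtain ⟨i, hi⟩ := List.mem_iff_get.1 ha
      have := hfA i
      rw [hi, h] at this
      simp at this
    refine ⟨fun a ha => ?_, fun e he => ?_⟩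
    · have := hne a ha
      cases a with
      | nil => exact absurd rfl this
      | cons => rfl
    · rw [decide_eq_true_eq]
      by_contra hcon
      push Not at hcon
      obtain ⟨T, hT⟩ : ∃ T, T = rounds U A := ⟨_, rfl⟩
      rw [← hT] at hcon
      have hpot := pot_le hne hU hf hfA T
      obtain ⟨c, hc⟩ : ∃ c, c = cnt ((sround A)^[T] []) e := ⟨_, rfl⟩
      have h1 : (c - T) ^ 2 ≤ T * (A.length * A.length + U.length) := by
        refine le_trans ?_ hpot
        rw [hc]
        exact Finset.single_le_sum (f := fun e => (cnt ((sround A)^[T] []) e - T) ^ 2)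
          (fun _ _ => Nat.zero_le _) (List.mem_toFinset.2 he)
      rw [← hc] at hcon
      have h2 : T ≤ (c - T) * A.length := by
        rcases Nat.le_total T c with h | h
        · obtain ⟨d, rfl⟩ := Nat.exists_eq_add_of_le h
          rw [Nat.add_sub_cancel_left]
          nlinarith
        · exfalso
          have : c * A.length ≤ T * A.length := Nat.mul_le_mul_right _ h
          have hTpos : 0 < T := by rw [hT]; unfold rounds; omega
          nlinarith
      have h3 : T * T ≤ (c - T) ^ 2 * (A.length * A.length) := by
        calc T * T ≤ ((c - T) * A.length) * ((c - T) * A.length) := Nat.mul_le_mul h2 h2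
          _ = _ := by ring
      have h4 : T * T ≤ T * (A.length * A.length * (A.length * A.length + U.length)) := by
        refine h3.trans ?_
        calc (c - T) ^ 2 * (A.length * A.length) ≤
            (T * (A.length * A.length + U.length)) * (A.length * A.length) :=
              Nat.mul_le_mul_right _ h1
          _ = _ := by ring
      have hTpos : 0 < T := by rw [hT]; unfold rounds; omega
      have h5 := Nat.le_of_mul_le_mul_left h4 hTpos
      rw [hT] at h5
      unfold rounds at h5
      omega

end analysis

/-! ### Polynomial time -/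

variable {γ : Type} [Enc γ]

theorem PolyFn.cnt {h : γ → List ℕ} {e : γ → ℕ} (hh : PolyFn h) (he : PolyFn e) :
    PolyFn (fun c => cnt (h c) (e c)) :=
  PolyFn.length (PolyFn.filter (p := fun c x => decide (x = e c))
    (PolyFn.decide_eq_nat PolyFn.snd (he.comp PolyFn.fst)) hh)

theorem PolyFn.best {h a : γ → List ℕ} (hh : PolyFn h) (ha : PolyFn a) :
    PolyFn (fun c => best (h c) (a c)) := by
  have key : PolyFn (fun p : List ℕ × List ℕ => PolyTime.best p.1 p.2) := by
    refine PolyFn.foldl (γ := List ℕ × List ℕ) (step := fun p b e =>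
      if PolyTime.cnt p.1 e < PolyTime.cnt p.1 b then e else b) (init := fun p => p.2.headD 0)
      (l := fun p => p.2) ?_ (PolyFn.headD PolyFn.snd (PolyFn.const 0)) PolyFn.snd
      ⟨fun m => 2 * m + 2, ((PB.const 2).mul PB.id).add (PB.const 2), ?_⟩
    · have h1 : PolyFn (fun p : (List ℕ × List ℕ) × ℕ × ℕ => p.1.1) := PolyFn.fst.comp PolyFn.fst
      have h2 : PolyFn (fun p : (List ℕ × List ℕ) × ℕ × ℕ => p.2.1) := PolyFn.fst.comp PolyFn.snd
      have h3 : PolyFn (fun p : (List ℕ × List ℕ) × ℕ × ℕ => p.2.2) := PolyFn.snd.comp PolyFn.snd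
      exact PolyFn.ite (PolyFn.decide_lt (PolyFn.cnt h1 h3) (PolyFn.cnt h1 h2)) h3 h2
    · intro p i _
      have h1 := (foldl_best p.1 (p.2.take i) (p.2.headD 0)).1
      have h2 : ∀ x ∈ p.2, size x ≤ size p := by
        intro x hx
        have h3 := size_le_of_mem hx
        have h4 : size p = size p.1 + size p.2 + 1 := size_prod p.1 p.2
        omega
      have h3 : size (p.2.headD 0) ≤ size p := by
        cases hp : p.2 with
        | nil =>
          have := size_pos p
          simp only [List.headD_nil, size_nat]
          omega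
        | cons x l =>
          simp only [List.headD_cons]
          exact h2 x (by rw [hp]; simp)
      dsimp only
      rcases h1 with h1 | h1
      · rw [h1]; omega
      · have := h2 _ (List.mem_of_mem_take h1)
        omega
  exact key.comp (hh.pair ha)

theorem size_best (h : List ℕ) (a : List ℕ) : size (best h a) ≤ size a + 1 := by
  cases a with
  | nil => simp [best]
  | cons x l =>
    have := size_le_of_mem (best_mem h (a := x :: l) (by simp))
    omega

theorem sround_size (A : List (List ℕ)) (t : ℕ) :
    size ((sround A)^[t] []) ≤ t * (size A * (size A + 2)) + 1 := by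
  induction t with
  | zero => simp
  | succ t ih =>
    rw [Function.iterate_succ_apply', sround]
    have h1 := size_append (A.map fun a => best ((sround A)^[t] []) a) ((sround A)^[t] [])
    have h2 : size (A.map fun a => best ((sround A)^[t] []) a) ≤
        (A.map fun a => best ((sround A)^[t] []) a).length * (size A + 1 + 1) + 1 := by
      apply size_list_le
      intro x hx
      obtain ⟨a, ha, rfl⟩ := List.mem_map.1 hx
      have h3 := size_best ((sround A)^[t] []) a
      have h4 := size_le_of_mem ha
      omega
    rw [List.length_map] at h2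
    have h5 : A.length * (size A + 1 + 1) ≤ size A * (size A + 2) :=
      Nat.mul_le_mul (length_le_size A) (by omega)
    rw [Nat.succ_mul]
    omega

theorem PolyFn.sdr {U : γ → List ℕ} {A : γ → List (List ℕ)} (hU : PolyFn U) (hA : PolyFn A) :
    PolyFn (fun c => sdr (U c) (A c)) := by
  have hround : PolyFn (fun p : List (List ℕ) × List ℕ => sround p.1 p.2) :=
    PolyFn.append (PolyFn.map (f := fun (p : List (List ℕ) × List ℕ) a => PolyTime.best p.2 a)
      (PolyFn.best (PolyFn.snd.comp PolyFn.fst) PolyFn.snd) PolyFn.fst) PolyFn.snd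
  have hlenA : PolyFn (fun p : List ℕ × List (List ℕ) => p.2.length) := PolyFn.length PolyFn.snd
  have hlenU : PolyFn (fun p : List ℕ × List (List ℕ) => p.1.length) := PolyFn.length PolyFn.fst
  have hT : PolyFn (fun p : List ℕ × List (List ℕ) => rounds p.1 p.2) :=
    PolyFn.succ (PolyFn.mul (PolyFn.mul hlenA hlenA) (PolyFn.add (PolyFn.mul hlenA hlenA) hlenU))
  obtain ⟨q, hq, hqb⟩ := hT.size_le
  have hit : PolyFn (fun p : List ℕ × List (List ℕ) => (sround p.2)^[rounds p.1 p.2] []) := by
    refine PolyFn.iterate (γ := List ℕ × List (List ℕ)) (step := fun p h => sround p.2 h)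
      (init := fun _ => []) (cnt := fun p => rounds p.1 p.2)
      (hround.comp ((PolyFn.snd.comp PolyFn.fst).pair PolyFn.snd)) (PolyFn.const []) hT
      ⟨fun m => q m * (m * (m + 2)) + 1,
        (hq.mul (PB.id.mul (PB.id.add (PB.const 2)))).add (PB.const 1), ?_⟩
    intro p i hi
    refine (sround_size p.2 i).trans ?_
    have h1 := hqb p
    rw [size_nat] at h1
    have h2 : size p.2 ≤ size p := by
      have : size p = size p.1 + size p.2 + 1 := size_prod p.1 p.2
      omega
    have h3 : i * (size p.2 * (size p.2 + 2)) ≤ q (size p) * (size p * (size p + 2)) :=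
      Nat.mul_le_mul (by omega) (Nat.mul_le_mul h2 (by omega))
    exact Nat.add_le_add_right h3 1
  have key : PolyFn (fun p : List ℕ × List (List ℕ) => PolyTime.sdr p.1 p.2) := by
    refine PolyFn.and (PolyFn.all (p := fun _ (a : List ℕ) => !a.isEmpty)
      (PolyFn.not (PolyFn.isEmpty PolyFn.snd)) PolyFn.snd) (PolyFn.all
      (p := fun (p : List ℕ × List (List ℕ)) e => decide (PolyTime.cnt
        ((sround p.2)^[rounds p.1 p.2] []) e * p.2.length < rounds p.1 p.2 * (p.2.length + 1)))
      ?_ PolyFn.fst)
    exact PolyFn.decide_lt (PolyFn.mul (PolyFn.cnt (hit.comp PolyFn.fst) PolyFn.snd)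
      (hlenA.comp PolyFn.fst)) (PolyFn.mul (hT.comp PolyFn.fst)
        (PolyFn.succ (hlenA.comp PolyFn.fst)))
  exact key.comp (hU.pair hA)

end Pool.Agent.PolyTime
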