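import Pool.Agent.Lib.PolyTime.Tree

/-!
# Basic programs: moving, copying, clearing, parsing
-/

namespace Pool.Agent.PolyTime

open Function (update)

/-- Move stack `a` onto stack `b` (reversing it). -/
def mv (a b : ℕ) : Cmd :=
  .loop a (.cas a .skip (.seq (.pop a) (.push b false)) (.seq (.pop a) (.push b true)))

theorem mv_bdd {a b n : ℕ} (ha : a ≤ n) (hb : b ≤ n) : (mv a b).Bdd n :=
  ⟨ha, ha, trivial, ⟨ha, hb⟩, ⟨ha, hb⟩⟩

theorem mv_run {a b : ℕ} (hab : a ≠ b) : ∀ (l : List Bool) (s : St), s a = l →
    Run (mv a b) s (update (update s a []) b (l.reverse ++ s b)) (4 * l.length + 1)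
  | [], s, hl => by
    refine (Run.loopD hl).congr rfl ?_
    funext i
    by_cases hb : i = b
    · subst hb; simp
    · rw [Function.update_of_ne hb]
      by_cases ha : i = a
      · subst ha; simp [hl]
      · rw [Function.update_of_ne ha]
  | x :: l, s, hl => by
    have h1 : Run (.cas a .skip (.seq (.pop a) (.push b false)) (.seq (.pop a) (.push b true))) s
        (update (update s a l) b (x :: s b)) 3 := by
      cases x
      · refine (Run.casF hl ((Run.pop s a).seq (Run.push _ b false))).congr rfl ?_
        rw [hl, List.tail_cons, Function.update_of_ne hab.symm]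
      · refine (Run.casT hl ((Run.pop s a).seq (Run.push _ b true))).congr rfl ?_
        rw [hl, List.tail_cons, Function.update_of_ne hab.symm]
    have h2 := mv_run hab l (update (update s a l) b (x :: s b)) (by
      rw [Function.update_of_ne hab, Function.update_self])
    refine ((Run.loopS (by rw [hl]; simp) h1 h2).congr rfl ?_).mono (by
      simp only [List.length_cons]; omega)
    funext i
    by_cases hb : i = b
    · subst hb; simp
    · by_cases ha : i = a
      · subst ha; simp [Function.update_of_ne hb]
      · simp [Function.update_of_ne hb, Function.update_of_ne ha]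

/-- Move stack `a` onto both stacks `b` and `c` (reversing it). -/
def mv2 (a b c : ℕ) : Cmd :=
  .loop a (.cas a .skip (.seq (.pop a) (.seq (.push b false) (.push c false)))
    (.seq (.pop a) (.seq (.push b true) (.push c true))))

theorem mv2_bdd {a b c n : ℕ} (ha : a ≤ n) (hb : b ≤ n) (hc : c ≤ n) : (mv2 a b c).Bdd n :=
  ⟨ha, ha, trivial, ⟨ha, hb, hc⟩, ⟨ha, hb, hc⟩⟩

theorem mv2_run {a b c : ℕ} (hab : a ≠ b) (hac : a ≠ c) (hbc : b ≠ c) :
    ∀ (l : List Bool) (s : St), s a = l →
    Run (mv2 a b c) s (update (update (update s a []) b (l.reverse ++ s b)) c (l.reverse ++ s c))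
      (5 * l.length + 1)
  | [], s, hl => by
    refine (Run.loopD hl).congr rfl ?_
    funext i
    by_cases hc : i = c
    · subst hc; simp
    · rw [Function.update_of_ne hc]
      by_cases hb : i = b
      · subst hb; simp
      · rw [Function.update_of_ne hb]
        by_cases ha : i = a
        · subst ha; simp [hl]
        · rw [Function.update_of_ne ha]
  | x :: l, s, hl => by
    have h1 : Run (.cas a .skip (.seq (.pop a) (.seq (.push b false) (.push c false)))
        (.seq (.pop a) (.seq (.push b true) (.push c true)))) s
        (update (update (update s a l) b (x :: s b)) c (x :: s c)) 4 := by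
      cases x
      · refine (Run.casF hl ((Run.pop s a).seq
          ((Run.push _ b false).seq (Run.push _ c false)))).congr rfl ?_
        rw [hl, List.tail_cons, Function.update_of_ne hab.symm, Function.update_of_ne hbc.symm,
          Function.update_of_ne hac.symm]
      · refine (Run.casT hl ((Run.pop s a).seq
          ((Run.push _ b true).seq (Run.push _ c true)))).congr rfl ?_
        rw [hl, List.tail_cons, Function.update_of_ne hab.symm, Function.update_of_ne hbc.symm,
          Function.update_of_ne hac.symm]
    have h2 := mv2_run hab hac hbc l (update (update (update s a l) b (x :: s b)) c (x :: s c)) (by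
      rw [Function.update_of_ne hac, Function.update_of_ne hab, Function.update_self])
    refine ((Run.loopS (by rw [hl]; simp) h1 h2).congr rfl ?_).mono (by
      simp only [List.length_cons]; omega)
    funext i
    by_cases hc : i = c
    · subst hc; simp
    · by_cases hb : i = b
      · subst hb; simp [Function.update_of_ne hc]
      · by_cases ha : i = a
        · subst ha; simp [Function.update_of_ne hb, Function.update_of_ne hc]
        · simp [Function.update_of_ne hb, Function.update_of_ne hc, Function.update_of_ne ha]

/-- Empty stack `a`. -/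
def clr (a : ℕ) : Cmd := .loop a (.pop a)

theorem clr_bdd {a n : ℕ} (ha : a ≤ n) : (clr a).Bdd n := ⟨ha, ha⟩

theorem clr_run {a : ℕ} : ∀ (l : List Bool) (s : St), s a = l →
    Run (clr a) s (update s a []) (2 * l.length + 1)
  | [], s, hl => by
    refine (Run.loopD hl).congr rfl ?_
    rw [← hl, Function.update_eq_self]
  | x :: l, s, hl => by
    have h1 : Run (.pop a) s (update s a l) 1 := (Run.pop s a).congr rfl (by rw [hl]; rfl)
    have h2 := clr_run l (update s a l) (by rw [Function.update_self])
    refine ((Run.loopS (by rw [hl]; simp) h1 h2).congr rfl ?_).mono (by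
      simp only [List.length_cons]; omega)
    simp

/-- The loop that moves one complete tree code from stack `0` onto stack `1` (reversing it), using
stack `2` as a counter of trees that remain to be read. -/
def parse : Cmd :=
  .loop 2 (.cas 0 .skip
    (.seq (.pop 0) (.seq (.push 1 false) (.pop 2)))
    (.seq (.pop 0) (.seq (.push 1 true) (.push 2 true))))

/-- A state given by its first three stacks. -/
def st3 (s : St) (a b c : List Bool) : St := update (update (update s 0 a) 1 b) 2 c

@[simp] theorem st3_zero (s : St) (a b c : List Bool) : st3 s a b c 0 = a := by simp [st3]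
@[simp] theorem st3_one (s : St) (a b c : List Bool) : st3 s a b c 1 = b := by simp [st3]
@[simp] theorem st3_two (s : St) (a b c : List Bool) : st3 s a b c 2 = c := by simp [st3]

theorem st3_upd0 (s : St) (a b c a' : List Bool) : update (st3 s a b c) 0 a' = st3 s a' b c := by
  funext i
  by_cases h0 : i = 0
  · subst h0; simp
  · by_cases h1 : i = 1
    · subst h1; simp
    · by_cases h2 : i = 2
      · subst h2; simp
      · simp [st3, h0, h1, h2]

theorem st3_upd1 (s : St) (a b c b' : List Bool) : update (st3 s a b c) 1 b' = st3 s a b' c := by
  funext i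
  by_cases h0 : i = 0
  · subst h0; simp
  · by_cases h1 : i = 1
    · subst h1; simp
    · by_cases h2 : i = 2
      · subst h2; simp
      · simp [st3, h0, h1, h2]

theorem st3_upd2 (s : St) (a b c c' : List Bool) : update (st3 s a b c) 2 c' = st3 s a b c' := by
  funext i
  by_cases h0 : i = 0
  · subst h0; simp
  · by_cases h1 : i = 1
    · subst h1; simp
    · by_cases h2 : i = 2
      · subst h2; simp
      · simp [st3, h0, h1, h2]

theorem st3_self (s : St) : st3 s (s 0) (s 1) (s 2) = s := by
  simp [st3]

theorem parse_aux (x : T) : ∀ (s : St) (rest acc tok : List Bool) (s'' : St) (B : ℕ),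
    Run parse (st3 s rest ((code x).reverse ++ acc) tok) s'' B →
    Run parse (st3 s (code x ++ rest) acc (true :: tok)) s'' (B + 5 * tsize x) := by
  induction x with
  | nil =>
    intro s rest acc tok s'' B h
    have h1 : Run (.cas 0 .skip
        (.seq (.pop 0) (.seq (.push 1 false) (.pop 2)))
        (.seq (.pop 0) (.seq (.push 1 true) (.push 2 true))))
        (st3 s (code .nil ++ rest) acc (true :: tok)) (st3 s rest ([false] ++ acc) tok) 4 := by
      refine (Run.casF (l := rest) (by simp [code]) ((Run.pop _ 0).seq
        ((Run.push _ 1 false).seq (Run.pop _ 2)))).congr rfl ?_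
      simp [st3_upd0, st3_upd1, st3_upd2, code]
    refine (Run.loopS (by simp) h1 h).mono (by simp; omega)
  | node l r ihl ihr =>
    intro s rest acc tok s'' B h
    have h1 : Run (.cas 0 .skip
        (.seq (.pop 0) (.seq (.push 1 false) (.pop 2)))
        (.seq (.pop 0) (.seq (.push 1 true) (.push 2 true))))
        (st3 s (code (.node l r) ++ rest) acc (true :: tok))
        (st3 s (code l ++ (code r ++ rest)) (true :: acc) (true :: true :: tok)) 4 := by
      refine (Run.casT (l := code l ++ (code r ++ rest)) (by simp [code]) ((Run.pop _ 0).seq
        ((Run.push _ 1 true).seq (Run.push _ 2 true)))).congr rfl ?_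
      simp [st3_upd0, st3_upd1, st3_upd2, code]
    have h2 := ihl s (code r ++ rest) (true :: acc) (true :: tok) s'' (B + 5 * tsize r)
      (ihr s rest ((code l).reverse ++ true :: acc) tok s'' B (by
        simpa [code] using h))
    exact (Run.loopS (by simp) h1 h2).mono (by simp; omega)

theorem parse_run (x : T) (s : St) (rest acc : List Bool) :
    Run parse (st3 s (code x ++ rest) acc [true]) (st3 s rest ((code x).reverse ++ acc) [])
      (5 * tsize x + 1) :=
  (parse_aux x s rest acc [] _ 1 (Run.loopD (by simp))).mono (by omega)

theorem parse_bdd : parse.Bdd 2 := by simp [parse, Cmd.Bdd]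

end Pool.Agent.PolyTime
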