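import Pool.Agent.Lib.PolyTime.Cmd
import Pool.Agent.Lib.PolyTime.Bound

/-!
# Binary trees, their bit codes, and polynomial-time functions between encoded types
-/

namespace Pool.Agent.PolyTime

/-- Binary trees, the universal data type. -/
inductive T : Type
  | nil : T
  | node (l r : T) : T
  deriving DecidableEq

/-- The prefix-free bit code of a tree. -/
def code : T → List Bool
  | .nil => [false]
  | .node l r => true :: (code l ++ code r)

/-- The size of a tree. -/
def tsize (t : T) : ℕ := (code t).length

@[simp] theorem tsize_nil : tsize .nil = 1 := rfl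

@[simp] theorem tsize_node (l r : T) : tsize (.node l r) = tsize l + tsize r + 1 := by
  simp [tsize, code]

theorem tsize_pos (t : T) : 0 < tsize t := by
  cases t <;> simp

/-- Types encoded by trees. -/
class Enc (α : Type) where
  enc : α → T

export Enc (enc)

instance : Enc T := ⟨fun t => t⟩

instance : Enc Unit := ⟨fun _ => .nil⟩

instance : Enc Bool := ⟨fun b => cond b (.node .nil .nil) .nil⟩

instance {α β : Type} [Enc α] [Enc β] : Enc (α × β) := ⟨fun p => .node (enc p.1) (enc p.2)⟩

/-- Encoding of lists. -/
def encList {α : Type} [Enc α] : List α → T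
  | [] => .nil
  | a :: l => .node (enc a) (encList l)

instance {α : Type} [Enc α] : Enc (List α) := ⟨encList⟩

/-- Unary encoding of natural numbers. -/
def encNat : ℕ → T
  | 0 => .nil
  | n + 1 => .node .nil (encNat n)

instance : Enc ℕ := ⟨encNat⟩

instance {α : Type} [Enc α] : Enc (Option α) :=
  ⟨fun o => match o with
    | none => .nil
    | some a => .node .nil (enc a)⟩

@[simp] theorem enc_T (t : T) : enc t = t := rfl
@[simp] theorem enc_unit (t : Unit) : enc t = T.nil := rfl
@[simp] theorem enc_true : enc true = T.node .nil .nil := rfl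
@[simp] theorem enc_false : enc false = T.nil := rfl
@[simp] theorem enc_prod {α β : Type} [Enc α] [Enc β] (a : α) (b : β) :
    enc (a, b) = .node (enc a) (enc b) := rfl
@[simp] theorem enc_list_nil {α : Type} [Enc α] : enc ([] : List α) = .nil := rfl
@[simp] theorem enc_list_cons {α : Type} [Enc α] (a : α) (l : List α) :
    enc (a :: l) = .node (enc a) (enc l) := rfl
@[simp] theorem enc_zero : enc (0 : ℕ) = .nil := rfl
@[simp] theorem enc_succ (n : ℕ) : enc (n + 1) = .node .nil (enc n) := rfl
@[simp] theorem enc_none {α : Type} [Enc α] : enc (none : Option α) = .nil := rfl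
@[simp] theorem enc_some {α : Type} [Enc α] (a : α) : enc (some a) = .node .nil (enc a) := rfl

/-- The size of an element of an encoded type. -/
def size {α : Type} [Enc α] (a : α) : ℕ := tsize (enc a)

theorem size_pos {α : Type} [Enc α] (a : α) : 0 < size a := tsize_pos _

@[simp] theorem size_unit (t : Unit) : size t = 1 := rfl
@[simp] theorem size_true : size true = 3 := rfl
@[simp] theorem size_false : size false = 1 := rfl
theorem size_bool (b : Bool) : size b ≤ 3 := by cases b <;> simp
@[simp] theorem size_prod {α β : Type} [Enc α] [Enc β] (a : α) (b : β) :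
    size (a, b) = size a + size b + 1 := by simp [size]
@[simp] theorem size_list_nil {α : Type} [Enc α] : size ([] : List α) = 1 := rfl
@[simp] theorem size_list_cons {α : Type} [Enc α] (a : α) (l : List α) :
    size (a :: l) = size a + size l + 1 := by simp [size]
@[simp] theorem size_nat (n : ℕ) : size n = 2 * n + 1 := by
  induction n with
  | zero => rfl
  | succ n ih =>
    simp only [size, enc_succ, tsize_node, tsize_nil] at ih ⊢
    omega
@[simp] theorem size_none {α : Type} [Enc α] : size (none : Option α) = 1 := rfl
@[simp] theorem size_some {α : Type} [Enc α] (a : α) : size (some a) = size a + 2 := by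
  simp [size]; omega
theorem size_T (t : T) : size t = tsize t := rfl

/-- `PolyFn f`: the function `f` between encoded types is computed by a stack program in polynomial
time. -/
def PolyFn {α β : Type} [Enc α] [Enc β] (f : α → β) : Prop :=
  ∃ (c : Cmd) (m : ℕ) (g : ℕ → ℕ), c.Bdd m ∧ PB g ∧ ∀ (a : α) (s : St),
    s 0 = code (enc a) → (∀ i, 0 < i → i ≤ m → s i = []) →
      Run c s (Function.update s 0 (code (enc (f a)))) (g (size a))

theorem PolyFn.size_le {α β : Type} [Enc α] [Enc β] {f : α → β} (h : PolyFn f) :
    ∃ g, PB g ∧ ∀ a, size (f a) ≤ g (size a) := by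
  obtain ⟨c, m, g, -, hg, h⟩ := h
  refine ⟨fun n => n + g n, PB.id.add hg, fun a => ?_⟩
  obtain ⟨t, ht, h⟩ := h a (fun i => if i = 0 then code (enc a) else []) (by simp)
    (fun i hi _ => by simp [hi.ne'])
  have := h.length_le 0
  simp only [Function.update_self, if_true] at this
  change size (f a) ≤ size a + t at this
  show size (f a) ≤ size a + g (size a)
  omega

theorem PolyFn.of_eq {α β : Type} [Enc α] [Enc β] {f g : α → β} (h : PolyFn f) (hfg : ∀ a, f a = g a) :
    PolyFn g := by
  have : f = g := funext hfg
  subst this; exact h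

/-- Only the encodings matter. -/
theorem PolyFn.of_enc {α β γ δ : Type} [Enc α] [Enc β] [Enc γ] [Enc δ] {F : γ → δ} (hF : PolyFn F)
    {f : α → β} (i : α → γ) (hi : ∀ a, enc (i a) = enc a) (h : ∀ a, enc (F (i a)) = enc (f a)) :
    PolyFn f := by
  obtain ⟨c, m, g, hm, hg, H⟩ := hF
  refine ⟨c, m, g, hm, hg, fun a s hs hs' => ?_⟩
  have := H (i a) s (by rw [hs, hi]) hs'
  rw [h a] at this
  have hsz : size (i a) = size a := by simp [size, hi]
  rw [hsz] at this
  exact this

end Pool.Agent.PolyTime
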